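import Mathlib

set_option autoImplicit false

/-!
Decision trees of depth less than the size of an orbit of a `p`-group do not see the orbit
(Rivest and Vuillemin).
-/

namespace Pool.Agent.R570.PS

open Finset

section Tree

variable {E : Type} [DecidableEq E]

/-- `f` is computed by a decision tree of depth at most `d`: every predicate closed under the
formation of decision trees holds for it. -/
def DepthLe (d : ℕ) (f : (E → Bool) → Bool) : Prop :=
  ∀ P : ℕ → ((E → Bool) → Bool) → Prop,
    (∀ (m : ℕ) (g : (E → Bool) → Bool), (∀ x y, g x = g y) → P m g) →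
    (∀ (m : ℕ) (g : (E → Bool) → Bool) (i : E),
       P m (fun x => g (Function.update x i false)) →
       P m (fun x => g (Function.update x i true)) → P (m + 1) g) →
    P d f

/-- the input which is `S` on `A` and `z` elsewhere -/
def mix (A : Finset E) (z : E → Bool) (S : Finset E) : E → Bool :=
  fun e => if e ∈ A then decide (e ∈ S) else z e

/-- the input with support `S` -/
def ind (S : Finset E) : E → Bool := fun e => decide (e ∈ S)

theorem mix_ind (O Y S : Finset E) (hS : S ⊆ O) (hd : Disjoint Y O) :
    mix O (ind Y) S = ind (Y ∪ S) := by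
  funext e
  by_cases he : e ∈ O
  · have : e ∉ Y := fun h => (Finset.disjoint_left.1 hd h he)
    simp [mix, ind, he, this]
  · have : e ∉ S := fun h => he (hS h)
    simp [mix, ind, he, this]

theorem ind_mono {S T : Finset E} (h : S ⊆ T) : ind S ≤ ind T := by
  intro e
  simp only [ind]
  by_cases he : e ∈ S
  · simp [he, h he]
  · simp [he]

/-- the alternating sum over a subcube of dimension larger than the depth is zero -/
theorem alt_zero {k : ℕ} {f : (E → Bool) → Bool} (h : DepthLe k f) :
    ∀ A : Finset E, k < A.card → ∀ z : E → Bool,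
      ∑ S ∈ A.powerset, (-1 : ℤ) ^ S.card * (if f (mix A z S) = true then 1 else 0) = 0 := by
  refine h (fun m g => ∀ A : Finset E, m < A.card → ∀ z : E → Bool,
    ∑ S ∈ A.powerset, (-1 : ℤ) ^ S.card * (if g (mix A z S) = true then 1 else 0) = 0) ?_ ?_
  · intro m g hg A hA z
    have hne : A.Nonempty := card_pos.1 (by omega)
    have h1 : ∀ S ∈ A.powerset, (-1 : ℤ) ^ S.card * (if g (mix A z S) = true then 1 else 0) =
        (-1 : ℤ) ^ S.card * (if g z = true then 1 else 0) := by
      intro S _
      rw [hg (mix A z S) z]
    rw [Finset.sum_congr rfl h1, ← Finset.sum_mul, Finset.sum_powerset_neg_one_pow_card_of_nonempty hne,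
      zero_mul]
  · intro m g i h0 h1 A hA z
    by_cases hi : i ∈ A
    · have hc : m < (A.erase i).card := by rw [card_erase_of_mem hi]; omega
      have e0 := h0 _ hc z
      have e1 := h1 _ hc z
      have hA' : A = insert i (A.erase i) := (Finset.insert_erase hi).symm
      have hni : i ∉ A.erase i := Finset.notMem_erase i A
      rw [hA', Finset.sum_powerset_insert hni, ← hA']
      have e0' : ∑ S ∈ (A.erase i).powerset,
          (-1 : ℤ) ^ S.card * (if g (mix A z S) = true then 1 else 0) = 0 := by
        refine (Finset.sum_congr rfl fun S hS => ?_).trans e0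
        rw [Finset.mem_powerset] at hS
        have : Function.update (mix (A.erase i) z S) i false = mix A z S := by
          funext e
          by_cases he : e = i
          · subst he
            have : e ∉ S := fun h => absurd (hS h) (by simp)
            simp [mix, hi, this]
          · simp [mix, he]
        show _ = (-1 : ℤ) ^ S.card * (if g (Function.update (mix (A.erase i) z S) i false) = true
          then 1 else 0)
        rw [this]
      have e1' : ∑ S ∈ (A.erase i).powerset,
          (-1 : ℤ) ^ (insert i S).card * (if g (mix A z (insert i S)) = true then 1 else 0) = 0 := by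
        have : ∑ S ∈ (A.erase i).powerset,
          (-1 : ℤ) ^ (insert i S).card * (if g (mix A z (insert i S)) = true then 1 else 0) =
          - ∑ S ∈ (A.erase i).powerset, (-1 : ℤ) ^ S.card *
            (if g (Function.update (mix (A.erase i) z S) i true) = true then 1 else 0) := by
          rw [← Finset.sum_neg_distrib]
          refine Finset.sum_congr rfl fun S hS => ?_
          rw [Finset.mem_powerset] at hS
          have hiS : i ∉ S := fun h => hni (hS h)
          have : Function.update (mix (A.erase i) z S) i true = mix A z (insert i S) := by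
            funext e
            by_cases he : e = i
            · subst he
              simp [mix, hi]
            · simp [mix, he]
          rw [this, Finset.card_insert_of_notMem hiS, pow_succ]
          ring
        rw [this, e1, neg_zero]
      rw [e0', e1', add_zero]
    · have hm : ∀ S, mix A z S i = z i := fun S => by simp [mix, hi]
      have hu : ∀ S, Function.update (mix A z S) i (z i) = mix A z S := fun S => by
        rw [← hm S, Function.update_eq_self]
      cases hz : z i with
      | false =>
        refine (Finset.sum_congr rfl fun S _ => ?_).trans (h0 A (by omega) z)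
        have := hu S
        rw [hz] at this
        show _ = (-1 : ℤ) ^ S.card * (if g (Function.update (mix A z S) i false) = true
          then 1 else 0)
        rw [this]
      | true =>
        refine (Finset.sum_congr rfl fun S _ => ?_).trans (h1 A (by omega) z)
        have := hu S
        rw [hz] at this
        show _ = (-1 : ℤ) ^ S.card * (if g (Function.update (mix A z S) i true) = true
          then 1 else 0)
        rw [this]

end Tree

section Group

variable {E : Type} [DecidableEq E] [Fintype E] {P : Type} [Group P] [Finite P] [MulAction P E]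

open scoped Pointwise

/-- invariant sets -/
def Inv (P : Type) [Group P] [MulAction P E] (S : Finset E) : Prop :=
  ∀ (g : P), ∀ x ∈ S, g • x ∈ S

theorem inv_smul_eq {S : Finset E} (h : Inv P S) (g : P) : g • S = S := by
  apply Finset.eq_of_subset_of_card_le
  · intro x hx
    rw [Finset.mem_smul_finset] at hx
    obtain ⟨y, hy, rfl⟩ := hx
    exact h g y hy
  · rw [Finset.card_smul_finset]

theorem inv_of_smul_eq {S : Finset E} (h : ∀ g : P, g • S = S) : Inv P S := by
  intro g x hx
  rw [← h g]
  exact Finset.smul_mem_smul_finset hx

open Classical in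
/-- counting modulo `p` -/
theorem card_mod (p : ℕ) [Fact p.Prime] (hP : IsPGroup p P) (C : Finset (Finset E))
    (hC : ∀ g : P, ∀ S ∈ C, g • S ∈ C) :
    C.card ≡ (C.filter (fun S => Inv P S)).card [MOD p] := by
  let _ : MulAction P {S : Finset E // S ∈ C} :=
    { smul := fun g S => ⟨g • S.1, hC g S.1 S.2⟩
      one_smul := fun S => Subtype.ext (one_smul P S.1)
      mul_smul := fun g h S => Subtype.ext (mul_smul g h S.1) }
  have h := hP.card_modEq_card_fixedPoints {S : Finset E // S ∈ C}
  have h1 : Nat.card {S : Finset E // S ∈ C} = C.card := by simp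
  have h2 : Nat.card (MulAction.fixedPoints P {S : Finset E // S ∈ C}) =
      (C.filter (fun S => Inv P S)).card := by
    rw [← Nat.card_eq_finsetCard (C.filter (fun S => Inv P S))]
    refine Nat.card_congr
      { toFun := fun S => ⟨S.1.1, ?_⟩
        invFun := fun S => ⟨⟨S.1, (Finset.mem_filter.1 S.2).1⟩, ?_⟩
        left_inv := fun S => by rfl
        right_inv := fun S => by rfl }
    · rw [Finset.mem_filter]
      refine ⟨S.1.2, inv_of_smul_eq fun g => ?_⟩
      exact congrArg Subtype.val (S.2 g)
    · intro g
      exact Subtype.ext (inv_smul_eq (Finset.mem_filter.1 S.2).2 g)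
  rwa [h1, h2] at h

/-- the orbit lemma for a single orbit -/
theorem rv (p : ℕ) [Fact p.Prime] (hP : IsPGroup p P) {k : ℕ} {f : (E → Bool) → Bool}
    (h : DepthLe k f) (hf : ∀ (g : P) (S : Finset E), f (ind (g • S)) = f (ind S))
    (Y O : Finset E) (hd : Disjoint Y O) (hO : k < O.card) (hY : Inv P Y) (hOi : Inv P O)
    (htr : ∀ S, S ⊆ O → S.Nonempty → Inv P S → S = O) : f (ind (Y ∪ O)) = f (ind Y) := by
  classical
  have hsum := alt_zero h O hO (ind Y)
  have hOne : O.Nonempty := card_pos.1 (by omega)
  set C0 : Finset (Finset E) := O.powerset.filter (fun S => f (ind (Y ∪ S)) = true ∧ Even S.card)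
    with hC0
  set C1 : Finset (Finset E) := O.powerset.filter (fun S => f (ind (Y ∪ S)) = true ∧ ¬ Even S.card)
    with hC1
  have hs : ∑ S ∈ O.powerset, (-1 : ℤ) ^ S.card * (if f (mix O (ind Y) S) = true then 1 else 0) =
      (C0.card : ℤ) - C1.card := by
    rw [hC0, hC1, Finset.card_filter, Finset.card_filter]
    push_cast
    rw [← Finset.sum_sub_distrib]
    refine Finset.sum_congr rfl fun S hS => ?_
    rw [Finset.mem_powerset] at hS
    rw [mix_ind O Y S hS hd]
    by_cases h1 : f (ind (Y ∪ S)) = true
    · by_cases h2 : Even S.card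
      · simp [h1, h2]
      · have h3 : Odd S.card := Nat.not_even_iff_odd.1 h2
        simp [h1, h2, h3.neg_one_pow]
    · simp [h1]
  rw [hs] at hsum
  have hsub : ∀ g : P, ∀ S, S ⊆ O → g • S ⊆ O := by
    intro g S hS x hx
    rw [Finset.mem_smul_finset] at hx
    obtain ⟨y, hy, rfl⟩ := hx
    exact hOi g y (hS hy)
  have hfg : ∀ g : P, ∀ S, f (ind (Y ∪ g • S)) = f (ind (Y ∪ S)) := by
    intro g S
    have : Y ∪ g • S = g • (Y ∪ S) := by
      rw [Finset.smul_finset_union, inv_smul_eq hY]
    rw [this, hf]
  have m0 := card_mod p hP C0 (by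
    intro g S hS
    rw [hC0, Finset.mem_filter, Finset.mem_powerset] at hS ⊢
    refine ⟨hsub g S hS.1, ?_, ?_⟩
    · rw [hfg]; exact hS.2.1
    · rw [Finset.card_smul_finset]; exact hS.2.2)
  have m1 := card_mod p hP C1 (by
    intro g S hS
    rw [hC1, Finset.mem_filter, Finset.mem_powerset] at hS ⊢
    refine ⟨hsub g S hS.1, ?_, ?_⟩
    · rw [hfg]; exact hS.2.1
    · rw [Finset.card_smul_finset]; exact hS.2.2)
  have hinv : ∀ S, S ⊆ O → Inv P S → S = ∅ ∨ S = O := by
    intro S hS hSi
    rcases S.eq_empty_or_nonempty with h1 | h1
    · exact Or.inl h1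
    · exact Or.inr (htr S hS h1 hSi)
  have hemp : Inv P (∅ : Finset E) := fun g x hx => absurd hx (by simp)
  have hOe : O ≠ ∅ := hOne.ne_empty
  by_contra hne
  -- number of fixed sets
  have hp1 : 1 < p := (Fact.out : p.Prime).one_lt
  have hYe : Y ∪ ∅ = Y := Finset.union_empty Y
  rcases Bool.eq_false_or_eq_true (f (ind Y)) with hy | hy
  · have ho : f (ind (Y ∪ O)) = false := by
      rw [hy] at hne
      simpa using hne
    have c0 : C0.filter (fun S => Inv P S) = {∅} := by
      ext S
      rw [Finset.mem_filter, hC0, Finset.mem_filter, Finset.mem_powerset, Finset.mem_singleton]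
      constructor
      · rintro ⟨⟨h1, h2, h3⟩, h4⟩
        rcases hinv S h1 h4 with h5 | h5
        · exact h5
        · rw [h5, ho] at h2
          exact absurd h2 (by simp)
      · rintro rfl
        exact ⟨⟨by simp, by rw [hYe]; exact hy, by simp⟩, hemp⟩
    have c1 : C1.filter (fun S => Inv P S) = ∅ := by
      rw [Finset.eq_empty_iff_forall_notMem]
      intro S hS
      rw [Finset.mem_filter, hC1, Finset.mem_filter, Finset.mem_powerset] at hS
      obtain ⟨⟨h1, h2, h3⟩, h4⟩ := hS
      rcases hinv S h1 h4 with h5 | h5
      · rw [h5] at h3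
        exact h3 (by simp)
      · rw [h5, ho] at h2
        exact absurd h2 (by simp)
    rw [c0, Finset.card_singleton] at m0
    rw [c1, Finset.card_empty] at m1
    have heq : C0.card = C1.card := by omega
    rw [heq] at m0
    have h3 : (1 : ℕ) ≡ 0 [MOD p] := m0.symm.trans m1
    have h4 := (Nat.modEq_zero_iff_dvd).1 h3
    have := Nat.le_of_dvd one_pos h4
    omega
  · have ho : f (ind (Y ∪ O)) = true := by
      rw [hy] at hne
      simpa using hne
    by_cases hev : Even O.card
    · have c0 : C0.filter (fun S => Inv P S) = {O} := by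
        ext S
        rw [Finset.mem_filter, hC0, Finset.mem_filter, Finset.mem_powerset, Finset.mem_singleton]
        constructor
        · rintro ⟨⟨h1, h2, h3⟩, h4⟩
          rcases hinv S h1 h4 with h5 | h5
          · rw [h5, hYe, hy] at h2
            exact absurd h2 (by simp)
          · exact h5
        · rintro rfl
          exact ⟨⟨subset_rfl, ho, hev⟩, hOi⟩
      have c1 : C1.filter (fun S => Inv P S) = ∅ := by
        rw [Finset.eq_empty_iff_forall_notMem]
        intro S hS
        rw [Finset.mem_filter, hC1, Finset.mem_filter, Finset.mem_powerset] at hS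
        obtain ⟨⟨h1, h2, h3⟩, h4⟩ := hS
        rcases hinv S h1 h4 with h5 | h5
        · rw [h5] at h3
          exact h3 (by simp)
        · rw [h5] at h3
          exact h3 hev
      rw [c0, Finset.card_singleton] at m0
      rw [c1, Finset.card_empty] at m1
      have heq : C0.card = C1.card := by omega
      rw [heq] at m0
      have h3 : (1 : ℕ) ≡ 0 [MOD p] := m0.symm.trans m1
      have h4 := (Nat.modEq_zero_iff_dvd).1 h3
      have := Nat.le_of_dvd one_pos h4
      omega
    · have c1 : C1.filter (fun S => Inv P S) = {O} := by
        ext S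
        rw [Finset.mem_filter, hC1, Finset.mem_filter, Finset.mem_powerset, Finset.mem_singleton]
        constructor
        · rintro ⟨⟨h1, h2, h3⟩, h4⟩
          rcases hinv S h1 h4 with h5 | h5
          · rw [h5, hYe, hy] at h2
            exact absurd h2 (by simp)
          · exact h5
        · rintro rfl
          exact ⟨⟨subset_rfl, ho, hev⟩, hOi⟩
      have c0 : C0.filter (fun S => Inv P S) = ∅ := by
        rw [Finset.eq_empty_iff_forall_notMem]
        intro S hS
        rw [Finset.mem_filter, hC0, Finset.mem_filter, Finset.mem_powerset] at hS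
        obtain ⟨⟨h1, h2, h3⟩, h4⟩ := hS
        rcases hinv S h1 h4 with h5 | h5
        · rw [h5, hYe, hy] at h2
          exact absurd h2 (by simp)
        · rw [h5] at h3
          exact hev h3
      rw [c1, Finset.card_singleton] at m1
      rw [c0, Finset.card_empty] at m0
      have heq : C0.card = C1.card := by omega
      rw [heq] at m0
      have h3 : (1 : ℕ) ≡ 0 [MOD p] := m1.symm.trans m0
      have h4 := (Nat.modEq_zero_iff_dvd).1 h3
      have := Nat.le_of_dvd one_pos h4
      omega

/-- a decision tree of depth `k` does not see an invariant set `O` all of whose non-empty invariant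
subsets have more than `k` elements -/
theorem rv' (p : ℕ) [Fact p.Prime] (hP : IsPGroup p P) {k : ℕ} {f : (E → Bool) → Bool}
    (h : DepthLe k f) (hf : ∀ (g : P) (S : Finset E), f (ind (g • S)) = f (ind S))
    (n : ℕ) : ∀ (Y O : Finset E), O.card ≤ n → Disjoint Y O → Inv P Y → Inv P O →
    (∀ S, S ⊆ O → S.Nonempty → Inv P S → k < S.card) → f (ind (Y ∪ O)) = f (ind Y) := by
  classical
  induction n with
  | zero =>
    intro Y O hn _ _ _ _
    have : O = ∅ := Finset.card_eq_zero.1 (by omega)
    rw [this, Finset.union_empty]
  | succ n ih =>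
    intro Y O hn hd hY hOf hbig
    rcases O.eq_empty_or_nonempty with rfl | hOne
    · rw [Finset.union_empty]
    have hex : (O.powerset.filter (fun S => S.Nonempty ∧ Inv P S)).Nonempty :=
      ⟨O, by simp [hOne, hOf]⟩
    obtain ⟨T, hT, hmin⟩ := Finset.exists_min_image _ Finset.card hex
    rw [Finset.mem_filter, Finset.mem_powerset] at hT
    obtain ⟨hTO, hTne, hTf⟩ := hT
    have hsd : Inv P (O \ T) := by
      intro g x hx
      rw [Finset.mem_sdiff] at hx ⊢
      refine ⟨hOf g x hx.1, fun h1 => hx.2 ?_⟩
      have := hTf g⁻¹ _ h1
      rwa [inv_smul_smul] at this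
    have hYf : Inv P (Y ∪ O \ T) := by
      intro g x hx
      rw [Finset.mem_union] at hx ⊢
      rcases hx with hx | hx
      · exact Or.inl (hY g x hx)
      · exact Or.inr (hsd g x hx)
    have h1 : f (ind (Y ∪ O)) = f (ind (Y ∪ O \ T)) := by
      have h0 := rv p hP h hf (Y ∪ O \ T) T (by
        rw [Finset.disjoint_union_left]
        exact ⟨hd.mono_right hTO, Finset.sdiff_disjoint⟩) (hbig T hTO hTne hTf) hYf hTf (by
        intro S hS hSne hSf
        have h2 := hmin S (by
          rw [Finset.mem_filter, Finset.mem_powerset]
          exact ⟨hS.trans hTO, hSne, hSf⟩)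
        exact Finset.eq_of_subset_of_card_le hS h2)
      rw [← h0, Finset.union_assoc, Finset.sdiff_union_of_subset hTO]
    rw [h1]
    refine ih Y (O \ T) ?_ (hd.mono_right Finset.sdiff_subset) hY hsd
      (fun S hS => hbig S (hS.trans Finset.sdiff_subset))
    have h2 : (O \ T).card + T.card = O.card := Finset.card_sdiff_add_card_eq_card hTO
    have h3 := hTne.card_pos
    omega

end Group

end Pool.Agent.R570.PS
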