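import Mathlib
import Pool.Agent.R570.PS.RV

set_option autoImplicit false

/-!
Abstract polar geometry: a relation `perp` (not opposite) on a finite set of points, and for every
point `y` a `p`-group which fixes `y`, is transitive on the points opposite to `y`, and moves every
point within its line through `y`. Monotone invariant functions do not see the set of the points
opposite to `y`.
-/

namespace Pool.Agent.R570.PS

open Finset
open scoped Pointwise

section Dual

variable {E : Type} [DecidableEq E]

theorem bnot_le {a b : Bool} (h : a ≤ b) : (!b) ≤ !a := by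
  revert h
  revert a b
  decide

/-- the dual function -/
def dual (f : (E → Bool) → Bool) : (E → Bool) → Bool := fun x => !(f (fun v => !(x v)))

theorem dual_mono {f : (E → Bool) → Bool} (hf : Monotone f) : Monotone (dual f) := by
  intro x y hxy
  have h1 : (fun v => !(y v)) ≤ (fun v => !(x v)) := by
    intro v
    have h := hxy v
    show (!(y v)) ≤ !(x v)
    exact bnot_le h
  have h2 := hf h1
  unfold dual
  exact bnot_le h2

theorem dual_depth {d : ℕ} {f : (E → Bool) → Bool} (h : DepthLe d f) : DepthLe d (dual f) := by
  intro P h0 h1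
  refine h (fun m g => P m (dual g)) ?_ ?_
  · intro m g hg
    exact h0 m _ fun x y => by
      unfold dual
      rw [hg (fun v => !(x v)) (fun v => !(y v))]
  · intro m g i ha hb
    have e1 : ∀ (x : E → Bool) (b : Bool), (fun v => !(Function.update x i b v)) =
        Function.update (fun v => !(x v)) i (!b) := by
      intro x b
      funext v
      by_cases hv : v = i
      · subst hv; simp
      · simp [hv]
    refine h1 m _ i ?_ ?_
    · have : (fun x => dual g (Function.update x i false)) =
          dual (fun x => g (Function.update x i true)) := by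
        funext x
        unfold dual
        rw [e1]
        rfl
      rw [this]
      exact hb
    · have : (fun x => dual g (Function.update x i true)) =
          dual (fun x => g (Function.update x i false)) := by
        funext x
        unfold dual
        rw [e1]
        rfl
      rw [this]
      exact ha

end Dual

section Abs

variable {X Pt G : Type} [Fintype X] [DecidableEq X] [Group G] [Finite G] [MulAction G X]
  [MulAction G Pt]

open Classical in
/-- the set over `C^⊥` -/
noncomputable def TT (π : X → Pt) (perp : Pt → Pt → Prop) (C : Finset Pt) : Finset X :=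
  univ.filter (fun x => ∀ c ∈ C, perp c (π x))

theorem mem_TT (π : X → Pt) (perp : Pt → Pt → Prop) (C : Finset Pt) (x : X) :
    x ∈ TT π perp C ↔ ∀ c ∈ C, perp c (π x) := by
  classical
  simp [TT]

theorem ind_smul {f : (X → Bool) → Bool}
    (hinv : ∀ (g : G) (x : X → Bool), f (fun v => x (g • v)) = f x) (g : G) (S : Finset X) :
    f (ind (g • S)) = f (ind S) := by
  rw [← hinv g⁻¹ (ind S)]
  congr 1
  funext v
  simp only [ind]
  refine decide_eq_decide.2 ?_
  exact (Finset.inv_smul_mem_iff).symm

theorem down (π : X → Pt) (hπ : ∀ (g : G) (x : X), π (g • x) = g • π x)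
    (perp : Pt → Pt → Prop) (hperp : ∀ (g : G) (x y : Pt), perp x y → perp (g • x) (g • y))
    (p : ℕ) [Fact p.Prime] (U : Pt → Subgroup G) (hU : ∀ y, IsPGroup p (U y))
    (hfix : ∀ y, ∀ u ∈ U y, u • y = y)
    (htr : ∀ y z z' : Pt, ¬ perp y z → ¬ perp y z' → ∃ u ∈ U y, u • z = z')
    (hline : ∀ y, ∀ u ∈ U y, ∀ z c : Pt, perp y z → perp y c → perp c z → perp c (u • z))
    (f : (X → Bool) → Bool) (hmono : Monotone f)
    (hinv : ∀ (g : G) (x : X → Bool), f (fun v => x (g • v)) = f x)
    {d : ℕ} (hd : DepthLe d f) (hbig : ∀ y : Pt, d < Nat.card {z : Pt // ¬ perp y z})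
    (htop : f (fun _ => true) = true) (C : Finset Pt)
    (hC : ∀ c ∈ C, ∀ c' ∈ C, perp c c') : f (ind (TT π perp C)) = true := by
  classical
  induction C using Finset.induction_on with
  | empty =>
    rw [← htop]
    congr 1
    funext x
    simp [ind, TT]
  | insert y C hy ih =>
    have ih' := ih (fun c hc c' hc' => hC c (Finset.mem_insert_of_mem hc) c'
      (Finset.mem_insert_of_mem hc'))
    set Y := TT π perp (insert y C) with hY
    set O : Finset X := univ.filter (fun x => ¬ perp y (π x)) with hO
    have hdisj : Disjoint Y O := by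
      rw [Finset.disjoint_left]
      intro x hx hx'
      rw [hY, mem_TT] at hx
      rw [hO, Finset.mem_filter] at hx'
      exact hx'.2 (hx y (Finset.mem_insert_self y C))
    have hsub : TT π perp C ⊆ Y ∪ O := by
      intro x hx
      rw [mem_TT] at hx
      rw [Finset.mem_union]
      by_cases h : perp y (π x)
      · left
        rw [hY, mem_TT]
        intro c hc
        rcases Finset.mem_insert.1 hc with rfl | hc
        · exact h
        · exact hx c hc
      · right
        rw [hO, Finset.mem_filter]
        exact ⟨Finset.mem_univ _, h⟩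
    have h1 : f (ind (Y ∪ O)) = true := by
      have h2 := hmono (ind_mono hsub)
      rw [ih'] at h2
      exact top_le_iff.1 h2
    have hInvY : Inv (U y) Y := by
      intro u x hx
      rw [hY, mem_TT] at hx ⊢
      have hu : u.1 • y = y := hfix y u.1 u.2
      have hpx : π (u • x) = u.1 • π x := hπ u.1 x
      have hyx := hx y (Finset.mem_insert_self y C)
      intro c hc
      rw [hpx]
      rcases Finset.mem_insert.1 hc with rfl | hc'
      · have := hperp u.1 _ _ hyx
        rwa [hu] at this
      · exact hline y u.1 u.2 (π x) c hyx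
          (hC y (Finset.mem_insert_self y C) c (Finset.mem_insert_of_mem hc')) (hx c hc)
    have hInvO : Inv (U y) O := by
      intro u x hx
      rw [hO, Finset.mem_filter] at hx ⊢
      refine ⟨Finset.mem_univ _, fun h => hx.2 ?_⟩
      have hpx : π (u • x) = u.1 • π x := hπ u.1 x
      rw [hpx] at h
      have h' := hperp u.1⁻¹ _ _ h
      rw [inv_smul_smul] at h'
      have hu : u.1⁻¹ • y = y := hfix y u.1⁻¹ ((U y).inv_mem u.2)
      rwa [hu] at h'
    have hcard : ∀ S, S ⊆ O → S.Nonempty → Inv (U y) S → d < S.card := by
      intro S hS hne hSi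
      obtain ⟨x0, hx0⟩ := hne
      refine (hbig y).trans_le ?_
      have hx0' := hS hx0
      rw [hO, Finset.mem_filter] at hx0'
      have hsurj : ∀ z : {z : Pt // ¬ perp y z}, ∃ s : S, π s.1 = z.1 := by
        intro z
        obtain ⟨u, hu, huz⟩ := htr y (π x0) z.1 hx0'.2 z.2
        exact ⟨⟨u • x0, hSi ⟨u, hu⟩ x0 hx0⟩, by rw [hπ]; exact huz⟩
      choose φ hφ using hsurj
      have hinj : Function.Injective φ := by
        intro a b hab
        apply Subtype.ext
        rw [← hφ a, ← hφ b, hab]
      have := Nat.card_le_card_of_injective φ hinj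
      simpa using this
    have h3 := rv' p (hU y) hd (P := U y) (fun g S => ind_smul hinv g.1 S) O.card Y O le_rfl
      hdisj hInvY hInvO hcard
    rw [← h3]
    exact h1

/-- **The abstract theorem.** -/
theorem abs_main (π : X → Pt) (hπ : ∀ (g : G) (x : X), π (g • x) = g • π x)
    (perp : Pt → Pt → Prop) (hperp : ∀ (g : G) (x y : Pt), perp x y → perp (g • x) (g • y))
    (p : ℕ) [Fact p.Prime] (U : Pt → Subgroup G) (hU : ∀ y, IsPGroup p (U y))
    (hfix : ∀ y, ∀ u ∈ U y, u • y = y)
    (htr : ∀ y z z' : Pt, ¬ perp y z → ¬ perp y z' → ∃ u ∈ U y, u • z = z')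
    (hline : ∀ y, ∀ u ∈ U y, ∀ z c : Pt, perp y z → perp y c → perp c z → perp c (u • z))
    (C C' : Finset Pt) (hC : ∀ c ∈ C, ∀ c' ∈ C, perp c c') (hC' : ∀ c ∈ C', ∀ c' ∈ C', perp c c')
    (hCC : ∀ z : Pt, (∀ c ∈ C, perp c z) → ¬ ∀ c ∈ C', perp c z)
    (f : (X → Bool) → Bool) (hmono : Monotone f) (hne : ∃ x y, f x ≠ f y)
    (hinv : ∀ (g : G) (x : X → Bool), f (fun v => x (g • v)) = f x)
    {d : ℕ} (hd : DepthLe d f) : ∃ y : Pt, Nat.card {z : Pt // ¬ perp y z} ≤ d := by
  classical
  by_contra hcon
  push Not at hcon
  have hbot : f (fun _ => false) = false := by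
    by_contra h
    have h0 : f (fun _ => false) = true := by simpa using h
    obtain ⟨x, y, hxy⟩ := hne
    have h2 : ∀ z, f z = true := by
      intro z
      have h3 : f (fun _ => false) ≤ f z := hmono (fun e => by simp)
      rw [h0] at h3
      exact top_le_iff.1 h3
    exact hxy ((h2 x).trans (h2 y).symm)
  have htop : f (fun _ => true) = true := by
    by_contra h
    have h0 : f (fun _ => true) = false := by simpa using h
    obtain ⟨x, y, hxy⟩ := hne
    have h2 : ∀ z, f z = false := by
      intro z
      have h3 : f z ≤ f (fun _ => true) := hmono (fun e => by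
        show z e ≤ true
        exact le_top)
      rw [h0] at h3
      exact le_bot_iff.1 h3
    exact hxy ((h2 x).trans (h2 y).symm)
  have h1 := down π hπ perp hperp p U hU hfix htr hline f hmono hinv hd hcon htop C hC
  have h2 := down π hπ perp hperp p U hU hfix htr hline (dual f) (dual_mono hmono) (by
    intro g x
    unfold dual
    rw [hinv g (fun v => !(x v))]) (dual_depth hd) hcon (by
      unfold dual
      simp only [Bool.not_true]
      rw [hbot]; rfl) C' hC'
  have h3 : ind (TT π perp C) ≤ fun v => !(ind (TT π perp C') v) := by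
    intro x
    by_cases hx : x ∈ TT π perp C
    · have hx' : x ∉ TT π perp C' := by
        rw [mem_TT] at hx ⊢
        exact hCC (π x) hx
      simp [ind, hx, hx']
    · simp [ind, hx]
  have h4 := hmono h3
  rw [h1] at h4
  unfold dual at h2
  have h5 : f (fun v => !(ind (TT π perp C') v)) = false := by simpa using h2
  rw [h5] at h4
  exact absurd h4 (by decide)

end Abs

end Pool.Agent.R570.PS
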