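import Mathlib
import Pool.Agent.R570.PS.Abs

set_option autoImplicit false

/-!
Linear algebra of polar spaces: a sesquilinear form `B` with a set `Sg` of singular vectors.
-/

namespace Pool.Agent.R570.PS

open Module

variable {F V : Type} [Field F] [AddCommGroup V] [Module F V]

/-- the data of a polar space -/
structure Pol (σ : F →+* F) (ε : F) (B : V →ₛₗ[σ] V →ₗ[F] F) (Sg : V → Prop)
    (G : Subgroup (V ≃ₗ[F] V)) : Prop where
  ss : ∀ a, σ (σ a) = a
  ee : ε * σ ε = 1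
  herm : ∀ v w, B w v = ε * σ (B v w)
  zero : Sg 0
  iso : ∀ v, Sg v → B v v = 0
  smul : ∀ (a : F) (v : V), Sg v → Sg (a • v)
  add : ∀ v w, Sg v → Sg w → B v w = 0 → Sg (v + w)
  ex : ∀ u v, Sg u → B u v = 1 → ∃ t : F, Sg (v + t • u)
  gB : ∀ g ∈ G, ∀ v w, B (g v) (g w) = B v w
  gS : ∀ g ∈ G, ∀ v, Sg v → Sg (g v)
  sieg : ∀ (g : V ≃ₗ[F] V) (u w w' : V), Sg u → Sg w → Sg w' → B u w = 1 → B u w' = 1 →
    (∀ v, g v = v + B u v • (w' - w) + (σ ε * (B w' w * B u v - B (w' - w) v)) • u) → g ∈ G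
  nd : ∀ u, u ≠ 0 → Sg u → ∃ v, B u v ≠ 0

/-- the singular points -/
def Pt (Sg : V → Prop) : Type := {x : Submodule F V // ∃ u, u ≠ 0 ∧ Sg u ∧ x = F ∙ u}

section

variable {σ : F →+* F} {ε : F} {B : V →ₛₗ[σ] V →ₗ[F] F} {Sg : V → Prop}
  {G : Subgroup (V ≃ₗ[F] V)}

/-- perpendicular points -/
def perp (B : V →ₛₗ[σ] V →ₗ[F] F) (x y : Pt (F := F) Sg) : Prop :=
  ∀ v ∈ x.1, ∀ w ∈ y.1, B v w = 0

theorem perp_span {x y : Pt (F := F) Sg} {u w : V} (hx : x.1 = F ∙ u) (hy : y.1 = F ∙ w) :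
    perp B x y ↔ B u w = 0 := by
  constructor
  · intro h
    exact h u (by rw [hx]; exact Submodule.mem_span_singleton_self u) w
      (by rw [hy]; exact Submodule.mem_span_singleton_self w)
  · intro h v hv t ht
    rw [hx, Submodule.mem_span_singleton] at hv
    rw [hy, Submodule.mem_span_singleton] at ht
    obtain ⟨a, rfl⟩ := hv
    obtain ⟨b, rfl⟩ := ht
    simp [h]

/-- the unipotent radical of the stabilizer of a point -/
def UU (hP : Pol σ ε B Sg G) (x : Pt (F := F) Sg) : Subgroup G where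
  carrier := {g | (∀ v ∈ x.1, g.1 v = v) ∧ (∀ v, (∀ s ∈ x.1, B s v = 0) → g.1 v - v ∈ x.1) ∧
    ∀ v, ∀ s ∈ x.1, B s (g.1 v - v) = 0}
  mul_mem' := by
    rintro a b ⟨a1, a2, a3⟩ ⟨b1, b2, b3⟩
    have hm : ∀ v, (a * b : G).1 v = a.1 (b.1 v) := fun v => rfl
    have hd : ∀ v, (a * b : G).1 v - v = (a.1 (b.1 v) - b.1 v) + (b.1 v - v) := fun v => by
      rw [hm]; abel
    refine ⟨fun v hv => by rw [hm, b1 v hv, a1 v hv], fun v hv => ?_, fun v s hs => ?_⟩
    · rw [hd]
      refine x.1.add_mem (a2 _ fun s hs => ?_) (b2 v hv)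
      have : b.1 v = v + (b.1 v - v) := by abel
      rw [this, map_add, hv s hs, b3 v s hs, add_zero]
    · rw [hd, map_add, a3 _ s hs, b3 v s hs, add_zero]
  one_mem' := by
    have hm : ∀ v, (1 : G).1 v = v := fun v => rfl
    refine ⟨fun v _ => hm v, fun v _ => ?_, fun v s _ => ?_⟩
    · rw [hm, sub_self]; exact x.1.zero_mem
    · rw [hm, sub_self, map_zero]
  inv_mem' := by
    rintro a ⟨a1, a2, a3⟩
    have hm : ∀ v, a.1 ((a⁻¹ : G).1 v) = v := fun v => by
      have : (a * a⁻¹ : G).1 v = v := by rw [mul_inv_cancel]; rfl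
      exact this
    have hd : ∀ v, (a⁻¹ : G).1 v - v = -(a.1 ((a⁻¹ : G).1 v) - (a⁻¹ : G).1 v) := fun v => by
      rw [hm]; abel
    refine ⟨fun v hv => ?_, fun v hv => ?_, fun v s hs => ?_⟩
    · apply a.1.injective
      rw [hm, a1 v hv]
    · rw [hd]
      refine x.1.neg_mem (a2 _ fun s hs => ?_)
      have h1 : (a⁻¹ : G).1 v = v - (a.1 ((a⁻¹ : G).1 v) - (a⁻¹ : G).1 v) := by
        rw [hm]; abel
      rw [h1, map_sub, hv s hs, a3 _ s hs, sub_zero]
    · rw [hd, map_neg, a3 _ s hs, neg_zero]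

theorem mem_UU (hP : Pol σ ε B Sg G) (x : Pt (F := F) Sg) (g : G) :
    g ∈ UU hP x ↔ (∀ v ∈ x.1, g.1 v = v) ∧
      (∀ v, (∀ s ∈ x.1, B s v = 0) → g.1 v - v ∈ x.1) ∧
      ∀ v, ∀ s ∈ x.1, B s (g.1 v - v) = 0 := Iff.rfl

theorem UU_pgroup (hP : Pol σ ε B Sg G) (p : ℕ) [Fact p.Prime] [CharP F p]
    (x : Pt (F := F) Sg) : IsPGroup p (UU hP x) := by
  rintro ⟨g, hg⟩
  rw [mem_UU] at hg
  obtain ⟨h1, h2, h3⟩ := hg
  refine ⟨2, ?_⟩
  -- `N v = g v - v`
  have hN3 : ∀ v, g.1 (g.1 (g.1 v - v) - (g.1 v - v)) = g.1 (g.1 v - v) - (g.1 v - v) :=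
    fun v => h1 _ (h2 _ (h3 v))
  have hpow : ∀ (n : ℕ) (v : V), (g ^ n : G).1 v =
      v + n • (g.1 v - v) + (n.choose 2) • (g.1 (g.1 v - v) - (g.1 v - v)) := by
    intro n v
    induction n with
    | zero =>
      simp
    | succ n ih =>
      have : (g ^ (n + 1) : G).1 v = g.1 ((g ^ n : G).1 v) := by
        rw [pow_succ']; rfl
      rw [this, ih, map_add, map_add, map_nsmul, map_nsmul, hN3 v]
      have hc : (n + 1).choose 2 = n + n.choose 2 := by
        rw [Nat.choose_succ_succ' n 1, Nat.choose_one_right]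
      rw [hc, add_smul, add_smul, one_smul]
      have e1 : g.1 v = v + (g.1 v - v) := by abel
      have e2 : g.1 (g.1 v - v) = (g.1 v - v) + (g.1 (g.1 v - v) - (g.1 v - v)) := by abel
      set N1 := g.1 v - v with hN1
      set N2 := g.1 N1 - N1 with hN2
      rw [e2, e1, smul_add]
      abel
  apply Subtype.ext
  apply Subtype.ext
  apply LinearEquiv.ext
  intro v
  have hp : p.Prime := Fact.out
  have hcast : ∀ (m : ℕ) (w : V), p ∣ m → m • w = 0 := by
    intro m w hm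
    rw [← Nat.cast_smul_eq_nsmul F, (CharP.cast_eq_zero_iff F p m).2 hm, zero_smul]
  have h4 := hpow (p ^ 2) v
  rw [hcast _ _ (dvd_pow_self p two_ne_zero), hcast _ _ (hp.dvd_choose_pow two_ne_zero (by
    intro h
    have h5 : p ∣ 2 := by rw [h]; exact dvd_pow_self p two_ne_zero
    have h6 := Nat.le_of_dvd two_pos h5
    have h7 := hp.two_le
    have h8 : p = 2 := le_antisymm h6 h7
    rw [h8] at h
    omega)), add_zero, add_zero] at h4
  exact h4

/-- the Siegel map -/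
def sg (σ : F →+* F) (ε : F) (B : V →ₛₗ[σ] V →ₗ[F] F) (u w w' : V) : V →ₗ[F] V :=
  LinearMap.id + (B u).smulRight (w' - w) +
    (σ ε • ((B w' w) • B u - B (w' - w))).smulRight u

theorem sg_apply (u w w' v : V) : sg σ ε B u w w' v =
    v + B u v • (w' - w) + (σ ε * (B w' w * B u v - B (w' - w) v)) • u := by
  simp [sg, smul_eq_mul]

theorem sg_sg (hP : Pol σ ε B Sg G) {u w w' : V} (hu : Sg u) (hw : Sg w) (hw' : Sg w')
    (h1 : B u w = 1) (h2 : B u w' = 1) (v : V) : sg σ ε B u w' w (sg σ ε B u w w' v) = v := by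
  have hbu : B u u = 0 := hP.iso u hu
  have hww : B w w = 0 := hP.iso w hw
  have hww' : B w' w' = 0 := hP.iso w' hw'
  have hwu : B w u = ε := by rw [hP.herm u w, h1, map_one, mul_one]
  have hwu' : B w' u = ε := by rw [hP.herm u w', h2, map_one, mul_one]
  rw [sg_apply, sg_apply]
  have e1 : B u (v + B u v • (w' - w) + (σ ε * (B w' w * B u v - B (w' - w) v)) • u) = B u v := by
    rw [map_add, map_add, map_smul, map_smul, map_sub, h1, h2, hbu]
    simp
  have e2 : B (w - w') (v + B u v • (w' - w) + (σ ε * (B w' w * B u v - B (w' - w) v)) • u) =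
      - B (w' - w) v + B u v * (B w w' + B w' w) := by
    have e3 : B (w - w') u = 0 := by
      rw [map_sub, LinearMap.sub_apply, hwu, hwu', sub_self]
    have e4 : B (w - w') v = - B (w' - w) v := by
      rw [map_sub, map_sub, LinearMap.sub_apply, LinearMap.sub_apply]; ring
    have e5 : B (w - w') (w' - w) = B w w' + B w' w := by
      rw [map_sub, map_sub, LinearMap.sub_apply, LinearMap.sub_apply, hww, hww']; ring
    rw [map_add, map_add, map_smul, map_smul, e3, e4, e5]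
    simp [smul_eq_mul]
  rw [e1, e2]
  have e6 : v + B u v • (w' - w) + (σ ε * (B w' w * B u v - B (w' - w) v)) • u +
      B u v • (w - w') + (σ ε * (B w w' * B u v - (-B (w' - w) v + B u v * (B w w' + B w' w)))) • u
      = v + (B u v • (w' - w) + B u v • (w - w')) +
      ((σ ε * (B w' w * B u v - B (w' - w) v)) +
      (σ ε * (B w w' * B u v - (-B (w' - w) v + B u v * (B w w' + B w' w))))) • u := by
    rw [add_smul]; abel
  rw [e6]
  have e7 : (σ ε * (B w' w * B u v - B (w' - w) v)) +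
      (σ ε * (B w w' * B u v - (-B (w' - w) v + B u v * (B w w' + B w' w)))) = 0 := by ring
  have e8 : B u v • (w' - w) + B u v • (w - w') = 0 := by
    rw [← smul_add]
    have : w' - w + (w - w') = 0 := by abel
    rw [this, smul_zero]
  rw [e7, e8, zero_smul, add_zero, add_zero]

theorem sg_w (hP : Pol σ ε B Sg G) {u w w' : V} (hw : Sg w) (h1 : B u w = 1) :
    sg σ ε B u w w' w = w' := by
  have hww : B w w = 0 := hP.iso w hw
  rw [sg_apply, h1, map_sub, LinearMap.sub_apply, hww]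
  simp

/-- the Siegel map as an equivalence -/
def sgE (hP : Pol σ ε B Sg G) {u w w' : V} (hu : Sg u) (hw : Sg w) (hw' : Sg w')
    (h1 : B u w = 1) (h2 : B u w' = 1) : V ≃ₗ[F] V :=
  LinearEquiv.ofLinear (sg σ ε B u w w') (sg σ ε B u w' w)
    (LinearMap.ext fun v => sg_sg hP hu hw' hw h2 h1 v)
    (LinearMap.ext fun v => sg_sg hP hu hw hw' h1 h2 v)

/-- a normalized vector of a point opposite to `u` -/
theorem exists_norm (hP : Pol σ ε B Sg G) {x z : Pt (F := F) Sg} {u : V} (hx : x.1 = F ∙ u)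
    (h : ¬ perp B x z) : ∃ w, Sg w ∧ B u w = 1 ∧ z.1 = F ∙ w := by
  obtain ⟨w, hw0, hw, hz⟩ := z.2
  rw [perp_span hx hz] at h
  refine ⟨(B u w)⁻¹ • w, hP.smul _ _ hw, ?_, ?_⟩
  · rw [map_smul, smul_eq_mul, inv_mul_cancel₀ h]
  · rw [hz]
    exact (Submodule.span_singleton_smul_eq (IsUnit.mk0 _ (inv_ne_zero h)) w).symm

theorem UU_trans (hP : Pol σ ε B Sg G) [MulAction G (Pt (F := F) Sg)]
    (hact : ∀ (g : G) (x : Pt (F := F) Sg), (g • x).1 = x.1.map (g.1 : V →ₗ[F] V))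
    (x z z' : Pt (F := F) Sg) (h : ¬ perp B x z) (h' : ¬ perp B x z') :
    ∃ g ∈ UU hP x, g • z = z' := by
  obtain ⟨u, hu0, hu, hx⟩ := x.2
  obtain ⟨w, hw, h1, hz⟩ := exists_norm hP hx h
  obtain ⟨w', hw', h2, hz'⟩ := exists_norm hP hx h'
  have hap : ∀ v, sgE hP hu hw hw' h1 h2 v = v + B u v • (w' - w) +
      (σ ε * (B w' w * B u v - B (w' - w) v)) • u := fun v => sg_apply u w w' v
  have hG : sgE hP hu hw hw' h1 h2 ∈ G :=
    hP.sieg _ u w w' hu hw hw' h1 h2 hap
  have hbu : B u u = 0 := hP.iso u hu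
  have hua : B u (w' - w) = 0 := by rw [map_sub, h1, h2, sub_self]
  have hau : B (w' - w) u = 0 := by rw [hP.herm u, hua, map_zero, mul_zero]
  refine ⟨⟨_, hG⟩, ?_, ?_⟩
  · rw [mem_UU]
    refine ⟨fun v hv => ?_, fun v hv => ?_, fun v s hs => ?_⟩
    · rw [hx, Submodule.mem_span_singleton] at hv
      obtain ⟨a, rfl⟩ := hv
      rw [hap, map_smul, map_smul, hbu, hau]
      simp
    · have h3 : B u v = 0 := hv u (by rw [hx]; exact Submodule.mem_span_singleton_self u)
      rw [hap, h3, hx]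
      have : v + (0 : F) • (w' - w) + (σ ε * (B w' w * 0 - B (w' - w) v)) • u - v =
          (σ ε * (B w' w * 0 - B (w' - w) v)) • u := by
        rw [zero_smul]; abel
      rw [this]
      exact Submodule.smul_mem _ _ (Submodule.mem_span_singleton_self u)
    · rw [hx, Submodule.mem_span_singleton] at hs
      obtain ⟨a, rfl⟩ := hs
      rw [hap]
      have : v + B u v • (w' - w) + (σ ε * (B w' w * B u v - B (w' - w) v)) • u - v =
          B u v • (w' - w) + (σ ε * (B w' w * B u v - B (w' - w) v)) • u := by abel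
      rw [this, LinearMap.map_smulₛₗ, LinearMap.smul_apply, map_add, map_smul, map_smul, hua, hbu]
      simp
  · apply Subtype.ext
    rw [hact, hz, hz', Submodule.map_span, Set.image_singleton]
    congr 2
    exact sg_w hP hw h1

theorem UU_fix (hP : Pol σ ε B Sg G) [MulAction G (Pt (F := F) Sg)]
    (hact : ∀ (g : G) (x : Pt (F := F) Sg), (g • x).1 = x.1.map (g.1 : V →ₗ[F] V))
    (x : Pt (F := F) Sg) (g : G) (hg : g ∈ UU hP x) : g • x = x := by
  obtain ⟨u, hu0, hu, hx⟩ := x.2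
  rw [mem_UU] at hg
  apply Subtype.ext
  rw [hact, hx, Submodule.map_span, Set.image_singleton]
  congr 2
  exact hg.1 u (by rw [hx]; exact Submodule.mem_span_singleton_self u)

theorem UU_line (hP : Pol σ ε B Sg G) [MulAction G (Pt (F := F) Sg)]
    (hact : ∀ (g : G) (x : Pt (F := F) Sg), (g • x).1 = x.1.map (g.1 : V →ₗ[F] V))
    (x : Pt (F := F) Sg) (g : G) (hg : g ∈ UU hP x) (z c : Pt (F := F) Sg)
    (h1 : perp B x z) (h2 : perp B x c) (h3 : perp B c z) : perp B c (g • z) := by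
  rw [mem_UU] at hg
  intro v hv w hw
  rw [hact] at hw
  obtain ⟨s, hs, rfl⟩ := hw
  have h4 : g.1 s - s ∈ x.1 := hg.2.1 s fun t ht => h1 t ht s hs
  have h5 : B v (g.1 s - s) = 0 := by
    rw [hP.herm (g.1 s - s) v, h2 _ h4 v hv, map_zero, mul_zero]
  have h6 : (g.1 : V →ₗ[F] V) s = s + (g.1 s - s) := by
    show g.1 s = _
    abel
  rw [h6, map_add, h3 v hv s hs, h5, add_zero]

theorem perp_smul (hP : Pol σ ε B Sg G) [MulAction G (Pt (F := F) Sg)]
    (hact : ∀ (g : G) (x : Pt (F := F) Sg), (g • x).1 = x.1.map (g.1 : V →ₗ[F] V))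
    (g : G) (x y : Pt (F := F) Sg) (h : perp B x y) : perp B (g • x) (g • y) := by
  intro v hv w hw
  rw [hact] at hv hw
  obtain ⟨s, hs, rfl⟩ := hv
  obtain ⟨t, ht, rfl⟩ := hw
  show B (g.1 s) (g.1 t) = 0
  rw [hP.gB g.1 g.2]
  exact h s hs t ht

end

end Pool.Agent.R570.PS
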