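import Mathlib
import Pool.Agent.R570.PS.Lin

set_option autoImplicit false

/-!
Disjoint maximal totally singular subspaces, counting of points, and the main theorem.
-/

namespace Pool.Agent.R570.PS

open Module

variable {F V : Type} [Field F] [AddCommGroup V] [Module F V]
variable {σ : F →+* F} {ε : F} {B : V →ₛₗ[σ] V →ₗ[F] F} {Sg : V → Prop}
  {G : Subgroup (V ≃ₗ[F] V)}

/-- totally singular -/
def TS (B : V →ₛₗ[σ] V →ₗ[F] F) (Sg : V → Prop) (M : Submodule F V) : Prop :=
  (∀ v ∈ M, Sg v) ∧ ∀ v ∈ M, ∀ w ∈ M, B v w = 0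

/-- totally singular and containing all singular vectors perpendicular to it -/
def PM (B : V →ₛₗ[σ] V →ₗ[F] F) (Sg : V → Prop) (M : Submodule F V) : Prop :=
  TS B Sg M ∧ ∀ v, Sg v → (∀ m ∈ M, B m v = 0) → v ∈ M

theorem ts_sup (hP : Pol σ ε B Sg G) {M : Submodule F V} (hM : TS B Sg M) {v : V} (hv : Sg v)
    (hMv : ∀ m ∈ M, B m v = 0) : TS B Sg (M ⊔ F ∙ v) := by
  have hvM : ∀ m ∈ M, B v m = 0 := fun m hm => by rw [hP.herm m v, hMv m hm, map_zero, mul_zero]
  constructor
  · intro x hx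
    obtain ⟨m, hm, y, hy, rfl⟩ := Submodule.mem_sup.1 hx
    obtain ⟨a, rfl⟩ := Submodule.mem_span_singleton.1 hy
    exact hP.add _ _ (hM.1 m hm) (hP.smul a v hv) (by rw [map_smul, hMv m hm, smul_zero])
  · intro x hx x' hx'
    obtain ⟨m, hm, y, hy, rfl⟩ := Submodule.mem_sup.1 hx
    obtain ⟨a, rfl⟩ := Submodule.mem_span_singleton.1 hy
    obtain ⟨m', hm', y', hy', rfl⟩ := Submodule.mem_sup.1 hx'
    obtain ⟨a', rfl⟩ := Submodule.mem_span_singleton.1 hy'
    have e : ∀ w, B (m + a • v) w = B m w + σ a * B v w := by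
      intro w
      rw [LinearMap.map_add B, LinearMap.add_apply, LinearMap.map_smulₛₗ, LinearMap.smul_apply,
        smul_eq_mul]
    rw [map_add, map_smul, e, e, hM.2 m hm m' hm', hMv m hm, hvM m' hm', hP.iso v hv]
    simp

theorem exists_pm [Finite V] (hP : Pol σ ε B Sg G) : ∃ M : Submodule F V, PM B Sg M := by
  classical
  have hfin : Finite (Submodule F V) := Finite.of_injective (fun W : Submodule F V => (W : Set V))
    SetLike.coe_injective
  have hb : TS B Sg (⊥ : Submodule F V) := by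
    constructor
    · intro v hv
      rw [Submodule.mem_bot] at hv
      rw [hv]
      exact hP.zero
    · intro v hv w hw
      rw [Submodule.mem_bot] at hv
      rw [hv, map_zero, LinearMap.zero_apply]
  obtain ⟨M, hM, hmax⟩ := (Set.toFinite {M : Submodule F V | TS B Sg M}).exists_maximal ⟨⊥, hb⟩
  refine ⟨M, hM, fun v hv hMv => ?_⟩
  have h1 := hmax (ts_sup hP hM hv hMv) le_sup_left
  exact h1 (Submodule.mem_sup_right (Submodule.mem_span_singleton_self v))

theorem exch (hP : Pol σ ε B Sg G) {M : Submodule F V} (hM : PM B Sg M) {x : V} (hx : Sg x) :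
    PM B Sg ((M ⊓ LinearMap.ker (B x)) ⊔ F ∙ x) := by
  have hTS : TS B Sg (M ⊓ LinearMap.ker (B x)) :=
    ⟨fun v hv => hM.1.1 v hv.1, fun v hv w hw => hM.1.2 v hv.1 w hw.1⟩
  refine ⟨ts_sup hP hTS hx (fun m hm => ?_), fun v hv hperp => ?_⟩
  · have : B x m = 0 := hm.2
    rw [hP.herm x m, this, map_zero, mul_zero]
  · have hxv : B x v = 0 := hperp x (Submodule.mem_sup_right (Submodule.mem_span_singleton_self x))
    have hvx : B v x = 0 := by rw [hP.herm x v, hxv, map_zero, mul_zero]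
    have hvm : ∀ m ∈ M, B x m = 0 → B v m = 0 := by
      intro m hm h0
      have : B m v = 0 := hperp m (Submodule.mem_sup_left ⟨hm, h0⟩)
      rw [hP.herm m v, this, map_zero, mul_zero]
    -- proportional functionals
    obtain ⟨c, hc⟩ : ∃ c : F, ∀ m ∈ M, B v m = c * B x m := by
      by_cases hall : ∀ m ∈ M, B x m = 0
      · exact ⟨0, fun m hm => by rw [hvm m hm (hall m hm), zero_mul]⟩
      · push Not at hall
        obtain ⟨m0, hm0, hne⟩ := hall
        refine ⟨B v m0 * (B x m0)⁻¹, fun m hm => ?_⟩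
        have h1 : B x (m - (B x m * (B x m0)⁻¹) • m0) = 0 := by
          rw [map_sub, map_smul, smul_eq_mul, mul_assoc, inv_mul_cancel₀ hne, mul_one, sub_self]
        have h2 := hvm _ (M.sub_mem hm (M.smul_mem _ hm0)) h1
        rw [map_sub, map_smul, smul_eq_mul, sub_eq_zero] at h2
        rw [h2]
        ring
    have hv1 : v - σ c • x ∈ M := by
      refine hM.2 _ ?_ ?_
      · have : v - σ c • x = v + (-σ c) • x := by rw [neg_smul, sub_eq_add_neg]
        rw [this]
        exact hP.add _ _ hv (hP.smul _ _ hx) (by rw [map_smul, hvx, smul_zero])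
      · intro m hm
        have h1 : B (v - σ c • x) m = 0 := by
          rw [map_sub, LinearMap.sub_apply, LinearMap.map_smulₛₗ, LinearMap.smul_apply, hP.ss,
            hc m hm, smul_eq_mul, sub_self]
        rw [hP.herm (v - σ c • x) m, h1, map_zero, mul_zero]
    have hv2 : B x (v - σ c • x) = 0 := by
      rw [map_sub, hxv, map_smul, hP.iso x hx, smul_zero, sub_zero]
    have : v = (v - σ c • x) + σ c • x := by abel
    rw [this]
    exact Submodule.add_mem_sup ⟨hv1, hv2⟩
      (Submodule.smul_mem _ _ (Submodule.mem_span_singleton_self x))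

theorem exists_opp (hP : Pol σ ε B Sg G) {z : V} (hz0 : z ≠ 0) (hz : Sg z) :
    ∃ x, Sg x ∧ B z x = 1 := by
  obtain ⟨v, hv⟩ := hP.nd z hz0 hz
  have h1 : B z ((B z v)⁻¹ • v) = 1 := by
    rw [map_smul, smul_eq_mul, inv_mul_cancel₀ hv]
  obtain ⟨t, ht⟩ := hP.ex z _ hz h1
  refine ⟨_, ht, ?_⟩
  rw [map_add, h1, map_smul, hP.iso z hz, smul_zero, add_zero]

theorem exists_disjoint [Finite V] (hP : Pol σ ε B Sg G) :
    ∃ M M' : Submodule F V, PM B Sg M ∧ PM B Sg M' ∧ M ⊓ M' = ⊥ := by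
  classical
  have hfin : Finite (Submodule F V) := Finite.of_injective (fun W : Submodule F V => (W : Set V))
    SetLike.coe_injective
  obtain ⟨M, hM⟩ := exists_pm hP
  obtain ⟨M', hM', hmin⟩ := Set.exists_min_image {M' : Submodule F V | PM B Sg M'}
    (fun M' => Nat.card (M ⊓ M' : Submodule F V)) (Set.toFinite _) ⟨M, hM⟩
  refine ⟨M, M', hM, hM', ?_⟩
  by_contra hne
  obtain ⟨z, hz, hz0⟩ := Submodule.exists_mem_ne_zero_of_ne_bot hne
  obtain ⟨x, hx, hzx⟩ := exists_opp hP hz0 (hM.1.1 z hz.1)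
  have h1 := hmin _ (exch hP hM' hx)
  have hsub : M ⊓ ((M' ⊓ LinearMap.ker (B x)) ⊔ F ∙ x) < M ⊓ M' := by
    refine lt_of_le_of_ne ?_ ?_
    · rintro w ⟨hw, hw'⟩
      obtain ⟨m, hm, y, hy, rfl⟩ := Submodule.mem_sup.1 hw'
      obtain ⟨a, rfl⟩ := Submodule.mem_span_singleton.1 hy
      have h2 : B z (m + a • x) = 0 := hM.1.2 z hz.1 _ hw
      rw [map_add, hM'.1.2 z hz.2 m hm.1, zero_add, map_smul, hzx, smul_eq_mul, mul_one] at h2
      rw [h2, zero_smul, add_zero] at hw ⊢
      exact ⟨hw, hm.1⟩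
    · intro heq
      have h2 : z ∈ M ⊓ ((M' ⊓ LinearMap.ker (B x)) ⊔ F ∙ x) := by rw [heq]; exact hz
      obtain ⟨m, hm, y, hy, hmy⟩ := Submodule.mem_sup.1 h2.2
      obtain ⟨a, rfl⟩ := Submodule.mem_span_singleton.1 hy
      have h3 : B x z = 0 := by
        have hm2 : B x m = 0 := hm.2
        rw [← hmy, map_add, hm2, map_smul, hP.iso x hx, smul_zero, add_zero]
      have h4 : B z x = 0 := by rw [hP.herm x z, h3, map_zero, mul_zero]
      rw [h4] at hzx
      exact zero_ne_one hzx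
  have h3 : Nat.card (M ⊓ ((M' ⊓ LinearMap.ker (B x)) ⊔ F ∙ x) : Submodule F V) <
      Nat.card (M ⊓ M' : Submodule F V) := by
    have h4 : ((M ⊓ ((M' ⊓ LinearMap.ker (B x)) ⊔ F ∙ x) : Submodule F V) : Set V) ⊂
        ((M ⊓ M' : Submodule F V) : Set V) := hsub
    have h5 := Set.ncard_lt_ncard h4 (Set.toFinite _)
    exact h5
  exact absurd h1 (not_le.2 h3)

instance [Finite V] : Finite (Pt (F := F) Sg) := by
  have hfin : Finite (Submodule F V) := Finite.of_injective (fun W : Submodule F V => (W : Set V))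
    SetLike.coe_injective
  unfold Pt
  infer_instance

theorem main [Finite F] [Finite V] (hP : Pol σ ε B Sg G) [MulAction G (Pt (F := F) Sg)]
    (hact : ∀ (g : G) (x : Pt (F := F) Sg), (g • x).1 = x.1.map (g.1 : V →ₗ[F] V))
    {X : Type} [Finite X] [DecidableEq X] [MulAction G X]
    (π : X → Pt (F := F) Sg) (hπ : ∀ (g : G) (x : X), π (g • x) = g • π x)
    (f : (X → Bool) → Bool) (hmono : Monotone f) (hne : ∃ x y, f x ≠ f y)
    (hinv : ∀ (g : G) (x : X → Bool), f (fun v => x (g • v)) = f x)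
    {d : ℕ} (hd : DepthLe d f) :
    ∃ y : Pt (F := F) Sg, Nat.card {z : Pt (F := F) Sg // ¬ perp B y z} ≤ d := by
  classical
  have : Fintype X := Fintype.ofFinite X
  have : Fintype (Pt (F := F) Sg) := Fintype.ofFinite _
  have : Finite (V ≃ₗ[F] V) := Finite.of_injective (fun g : V ≃ₗ[F] V => (g : V → V))
    DFunLike.coe_injective
  obtain ⟨p, hp⟩ := CharP.exists F
  have hpp : p.Prime := by
    rcases CharP.char_is_prime_or_zero F p with h | h
    · exact h
    · subst h
      have := CharP.charP_to_charZero F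
      exact absurd (inferInstance : Finite F) (not_finite_iff_infinite.2 (CharZero.infinite F)) 
  have : Fact p.Prime := ⟨hpp⟩
  obtain ⟨M, M', hM, hM', hMM⟩ := exists_disjoint hP
  have key : ∀ (N : Submodule F V), PM B Sg N → ∀ z : Pt (F := F) Sg,
      (∀ c ∈ Finset.univ.filter (fun c : Pt (F := F) Sg => c.1 ≤ N), perp B c z) → z.1 ≤ N := by
    intro N hN z hz
    obtain ⟨w, hw0, hw, hzw⟩ := z.2
    rw [hzw, Submodule.span_singleton_le_iff_mem]
    refine hN.2 w hw fun m hm => ?_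
    by_cases hm0 : m = 0
    · rw [hm0, map_zero, LinearMap.zero_apply]
    · have h1 := hz ⟨F ∙ m, m, hm0, hN.1.1 m hm, rfl⟩ (by
        rw [Finset.mem_filter]
        exact ⟨Finset.mem_univ _, (Submodule.span_singleton_le_iff_mem _ _).2 hm⟩)
      exact h1 m (Submodule.mem_span_singleton_self m) w
        (by rw [hzw]; exact Submodule.mem_span_singleton_self w)
  have cl : ∀ (N : Submodule F V), PM B Sg N →
      ∀ c ∈ Finset.univ.filter (fun c : Pt (F := F) Sg => c.1 ≤ N),
      ∀ c' ∈ Finset.univ.filter (fun c : Pt (F := F) Sg => c.1 ≤ N), perp B c c' := by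
    intro N hN c hc c' hc'
    rw [Finset.mem_filter] at hc hc'
    intro v hv w hw
    exact hN.1.2 v (hc.2 hv) w (hc'.2 hw)
  refine abs_main (G := G) π hπ (perp B) (fun g x y h => perp_smul hP hact g x y h) p
    (fun y => UU hP y) (fun y => UU_pgroup hP p y) (fun y u hu => UU_fix hP hact y u hu)
    (fun y z z' h h' => UU_trans hP hact y z z' h h')
    (fun y u hu z c h1 h2 h3 => UU_line hP hact y u hu z c h1 h2 h3)
    (Finset.univ.filter (fun c : Pt (F := F) Sg => c.1 ≤ M))
    (Finset.univ.filter (fun c : Pt (F := F) Sg => c.1 ≤ M'))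
    (cl M hM) (cl M' hM') ?_ f hmono hne hinv hd
  intro z hz hz'
  have h1 := key M hM z hz
  have h2 := key M' hM' z hz'
  obtain ⟨w, hw0, hw, hzw⟩ := z.2
  have h3 : w ∈ M ⊓ M' := by
    rw [hzw, Submodule.span_singleton_le_iff_mem] at h1 h2
    exact ⟨h1, h2⟩
  rw [hMM, Submodule.mem_bot] at h3
  exact hw0 h3

end Pool.Agent.R570.PS
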