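import Mathlib
import Pool.Agent.R570.PS.Max

set_option autoImplicit false

/-!
Counting singular points.
-/

namespace Pool.Agent.R570.PS

open Module

variable {F V : Type} [Field F] [AddCommGroup V] [Module F V]
variable {σ : F →+* F} {ε : F} {B : V →ₛₗ[σ] V →ₗ[F] F} {Sg : V → Prop}
  {G : Subgroup (V ≃ₗ[F] V)}

/-- the affine hyperplane `B u v = 1` has as many elements as the kernel -/
theorem card_one (u v0 : V) (h : B u v0 = 1) :
    Nat.card {v : V // B u v = 1} = Nat.card (LinearMap.ker (B u)) :=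
  Nat.card_congr
    { toFun := fun v => ⟨v.1 - v0, by
        rw [LinearMap.mem_ker, map_sub, v.2, h, sub_self]⟩
      invFun := fun k => ⟨k.1 + v0, by
        rw [map_add, LinearMap.mem_ker.1 k.2, h, zero_add]⟩
      left_inv := fun v => Subtype.ext (by simp)
      right_inv := fun k => Subtype.ext (by simp) }

theorem card_ker [Finite F] [Finite V] (u v0 : V) (h : B u v0 = 1) :
    Nat.card (LinearMap.ker (B u)) = Nat.card F ^ (finrank F V - 1) := by
  rw [Module.natCard_eq_pow_finrank (K := F) (V := LinearMap.ker (B u))]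
  congr 1
  have h1 := LinearMap.finrank_range_add_finrank_ker (B u)
  have h2 : LinearMap.range (B u) = ⊤ := by
    rw [LinearMap.range_eq_top]
    intro a
    exact ⟨a • v0, by rw [map_smul, h, smul_eq_mul, mul_one]⟩
  rw [h2, finrank_top, finrank_self] at h1
  omega

theorem norm_unique {u w w' : V} (h1 : B u w = 1) (h2 : B u w' = 1)
    (h : (F ∙ w : Submodule F V) = F ∙ w') : w = w' := by
  have h3 : w ∈ (F ∙ w' : Submodule F V) := by
    rw [← h]; exact Submodule.mem_span_singleton_self w
  obtain ⟨a, rfl⟩ := Submodule.mem_span_singleton.1 h3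
  rw [map_smul, h2, smul_eq_mul, mul_one] at h1
  rw [h1, one_smul]

theorem count [Finite F] [Finite V] (hP : Pol σ ε B Sg G) (x : Pt (F := F) Sg) :
    (Nat.card F - 1) * Nat.card (Pt (F := F) Sg) ≤
      (2 * Nat.card F - 1) * Nat.card {z : Pt (F := F) Sg // ¬ perp B x z} ∧
    Nat.card F ^ (finrank F V - 1) ≤
      Nat.card F * Nat.card {z : Pt (F := F) Sg // ¬ perp B x z} ∧
    ((∀ v, Sg v) → Nat.card F ^ (finrank F V - 1) ≤
      Nat.card {z : Pt (F := F) Sg // ¬ perp B x z}) := by
  classical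
  obtain ⟨u, hu0, hu, hx⟩ := x.2
  obtain ⟨v0, hv0, huv⟩ := exists_opp hP hu0 hu
  have hK := card_ker (F := F) u v0 huv
  set K := Nat.card (LinearMap.ker (B u)) with hKd
  set N := Nat.card {z : Pt (F := F) Sg // ¬ perp B x z} with hN
  have hq : 2 ≤ Nat.card F := Finite.one_lt_card
  have hmk : ∀ w : V, Sg w → B u w = 1 → ∃ z : {z : Pt (F := F) Sg // ¬ perp B x z},
      z.1.1 = F ∙ w := by
    intro w hw h1
    have hw0 : w ≠ 0 := by
      rintro rfl
      rw [map_zero] at h1
      exact zero_ne_one h1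
    refine ⟨⟨⟨F ∙ w, w, hw0, hw, rfl⟩, ?_⟩, rfl⟩
    rw [perp_span hx rfl, h1]
    exact one_ne_zero
  -- (A)
  have hA : K ≤ N * Nat.card F := by
    rw [hKd, ← card_one u v0 huv, hN, ← Nat.card_prod]
    have h1 : ∀ v : {v : V // B u v = 1}, ∃ (t : F) (z : {z : Pt (F := F) Sg // ¬ perp B x z}),
        B u (v.1 + t • u) = 1 ∧ z.1.1 = F ∙ (v.1 + t • u) := by
      intro v
      obtain ⟨t, ht⟩ := hP.ex u v.1 hu v.2
      have h2 : B u (v.1 + t • u) = 1 := by
        rw [map_add, v.2, map_smul, hP.iso u hu, smul_zero, add_zero]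
      obtain ⟨z, hz⟩ := hmk _ ht h2
      exact ⟨t, z, h2, hz⟩
    choose t z h2 h3 using h1
    refine Nat.card_le_card_of_injective (fun v => (z v, t v)) ?_
    intro v v' hvv
    simp only [Prod.mk.injEq] at hvv
    have h4 : (F ∙ (v.1 + t v • u) : Submodule F V) = F ∙ (v'.1 + t v' • u) := by
      rw [← h3, ← h3, hvv.1]
    have h5 := norm_unique (h2 v) (h2 v') h4
    rw [hvv.2] at h5
    exact Subtype.ext (add_right_cancel h5)
  -- (A') all vectors singular
  have hA' : (∀ v, Sg v) → K ≤ N := by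
    intro hall
    rw [hKd, ← card_one u v0 huv, hN]
    have h1 : ∀ v : {v : V // B u v = 1}, ∃ (z : {z : Pt (F := F) Sg // ¬ perp B x z}),
        z.1.1 = F ∙ v.1 := fun v => hmk v.1 (hall v.1) v.2
    choose z h3 using h1
    refine Nat.card_le_card_of_injective z ?_
    intro v v' hvv
    have h4 : (F ∙ v.1 : Submodule F V) = F ∙ v'.1 := by
      rw [← h3, ← h3, hvv]
    exact Subtype.ext (norm_unique v.2 v'.2 h4)
  -- (B)
  set N' := Nat.card {z : Pt (F := F) Sg // perp B x z} with hN'
  have hB : N' * (Nat.card F - 1) + 1 ≤ K := by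
    have e1 : Nat.card (Option ({z : Pt (F := F) Sg // perp B x z} × Fˣ)) =
        N' * (Nat.card F - 1) + 1 := by
      rw [Finite.card_option, Nat.card_prod, Nat.card_units]
    rw [← e1, hKd]
    have hrep : ∀ z : Pt (F := F) Sg, ∃ w : V, w ≠ 0 ∧ z.1 = F ∙ w := fun z => by
      obtain ⟨w, hw0, _, hw⟩ := z.2
      exact ⟨w, hw0, hw⟩
    choose r hr0 hr using hrep
    refine Nat.card_le_card_of_injective (fun o => Option.elim o (0 : LinearMap.ker (B u))
      (fun za => ⟨(za.2 : F) • r za.1.1, by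
        have h1 : B u (r za.1.1) = 0 := (perp_span hx (hr za.1.1)).1 za.1.2
        rw [LinearMap.mem_ker, map_smul, h1, smul_zero]⟩)) ?_
    rintro (_ | ⟨z, a⟩) (_ | ⟨z', a'⟩) h
    · rfl
    · exfalso
      have h1 := congrArg Subtype.val h
      simp only [Option.elim] at h1
      have h2 : ((a' : F) • r z'.1) = 0 := h1.symm
      rcases smul_eq_zero.1 h2 with h3 | h3
      · exact a'.ne_zero h3
      · exact hr0 _ h3
    · exfalso
      have h1 := congrArg Subtype.val h
      simp only [Option.elim] at h1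
      have h2 : ((a : F) • r z.1) = 0 := h1
      rcases smul_eq_zero.1 h2 with h3 | h3
      · exact a.ne_zero h3
      · exact hr0 _ h3
    · have h1 := congrArg Subtype.val h
      simp only [Option.elim] at h1
      have h2 : z = z' := by
        apply Subtype.ext
        apply Subtype.ext
        rw [hr z.1, hr z'.1, ← Submodule.span_singleton_smul_eq (IsUnit.mk0 _ a.ne_zero) (r z.1),
          ← Submodule.span_singleton_smul_eq (IsUnit.mk0 _ a'.ne_zero) (r z'.1)]
        show (F ∙ ((a : F) • r z.1) : Submodule F V) = F ∙ ((a' : F) • r z'.1)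
        rw [h1]
      subst h2
      have h3 : ((a : F) - (a' : F)) • r z.1 = 0 := by
        rw [sub_smul, h1, sub_self]
      rcases smul_eq_zero.1 h3 with h4 | h4
      · have h5 : a = a' := Units.ext (sub_eq_zero.1 h4)
        rw [h5]
      · exact absurd h4 (hr0 _)
  -- (C)
  have hC : Nat.card (Pt (F := F) Sg) = N + N' := by
    have h1 := Nat.card_congr (Equiv.sumCompl (fun z : Pt (F := F) Sg => perp B x z))
    rw [Nat.card_sum] at h1
    rw [← h1, add_comm]
  refine ⟨?_, ?_, ?_⟩
  · rw [hC]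
    obtain ⟨k, hk⟩ : ∃ k, Nat.card F = k + 1 := ⟨Nat.card F - 1, by omega⟩
    rw [hk] at hA hB ⊢
    have e1 : k + 1 - 1 = k := by omega
    have e2 : 2 * (k + 1) - 1 = 2 * k + 1 := by omega
    rw [e1] at hB ⊢
    rw [e2]
    nlinarith
  · rw [← hK, mul_comm]
    exact hA
  · intro hall
    rw [← hK]
    exact hA' hall

end Pool.Agent.R570.PS
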