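import Mathlib
import Pool.Agent.R570.PS.Cnt

set_option autoImplicit false

/-!
Instances: trace-valued `(σ, ε)`-hermitian forms and quadratic forms.
-/

namespace Pool.Agent.R570.PS

open Module

variable {F V : Type} [Field F] [AddCommGroup V] [Module F V]

/-- the action on singular points -/
def actPt {σ : F →+* F} {ε : F} {B : V →ₛₗ[σ] V →ₗ[F] F} {Sg : V → Prop}
    {G : Subgroup (V ≃ₗ[F] V)} (hP : Pol σ ε B Sg G) : MulAction G (Pt (F := F) Sg) where
  smul g x := ⟨x.1.map (g.1 : V →ₗ[F] V), by
    obtain ⟨u, hu0, hu, hx⟩ := x.2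
    refine ⟨g.1 u, fun h => hu0 ?_, hP.gS g.1 g.2 u hu, ?_⟩
    · rwa [LinearEquiv.map_eq_zero_iff] at h
    · rw [hx, Submodule.map_span, Set.image_singleton]
      rfl⟩
  one_smul x := by
    apply Subtype.ext
    exact Submodule.map_id x.1
  mul_smul g h x := by
    apply Subtype.ext
    exact Submodule.map_comp (h.1 : V →ₗ[F] V) (g.1 : V →ₗ[F] V) x.1

theorem final {σ : F →+* F} {ε : F} {B : V →ₛₗ[σ] V →ₗ[F] F} {Sg : V → Prop}
    {G : Subgroup (V ≃ₗ[F] V)} [Finite F] [FiniteDimensional F V] (hP : Pol σ ε B Sg G)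
    {X : Type} [Finite X] [DecidableEq X] [MulAction G X]
    (π : X → Pt (F := F) Sg)
    (hπ : ∀ (g : G) (x : X), (π (g • x)).1 = (π x).1.map (g.1 : V →ₗ[F] V))
    (f : (X → Bool) → Bool) (hmono : Monotone f) (hne : ∃ x y, f x ≠ f y)
    (hinv : ∀ (g : G) (x : X → Bool), f (fun v => x (g • v)) = f x)
    {d : ℕ} (hd : DepthLe d f) :
    (Nat.card F - 1) * Nat.card (Pt (F := F) Sg) ≤ (2 * Nat.card F - 1) * d ∧
    Nat.card F ^ (finrank F V - 1) ≤ Nat.card F * d ∧
    ((∀ v, Sg v) → Nat.card F ^ (finrank F V - 1) ≤ d) := by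
  have hV : Finite V := Module.finite_of_finite F
  let _ : MulAction G (Pt (F := F) Sg) := actPt hP
  obtain ⟨y, hy⟩ := main hP (fun g x => rfl) π (fun g x => Subtype.ext (hπ g x)) f hmono hne
    hinv hd
  obtain ⟨h1, h2, h3⟩ := count hP y
  exact ⟨h1.trans (Nat.mul_le_mul_left _ hy), h2.trans (Nat.mul_le_mul_left _ hy),
    fun h => (h3 h).trans hy⟩

theorem pol_herm (σ : F →+* F) (ε : F) (B : V →ₛₗ[σ] V →ₗ[F] F) (G : Subgroup (V ≃ₗ[F] V))
    (hG : ∀ g, g ∈ G ↔ ∀ v w, B (g v) (g w) = B v w) (ss : ∀ a, σ (σ a) = a)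
    (ee : ε * σ ε = 1) (herm : ∀ v w, B w v = ε * σ (B v w))
    (htr : ∀ v, ∃ t, B v v = t + ε * σ t)
    (hnd : ∀ u, u ≠ 0 → B u u = 0 → ∃ v, B u v ≠ 0) : Pol σ ε B (fun v => B v v = 0) G where
  ss := ss
  ee := ee
  herm := herm
  zero := by simp
  iso := fun v h => h
  smul := fun a v h => by
    show B (a • v) (a • v) = 0
    have e : ∀ t, B (a • v) t = σ a * B v t := fun t => by
      rw [LinearMap.map_smulₛₗ, LinearMap.smul_apply, smul_eq_mul]
    rw [e, map_smul, h, smul_zero, mul_zero]
  add := fun v w hv hw h => by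
    show B (v + w) (v + w) = 0
    have h' : B w v = 0 := by rw [herm v w, h, map_zero, mul_zero]
    rw [LinearMap.map_add B, LinearMap.add_apply, map_add, map_add, hv, hw, h, h']
    simp
  ex := fun u v hu h => by
    obtain ⟨s, hs⟩ := htr v
    refine ⟨-σ s, ?_⟩
    have h' : B v u = ε := by rw [herm u v, h, map_one, mul_one]
    show B (v + (-σ s) • u) (v + (-σ s) • u) = 0
    have hu' : B u u = 0 := hu
    have e : ∀ t, B (v + (-σ s) • u) t = B v t + σ (-σ s) * B u t := fun t => by
      rw [LinearMap.map_add B, LinearMap.add_apply, LinearMap.map_smulₛₗ, LinearMap.smul_apply,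
        smul_eq_mul]
    rw [e, map_add, map_add, map_smul, map_smul, hs, h, h', hu', map_neg, ss]
    simp only [smul_eq_mul]
    ring
  gB := fun g hg => (hG g).1 hg
  gS := fun g hg v h => by
    show B (g v) (g v) = 0
    rw [(hG g).1 hg, h]
  sieg := fun g u w w' hu hw hw' h1 h2 hg => by
    rw [hG]
    intro v v'
    have hu' : B u u = 0 := hu
    have hw0 : B w w = 0 := hw
    have hw0' : B w' w' = 0 := hw'
    have a1 : B u (w' - w) = 0 := by rw [map_sub, h1, h2, sub_self]
    have a2 : B (w' - w) u = 0 := by rw [herm u, a1, map_zero, mul_zero]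
    have a3 : B (w' - w) (w' - w) = - B w' w - ε * σ (B w' w) := by
      rw [LinearMap.map_sub B, LinearMap.sub_apply, map_sub, map_sub, hw0, hw0', herm w' w]
      ring
    have a4 : B v u = ε * σ (B u v) := herm u v
    have a5 : B v (w' - w) = ε * σ (B (w' - w) v) := herm (w' - w) v
    rw [hg v, hg v']
    have e : ∀ (a b : F) (x y z t : V), B (x + a • y + b • z) t =
        B x t + σ a * B y t + σ b * B z t := by
      intro a b x y z t
      rw [LinearMap.map_add B, LinearMap.map_add B, LinearMap.add_apply, LinearMap.add_apply,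
        LinearMap.map_smulₛₗ, LinearMap.map_smulₛₗ, LinearMap.smul_apply, LinearMap.smul_apply,
        smul_eq_mul, smul_eq_mul]
    have e' : ∀ (a b : F) (x y z t : V), B t (x + a • y + b • z) =
        B t x + a * B t y + b * B t z := by
      intro a b x y z t
      rw [map_add, map_add, map_smul, map_smul, smul_eq_mul, smul_eq_mul]
    rw [e, e', e', e', a1, a2, a3, a4, a5, hu']
    generalize B (w' - w) v = α
    generalize B (w' - w) v' = α'
    generalize B u v = b
    generalize B u v' = b'
    generalize B w' w = κ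
    simp only [map_mul, map_sub, ss]
    linear_combination (κ * b' - α') * σ b * ee
  nd := fun u h0 h => hnd u h0 h

theorem pol_quad (Q : QuadraticForm F V) (G : Subgroup (V ≃ₗ[F] V))
    (hG : ∀ g, g ∈ G ↔ ∀ v, Q (g v) = Q v)
    (hnd : ∀ u, u ≠ 0 → Q u = 0 → ∃ v, QuadraticMap.polar Q u v ≠ 0) :
    Pol (RingHom.id F) 1 Q.polarBilin (fun v => Q v = 0) G :=
  have qa : ∀ x y, Q (x + y) = Q x + Q y + QuadraticMap.polar Q x y :=
    fun x y => QuadraticMap.map_add Q x y
  {
  ss := fun a => rfl
  ee := by simp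
  herm := fun v w => by
    rw [QuadraticMap.polarBilin_apply_apply, QuadraticMap.polarBilin_apply_apply,
      QuadraticMap.polar_comm]
    simp
  zero := QuadraticMap.map_zero Q
  iso := fun v h => by
    rw [QuadraticMap.polarBilin_apply_apply, QuadraticMap.polar_self, h, smul_zero]
  smul := fun a v h => by
    show Q (a • v) = 0
    rw [QuadraticMap.map_smul, h, smul_zero]
  add := fun v w hv hw h => by
    rw [QuadraticMap.polarBilin_apply_apply] at h
    show Q (v + w) = 0
    rw [qa, hv, hw, h]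
    simp
  ex := fun u v hu h => by
    rw [QuadraticMap.polarBilin_apply_apply] at h
    refine ⟨-Q v, ?_⟩
    show Q (v + (-Q v) • u) = 0
    rw [qa, QuadraticMap.map_smul, hu, QuadraticMap.polar_smul_right,
      QuadraticMap.polar_comm, h]
    simp
  gB := fun g hg v w => by
    rw [hG] at hg
    rw [QuadraticMap.polarBilin_apply_apply, QuadraticMap.polarBilin_apply_apply]
    unfold QuadraticMap.polar
    rw [← map_add, hg, hg, hg]
  gS := fun g hg v h => by
    show Q (g v) = 0
    rw [(hG g).1 hg, h]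
  sieg := fun g u w w' hu hw hw' h1 h2 hg => by
    rw [hG]
    intro v
    simp only [QuadraticMap.polarBilin_apply_apply] at h1 h2 hg
    have hu' : Q u = 0 := hu
    have hw0 : Q w = 0 := hw
    have hw0' : Q w' = 0 := hw'
    have a1 : QuadraticMap.polar Q u (w' - w) = 0 := by
      rw [QuadraticMap.polar_sub_right, h1, h2, sub_self]
    have a2 : Q (w' - w) = - QuadraticMap.polar Q w' w := by
      have : w' - w = w' + (-1 : F) • w := by rw [neg_smul, one_smul, sub_eq_add_neg]
      rw [this, qa, QuadraticMap.map_smul, hw0, hw0',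
        QuadraticMap.polar_smul_right]
      simp
    have a3 : QuadraticMap.polar Q v (w' - w) = QuadraticMap.polar Q (w' - w) v :=
      QuadraticMap.polar_comm _ _ _
    have a4 : QuadraticMap.polar Q v u = QuadraticMap.polar Q u v :=
      QuadraticMap.polar_comm _ _ _
    have a5 : QuadraticMap.polar Q (w' - w) u = 0 := by
      rw [QuadraticMap.polar_comm, a1]
    rw [hg v, qa, qa, QuadraticMap.map_smul,
      QuadraticMap.map_smul, hu', a2, QuadraticMap.polar_smul_right,
      QuadraticMap.polar_smul_right, QuadraticMap.polar_add_left, QuadraticMap.polar_smul_left,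
      a3, a4, a5]
    simp only [smul_eq_mul, map_one, one_mul, mul_zero, add_zero]
    ring
  nd := fun u h0 h => by
    obtain ⟨v, hv⟩ := hnd u h0 h
    exact ⟨v, by rwa [QuadraticMap.polarBilin_apply_apply]⟩
  }

end Pool.Agent.R570.PS
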