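import Mathlib
import Pool.Agent.R570.PS.Abs

set_option autoImplicit false

/-!
Vanishing modulo `p` of the alternating sums of a function over large subcubes, and its transfer to
the orbit space of a `p`-group.
-/

namespace Pool.Agent.R570.PS

open Finset
open scoped Pointwise

/-- the alternating sums over the subcubes of weight at least `θ` vanish modulo `p` -/
def Van {Y : Type} [DecidableEq Y] (p : ℕ) (ω : Y → ℕ) (θ : ℕ) (g : Finset Y → Bool) : Prop :=
  ∀ A C : Finset Y, Disjoint A C → θ ≤ ∑ y ∈ C, ω y →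
    ∑ S ∈ C.powerset, (-1 : ZMod p) ^ S.card * (if g (A ∪ S) = true then 1 else 0) = 0

theorem van_of_depth {Y : Type} [DecidableEq Y] (p : ℕ) {d θ : ℕ} {f : (Y → Bool) → Bool}
    (h : DepthLe d f) (hd : d < θ) : Van p (fun _ => 1) θ (fun S => f (ind S)) := by
  intro A C hAC hC
  simp only [Finset.sum_const, smul_eq_mul, mul_one] at hC
  have h1 := alt_zero h C (by omega) (ind A)
  have h2 : ∑ S ∈ C.powerset, (-1 : ℤ) ^ S.card * (if f (ind (A ∪ S)) = true then 1 else 0) = 0 := by
    refine (Finset.sum_congr rfl fun S hS => ?_).trans h1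
    rw [Finset.mem_powerset] at hS
    rw [mix_ind C A S hS hAC]
  have h3 := congrArg (fun z : ℤ => (z : ZMod p)) h2
  push_cast at h3
  exact h3

section Sum

variable {Y : Type} [DecidableEq Y] [Fintype Y] {P : Type} [Group P] [Finite P] [MulAction P Y]

theorem sum_eq_sub (p : ℕ) (D : Finset (Finset Y)) (φ : Finset Y → Bool) :
    ∑ S ∈ D, (-1 : ZMod p) ^ S.card * (if φ S = true then 1 else 0) =
      ((D.filter (fun S => φ S = true ∧ Even S.card)).card : ZMod p) -
      ((D.filter (fun S => φ S = true ∧ ¬ Even S.card)).card : ZMod p) := by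
  rw [Finset.card_filter, Finset.card_filter]
  push_cast
  rw [← Finset.sum_sub_distrib]
  refine Finset.sum_congr rfl fun S hS => ?_
  by_cases h1 : φ S = true
  · by_cases h2 : Even S.card
    · simp [h1, h2]
    · have h3 : Odd S.card := Nat.not_even_iff_odd.1 h2
      simp [h1, h2, h3.neg_one_pow]
  · simp [h1]

open Classical in
theorem sum_inv (p : ℕ) [Fact p.Prime] (hP : IsPGroup p P) (C : Finset Y) (hC : Inv P C)
    (φ : Finset Y → Bool) (hφ : ∀ (a : P) (S : Finset Y), φ (a • S) = φ S) :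
    ∑ S ∈ C.powerset, (-1 : ZMod p) ^ S.card * (if φ S = true then 1 else 0) =
    ∑ S ∈ C.powerset.filter (fun S => Inv P S),
      (-1 : ZMod p) ^ S.card * (if φ S = true then 1 else 0) := by
  have hsub : ∀ a : P, ∀ S, S ⊆ C → a • S ⊆ C := by
    intro a S hS x hx
    rw [Finset.mem_smul_finset] at hx
    obtain ⟨y, hy, rfl⟩ := hx
    exact hC a y (hS hy)
  rw [sum_eq_sub, sum_eq_sub]
  have m0 := card_mod p hP (C.powerset.filter (fun S => φ S = true ∧ Even S.card)) (by
    intro a S hS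
    rw [Finset.mem_filter, Finset.mem_powerset] at hS ⊢
    exact ⟨hsub a S hS.1, by rw [hφ]; exact hS.2.1, by rw [Finset.card_smul_finset]; exact hS.2.2⟩)
  have m1 := card_mod p hP (C.powerset.filter (fun S => φ S = true ∧ ¬ Even S.card)) (by
    intro a S hS
    rw [Finset.mem_filter, Finset.mem_powerset] at hS ⊢
    exact ⟨hsub a S hS.1, by rw [hφ]; exact hS.2.1, by rw [Finset.card_smul_finset]; exact hS.2.2⟩)
  have e0 := (ZMod.natCast_eq_natCast_iff _ _ _).2 m0
  have e1 := (ZMod.natCast_eq_natCast_iff _ _ _).2 m1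
  rw [e0, e1, Finset.filter_comm, Finset.filter_comm (fun S => φ S = true ∧ ¬ Even S.card)]

end Sum

section Transfer

variable {Y Z : Type} [DecidableEq Y] [Fintype Y] [DecidableEq Z] {P : Type} [Group P] [Finite P]
  [MulAction P Y]

/-- preimage in `T` -/
def pre (T : Finset Y) (π : Y → Z) (S : Finset Z) : Finset Y := T.filter (fun y => π y ∈ S)

theorem mem_pre (T : Finset Y) (π : Y → Z) (S : Finset Z) (y : Y) :
    y ∈ pre T π S ↔ y ∈ T ∧ π y ∈ S := by
  rw [pre, Finset.mem_filter]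

theorem pre_mono (T : Finset Y) (π : Y → Z) {S S' : Finset Z} (h : S ⊆ S') :
    pre T π S ⊆ pre T π S' := by
  intro y hy
  rw [mem_pre] at hy ⊢
  exact ⟨hy.1, h hy.2⟩

theorem pre_union (T : Finset Y) (π : Y → Z) (S S' : Finset Z) :
    pre T π (S ∪ S') = pre T π S ∪ pre T π S' := by
  ext y
  rw [Finset.mem_union, mem_pre, mem_pre, mem_pre, Finset.mem_union]
  tauto

theorem sum_pre (T : Finset Y) (π : Y → Z) (S : Finset Z) (ω : Y → ℕ) :
    ∑ z ∈ S, ∑ y ∈ T.filter (fun y => π y = z), ω y = ∑ y ∈ pre T π S, ω y := by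
  rw [← Finset.sum_fiberwise_of_maps_to (s := pre T π S) (t := S) (g := π)
    (fun y hy => ((mem_pre T π S y).1 hy).2)]
  refine Finset.sum_congr rfl fun z hz => ?_
  refine Finset.sum_congr ?_ fun _ _ => rfl
  ext y
  rw [Finset.mem_filter, Finset.mem_filter, mem_pre]
  constructor
  · rintro ⟨h1, h2⟩
    exact ⟨⟨h1, by rw [h2]; exact hz⟩, h2⟩
  · rintro ⟨⟨h1, _⟩, h2⟩
    exact ⟨h1, h2⟩

theorem van_transfer (p : ℕ) [Fact p.Prime] (hP : IsPGroup p P) (T : Finset Y) (π : Y → Z)
    (hT : Inv P T) (hπ : ∀ (a : P), ∀ y ∈ T, π (a • y) = π y)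
    (htr : ∀ y ∈ T, ∀ y' ∈ T, π y = π y' → ∃ a : P, a • y = y')
    (hsurj : ∀ z, ∃ y ∈ T, π y = z) (A0 : Finset Y) (hA0 : Inv P A0) (hA0T : Disjoint A0 T)
    (g : Finset Y → Bool) (hg : ∀ (a : P) (S : Finset Y), g (a • S) = g S) (ω : Y → ℕ) (θ : ℕ)
    (h : Van p ω θ g) :
    Van p (fun z => ∑ y ∈ T.filter (fun y => π y = z), ω y) θ (fun S => g (A0 ∪ pre T π S)) := by
  classical
  intro A C hAC hC
  rw [sum_pre] at hC
  have hpi : ∀ S : Finset Z, Inv P (pre T π S) := by
    intro S a y hy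
    rw [mem_pre] at hy ⊢
    exact ⟨hT a y hy.1, by rw [hπ a y hy.1]; exact hy.2⟩
  have hpT : ∀ S : Finset Z, pre T π S ⊆ T := fun S => Finset.filter_subset _ _
  have hdis : Disjoint (A0 ∪ pre T π A) (pre T π C) := by
    rw [Finset.disjoint_union_left]
    refine ⟨hA0T.mono_right (hpT C), ?_⟩
    rw [Finset.disjoint_left]
    intro y h1 h2
    rw [mem_pre] at h1 h2
    exact Finset.disjoint_left.1 hAC h1.2 h2.2
  have hAinv : Inv P (A0 ∪ pre T π A) := by
    intro a y hy
    rw [Finset.mem_union] at hy ⊢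
    rcases hy with hy | hy
    · exact Or.inl (hA0 a y hy)
    · exact Or.inr (hpi A a y hy)
  have h0 := h _ _ hdis hC
  rw [sum_inv p hP (pre T π C) (hpi C) (fun S => g (A0 ∪ pre T π A ∪ S)) (by
    intro a S
    have : A0 ∪ pre T π A ∪ a • S = a • (A0 ∪ pre T π A ∪ S) := by
      rw [Finset.smul_finset_union, inv_smul_eq hAinv]
    show g (A0 ∪ pre T π A ∪ a • S) = g (A0 ∪ pre T π A ∪ S)
    rw [this, hg])] at h0
  -- sizes of fibres
  have hfib : ∀ z, (-1 : ZMod p) ^ (T.filter (fun y => π y = z)).card = -1 := by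
    intro z
    obtain ⟨y0, hy0, hz⟩ := hsurj z
    obtain ⟨k, hk⟩ := hP.card_orbit y0
    have h1 : (T.filter (fun y => π y = z)).card = Nat.card (MulAction.orbit P y0) := by
      rw [← Nat.card_eq_finsetCard]
      refine Nat.card_congr (Equiv.subtypeEquivRight fun y => ?_)
      rw [Finset.mem_filter, MulAction.mem_orbit_iff]
      constructor
      · rintro ⟨h2, h3⟩
        exact htr y0 hy0 y h2 (hz.trans h3.symm)
      · rintro ⟨a, rfl⟩
        exact ⟨hT a y0 hy0, by rw [hπ a y0 hy0, hz]⟩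
    rw [h1, hk, ZMod.pow_card_pow]
  have hsign : ∀ S : Finset Z, (-1 : ZMod p) ^ (pre T π S).card = (-1) ^ S.card := by
    intro S
    have h1 : (pre T π S).card = ∑ z ∈ S, (T.filter (fun y => π y = z)).card := by
      have := sum_pre T π S (fun _ => 1)
      simp only [Finset.sum_const, smul_eq_mul, mul_one] at this
      exact this.symm
    rw [h1, ← Finset.prod_pow_eq_pow_sum, Finset.prod_congr rfl (fun z _ => hfib z),
      Finset.prod_const]
  have himg : ∀ S : Finset Z, (pre T π S).image π = S := by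
    intro S
    ext z
    rw [Finset.mem_image]
    constructor
    · rintro ⟨y, hy, rfl⟩
      exact ((mem_pre T π S y).1 hy).2
    · intro hz
      obtain ⟨y, hy, rfl⟩ := hsurj z
      exact ⟨y, (mem_pre T π S y).2 ⟨hy, hz⟩, rfl⟩
  refine (Finset.sum_bij (fun S _ => pre T π S) ?_ ?_ ?_ ?_).trans h0
  · intro S hS
    rw [Finset.mem_powerset] at hS
    rw [Finset.mem_filter, Finset.mem_powerset]
    exact ⟨pre_mono T π hS, hpi S⟩
  · intro S _ S' _ hSS
    have : (pre T π S).image π = (pre T π S').image π := congrArg (fun R => R.image π) hSS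
    rwa [himg, himg] at this
  · intro R hR
    rw [Finset.mem_filter, Finset.mem_powerset] at hR
    refine ⟨R.image π, ?_, ?_⟩
    · rw [Finset.mem_powerset]
      intro z hz
      obtain ⟨y, hy, rfl⟩ := Finset.mem_image.1 hz
      exact ((mem_pre T π C y).1 (hR.1 hy)).2
    · ext y
      rw [mem_pre, Finset.mem_image]
      constructor
      · rintro ⟨h1, y', hy', h2⟩
        obtain ⟨a, rfl⟩ := htr y' (hpT C (hR.1 hy')) y h1 h2
        exact hR.2 a y' hy'
      · intro hy
        exact ⟨hpT C (hR.1 hy), y, hy, rfl⟩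
  · intro S hS
    show (-1 : ZMod p) ^ S.card * (if g (A0 ∪ pre T π (A ∪ S)) = true then 1 else 0) = _
    rw [hsign S, pre_union, Finset.union_assoc]

end Transfer

end Pool.Agent.R570.PS
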