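import Mathlib
import Pool.Agent.R570.PS.Max
import Pool.Agent.R570.PS.Van

set_option autoImplicit false

/-!
The residue of a singular point: the orthogonal complement of a hyperbolic pair.
-/

namespace Pool.Agent.R570.PS

open Module

variable {F V : Type} [Field F] [AddCommGroup V] [Module F V]
variable {σ : F →+* F} {ε : F} {B : V →ₛₗ[σ] V →ₗ[F] F} {Sg : V → Prop}
  {G : Subgroup (V ≃ₗ[F] V)}

/-- the orthogonal complement of `u`, `w` -/
def WW (B : V →ₛₗ[σ] V →ₗ[F] F) (u w : V) : Submodule F V :=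
  LinearMap.ker (B u) ⊓ LinearMap.ker (B w)

theorem mem_WW {u w v : V} : v ∈ WW B u w ↔ B u v = 0 ∧ B w v = 0 := Iff.rfl

/-- the projection -/
def pj (σ : F →+* F) (ε : F) (B : V →ₛₗ[σ] V →ₗ[F] F) (u w : V) : V →ₗ[F] V :=
  LinearMap.id - (σ ε • B w).smulRight u - (B u).smulRight w

theorem pj_apply (u w v : V) : pj σ ε B u w v = v - (σ ε * B w v) • u - B u v • w := by
  simp [pj, smul_eq_mul]

/-- the data of a hyperbolic pair -/
structure Hyp (σ : F →+* F) (ε : F) (B : V →ₛₗ[σ] V →ₗ[F] F) (Sg : V → Prop)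
    (G : Subgroup (V ≃ₗ[F] V)) (u w : V) : Prop where
  pol : Pol σ ε B Sg G
  su : Sg u
  sw : Sg w
  uw : B u w = 1

variable {u w : V}

theorem Hyp.uu (h : Hyp σ ε B Sg G u w) : B u u = 0 := h.pol.iso u h.su
theorem Hyp.ww (h : Hyp σ ε B Sg G u w) : B w w = 0 := h.pol.iso w h.sw
theorem Hyp.wu (h : Hyp σ ε B Sg G u w) : B w u = ε := by
  rw [h.pol.herm u w, h.uw, map_one, mul_one]

theorem Hyp.e0 (h : Hyp σ ε B Sg G u w) : ε ≠ 0 := by
  intro h0
  have := h.pol.ee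
  rw [h0, zero_mul] at this
  exact zero_ne_one this

theorem Hyp.u0 (h : Hyp σ ε B Sg G u w) : u ≠ 0 := by
  rintro rfl
  have := h.uw
  rw [map_zero, LinearMap.zero_apply] at this
  exact zero_ne_one this

theorem Hyp.pj_mem (h : Hyp σ ε B Sg G u w) (v : V) : pj σ ε B u w v ∈ WW B u w := by
  rw [mem_WW, pj_apply]
  constructor
  · rw [map_sub, map_sub, map_smul, map_smul, h.uu, h.uw]
    simp
  · rw [map_sub, map_sub, map_smul, map_smul, h.wu, h.ww, smul_eq_mul, smul_zero, sub_zero]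
    have := h.pol.ee
    linear_combination (-(B w v)) * this

theorem pj_of_mem {v : V} (hv : v ∈ WW B u w) : pj σ ε B u w v = v := by
  rw [mem_WW] at hv
  rw [pj_apply, hv.1, hv.2]
  simp

/-- the projection to the complement -/
def Hyp.pW (h : Hyp σ ε B Sg G u w) : V →ₗ[F] WW B u w :=
  LinearMap.codRestrict (WW B u w) (pj σ ε B u w) h.pj_mem

theorem Hyp.pW_val (h : Hyp σ ε B Sg G u w) (v : V) :
    (h.pW v : V) = v - (σ ε * B w v) • u - B u v • w := pj_apply u w v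

theorem Hyp.pW_mem (h : Hyp σ ε B Sg G u w) (x : WW B u w) : h.pW x.1 = x :=
  Subtype.ext (pj_of_mem x.2)

theorem Hyp.pW_u (h : Hyp σ ε B Sg G u w) : h.pW u = 0 := by
  apply Subtype.ext
  rw [h.pW_val, h.wu, h.uu]
  have : σ ε * ε = 1 := by rw [mul_comm]; exact h.pol.ee
  rw [this]
  simp

theorem Hyp.pW_w (h : Hyp σ ε B Sg G u w) : h.pW w = 0 := by
  apply Subtype.ext
  rw [h.pW_val, h.ww, h.uw]
  simp

/-- extension of a linear map of the complement by the identity -/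
def Hyp.exl (h : Hyp σ ε B Sg G u w) (g : WW B u w →ₗ[F] WW B u w) : V →ₗ[F] V :=
  LinearMap.id - (WW B u w).subtype ∘ₗ h.pW + (WW B u w).subtype ∘ₗ g ∘ₗ h.pW

theorem Hyp.exl_apply (h : Hyp σ ε B Sg G u w) (g : WW B u w →ₗ[F] WW B u w) (v : V) :
    h.exl g v = v - (h.pW v : V) + (g (h.pW v) : V) := rfl

theorem Hyp.pW_exl (h : Hyp σ ε B Sg G u w) (g : WW B u w →ₗ[F] WW B u w) (v : V) :
    h.pW (h.exl g v) = g (h.pW v) := by
  rw [h.exl_apply, map_add, map_sub, h.pW_mem, h.pW_mem, sub_self, zero_add]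

theorem Hyp.exl_exl (h : Hyp σ ε B Sg G u w) (g g' : WW B u w →ₗ[F] WW B u w) (v : V) :
    h.exl g (h.exl g' v) = h.exl (g ∘ₗ g') v := by
  rw [h.exl_apply g, h.pW_exl, h.exl_apply g', h.exl_apply]
  rw [LinearMap.comp_apply]
  abel

theorem Hyp.exl_id (h : Hyp σ ε B Sg G u w) (v : V) : h.exl LinearMap.id v = v := by
  rw [h.exl_apply, LinearMap.id_apply]
  abel

/-- extension of an automorphism of the complement by the identity -/
def Hyp.exE (h : Hyp σ ε B Sg G u w) : (WW B u w ≃ₗ[F] WW B u w) →* (V ≃ₗ[F] V) where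
  toFun g := LinearEquiv.ofLinear (h.exl g.toLinearMap) (h.exl g.symm.toLinearMap)
    (LinearMap.ext fun v => by
      have e : (g.toLinearMap ∘ₗ g.symm.toLinearMap) = LinearMap.id := by
        ext x; simp
      rw [LinearMap.comp_apply, h.exl_exl, e, h.exl_id]; rfl)
    (LinearMap.ext fun v => by
      have e : (g.symm.toLinearMap ∘ₗ g.toLinearMap) = LinearMap.id := by
        ext x; simp
      rw [LinearMap.comp_apply, h.exl_exl, e, h.exl_id]; rfl)
  map_one' := LinearEquiv.ext fun v => h.exl_id v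
  map_mul' g g' := LinearEquiv.ext fun v => (h.exl_exl g.toLinearMap g'.toLinearMap v).symm

theorem Hyp.exE_apply (h : Hyp σ ε B Sg G u w) (g : WW B u w ≃ₗ[F] WW B u w) (v : V) :
    h.exE g v = v - (h.pW v : V) + (g (h.pW v) : V) := rfl

theorem Hyp.exE_mem (h : Hyp σ ε B Sg G u w) (g : WW B u w ≃ₗ[F] WW B u w) (x : WW B u w) :
    h.exE g x.1 = (g x : V) := by
  rw [h.exE_apply, h.pW_mem]
  abel

theorem Hyp.exE_u (h : Hyp σ ε B Sg G u w) (g : WW B u w ≃ₗ[F] WW B u w) : h.exE g u = u := by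
  rw [h.exE_apply, h.pW_u, map_zero]
  simp

/-- the group of the residue -/
def Hyp.GW (h : Hyp σ ε B Sg G u w) : Subgroup (WW B u w ≃ₗ[F] WW B u w) := G.comap h.exE

/-- the restricted form -/
def BW (B : V →ₛₗ[σ] V →ₗ[F] F) (u w : V) : WW B u w →ₛₗ[σ] WW B u w →ₗ[F] F :=
  B.domRestrict₁₂ (WW B u w) (WW B u w)

theorem BW_apply (x y : WW B u w) : BW B u w x y = B x.1 y.1 := rfl

theorem Hyp.xu (h : Hyp σ ε B Sg G u w) (x : WW B u w) : B x.1 u = 0 := by
  rw [h.pol.herm u x.1, x.2.1, map_zero, mul_zero]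

theorem Hyp.xw (h : Hyp σ ε B Sg G u w) (x : WW B u w) : B x.1 w = 0 := by
  rw [h.pol.herm w x.1, x.2.2, map_zero, mul_zero]

theorem Hyp.B_pW (h : Hyp σ ε B Sg G u w) (x : WW B u w) (v : V) :
    B x.1 (h.pW v : V) = B x.1 v := by
  rw [h.pW_val, map_sub, map_sub, map_smul, map_smul, h.xu, h.xw]
  simp

theorem Hyp.polW (h : Hyp σ ε B Sg G u w) :
    Pol σ ε (BW B u w) (fun x => Sg x.1) h.GW where
  ss := h.pol.ss
  ee := h.pol.ee
  herm := fun v x => h.pol.herm v.1 x.1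
  zero := h.pol.zero
  iso := fun v hv => h.pol.iso v.1 hv
  smul := fun a v hv => h.pol.smul a v.1 hv
  add := fun v x hv hx h' => h.pol.add v.1 x.1 hv hx h'
  ex := fun v x hv h' => h.pol.ex v.1 x.1 hv h'
  gB := fun g hg v x => by
    have h1 := h.pol.gB _ hg v.1 x.1
    rw [h.exE_mem, h.exE_mem] at h1
    exact h1
  gS := fun g hg v hv => by
    have h1 := h.pol.gS _ hg v.1 hv
    rw [h.exE_mem] at h1
    exact h1
  sieg := fun g a b b' ha hb hb' h1 h2 hg => by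
    show h.exE g ∈ G
    refine h.pol.sieg _ a.1 b.1 b'.1 ha hb hb' h1 h2 fun v => ?_
    rw [h.exE_apply, hg (h.pW v)]
    have e1 : BW B u w a (h.pW v) = B a.1 v := h.B_pW a v
    have e2 : BW B u w (b' - b) (h.pW v) = B (b'.1 - b.1) v := h.B_pW (b' - b) v
    have e3 : BW B u w b' b = B b'.1 b.1 := rfl
    rw [e1, e2, e3]
    show v - (h.pW v : V) + ((h.pW v : V) + B a.1 v • (b'.1 - b.1) +
      (σ ε * (B b'.1 b.1 * B a.1 v - B (b'.1 - b.1) v)) • a.1) = _
    abel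
  nd := fun x hx0 hx => by
    obtain ⟨v, hv⟩ := h.pol.nd x.1 (fun h0 => hx0 (Subtype.ext h0)) hx
    refine ⟨h.pW v, ?_⟩
    rw [BW_apply, h.B_pW]
    exact hv

/-! maximal totally singular subspaces -/

theorem pm_eq {M M' : Submodule F V} (hM : PM B Sg M) (hM' : PM B Sg M') (h : M ≤ M') :
    M = M' :=
  le_antisymm h fun v hv => hM.2 v (hM'.1.1 v hv) fun m hm => hM'.1.2 m (h hm) v hv

/-- `M` changed so that it contains `u` -/
def ch (B : V →ₛₗ[σ] V →ₗ[F] F) (u : V) (M : Submodule F V) : Submodule F V :=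
  (M ⊓ LinearMap.ker (B u)) ⊔ F ∙ u

theorem mem_ch {M : Submodule F V} {u v : V} :
    v ∈ ch B u M ↔ ∃ m ∈ M, B u m = 0 ∧ ∃ a : F, v = m + a • u := by
  unfold ch
  rw [Submodule.mem_sup]
  constructor
  · rintro ⟨m, hm, y, hy, rfl⟩
    obtain ⟨a, rfl⟩ := Submodule.mem_span_singleton.1 hy
    exact ⟨m, hm.1, hm.2, a, rfl⟩
  · rintro ⟨m, hm, h0, a, rfl⟩
    exact ⟨m, ⟨hm, h0⟩, a • u, Submodule.smul_mem _ _ (Submodule.mem_span_singleton_self u), rfl⟩

theorem u_mem_ch {M : Submodule F V} {u : V} : u ∈ ch B u M :=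
  Submodule.mem_sup_right (Submodule.mem_span_singleton_self u)

/-- the trace on the residue -/
def tr (B : V →ₛₗ[σ] V →ₗ[F] F) (u w : V) (M : Submodule F V) : Submodule F (WW B u w) :=
  (ch B u M).comap (WW B u w).subtype

theorem mem_tr {M : Submodule F V} {x : WW B u w} : x ∈ tr B u w M ↔ x.1 ∈ ch B u M := Iff.rfl

theorem Hyp.pW_mem_tr (h : Hyp σ ε B Sg G u w) {M : Submodule F V} {m : V}
    (hm : m ∈ ch B u M) (h0 : B u m = 0) : h.pW m ∈ tr B u w M := by
  rw [mem_tr, h.pW_val, h0, zero_smul, sub_zero]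
  exact Submodule.sub_mem _ hm (Submodule.smul_mem _ _ u_mem_ch)

theorem Hyp.tr_pm (h : Hyp σ ε B Sg G u w) {M : Submodule F V} (hM : PM B Sg M) :
    PM (BW B u w) (fun x => Sg x.1) (tr B u w M) := by
  have hc : PM B Sg (ch B u M) := exch h.pol hM h.su
  refine ⟨⟨fun v hv => hc.1.1 v.1 hv, fun v hv x hx => hc.1.2 v.1 hv x.1 hx⟩, fun v hv hp => ?_⟩
  refine hc.2 v.1 hv fun m hm => ?_
  have hum : B u m = 0 := hc.1.2 u u_mem_ch m hm
  have h1 := hp (h.pW m) (h.pW_mem_tr hm hum)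
  rw [BW_apply, h.pol.herm v.1 (h.pW m).1, h.B_pW] at h1
  have h2 : B m v.1 = ε * σ (B v.1 m) := h.pol.herm v.1 m
  rw [h2]
  exact h1

/-- the subspace of `V` over a subspace of the residue -/
def up (u w : V) (N : Submodule F (WW B u w)) : Submodule F V :=
  N.map (WW B u w).subtype ⊔ F ∙ u

theorem mem_up {N : Submodule F (WW B u w)} {v : V} :
    v ∈ up u w N ↔ ∃ n ∈ N, ∃ a : F, v = n.1 + a • u := by
  unfold up
  rw [Submodule.mem_sup]
  constructor
  · rintro ⟨x, hx, y, hy, rfl⟩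
    obtain ⟨n, hn, rfl⟩ := Submodule.mem_map.1 hx
    obtain ⟨a, rfl⟩ := Submodule.mem_span_singleton.1 hy
    exact ⟨n, hn, a, rfl⟩
  · rintro ⟨n, hn, a, rfl⟩
    exact ⟨n.1, Submodule.mem_map.2 ⟨n, hn, rfl⟩, a • u,
      Submodule.smul_mem _ _ (Submodule.mem_span_singleton_self u), rfl⟩

theorem Hyp.up_pm (h : Hyp σ ε B Sg G u w) {N : Submodule F (WW B u w)}
    (hN : PM (BW B u w) (fun x => Sg x.1) N) : PM B Sg (up u w N) := by
  have hTS : TS B Sg (N.map (WW B u w).subtype) := by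
    constructor
    · intro v hv
      obtain ⟨n, hn, rfl⟩ := Submodule.mem_map.1 hv
      exact hN.1.1 n hn
    · intro v hv x hx
      obtain ⟨n, hn, rfl⟩ := Submodule.mem_map.1 hv
      obtain ⟨n', hn', rfl⟩ := Submodule.mem_map.1 hx
      exact hN.1.2 n hn n' hn'
  refine ⟨ts_sup h.pol hTS h.su ?_, fun v hv hp => ?_⟩
  · intro m hm
    obtain ⟨n, hn, rfl⟩ := Submodule.mem_map.1 hm
    exact h.xu n
  · have huv : B u v = 0 := hp u (mem_up.2 ⟨0, N.zero_mem, 1, by simp⟩)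
    have hpv : (h.pW v : V) = v + (-(σ ε * B w v)) • u := by
      rw [h.pW_val, huv, zero_smul, sub_zero, neg_smul, sub_eq_add_neg]
    have hvu : B v u = 0 := by rw [h.pol.herm u v, huv, map_zero, mul_zero]
    have h1 : h.pW v ∈ N := by
      refine hN.2 _ ?_ fun n hn => ?_
      · show Sg (h.pW v : V)
        rw [hpv]
        exact h.pol.add _ _ hv (h.pol.smul _ _ h.su) (by rw [map_smul, hvu, smul_zero])
      · rw [BW_apply, h.B_pW]
        exact hp n.1 (mem_up.2 ⟨n, hn, 0, by simp⟩)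
    refine mem_up.2 ⟨h.pW v, h1, σ ε * B w v, ?_⟩
    rw [hpv, neg_smul]
    abel

theorem Hyp.tr_up (h : Hyp σ ε B Sg G u w) {N : Submodule F (WW B u w)}
    (hN : PM (BW B u w) (fun x => Sg x.1) N) {M : Submodule F V} (hM : PM B Sg M)
    (hle : ch B u M = up u w N) : tr B u w M = N := by
  refine (pm_eq hN (h.tr_pm hM) ?_).symm
  intro n hn
  rw [mem_tr, hle]
  exact mem_up.2 ⟨n, hn, 0, by simp⟩

theorem Hyp.ch_eq_up (h : Hyp σ ε B Sg G u w) {M : Submodule F V} (hM : PM B Sg M) :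
    ch B u M = up u w (tr B u w M) := by
  refine pm_eq (exch h.pol hM h.su) (h.up_pm (h.tr_pm hM)) ?_
  intro v hv
  have hc : PM B Sg (ch B u M) := exch h.pol hM h.su
  have huv : B u v = 0 := hc.1.2 u u_mem_ch v hv
  refine mem_up.2 ⟨h.pW v, h.pW_mem_tr hv huv, σ ε * B w v, ?_⟩
  rw [h.pW_val, huv, zero_smul, sub_zero]
  abel

/-- existence in the fibre -/
theorem Hyp.exists_over (h : Hyp σ ε B Sg G u w) {N : Submodule F (WW B u w)}
    (hN : PM (BW B u w) (fun x => Sg x.1) N) {t : V} (ht : Sg t) (hut : B u t = 1) :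
    PM B Sg (ch B t (up u w N)) ∧ u ∉ ch B t (up u w N) ∧ t ∈ ch B t (up u w N) ∧
      tr B u w (ch B t (up u w N)) = N := by
  have hup := h.up_pm hN
  have hpm : PM B Sg (ch B t (up u w N)) := exch h.pol hup ht
  have hu : u ∈ up u w N := mem_up.2 ⟨0, N.zero_mem, 1, by simp⟩
  refine ⟨hpm, fun hmem => ?_, u_mem_ch, ?_⟩
  · have := hpm.1.2 u hmem t u_mem_ch
    rw [hut] at this
    exact one_ne_zero this
  · apply h.tr_up hN hpm
    refine pm_eq (exch h.pol hpm h.su) hup ?_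
    intro v hv
    obtain ⟨m, hm, h0, a, rfl⟩ := mem_ch.1 hv
    refine Submodule.add_mem _ ?_ (Submodule.smul_mem _ _ hu)
    obtain ⟨m', hm', h0', b, rfl⟩ := mem_ch.1 hm
    have : B u m' = 0 := hup.1.2 u hu m' hm'
    rw [map_add, this, map_smul, hut, zero_add, smul_eq_mul, mul_one] at h0
    rw [h0, zero_smul, add_zero]
    exact hm'

/-- a normalized vector in a maximal subspace which does not contain `u` -/
theorem Hyp.exists_t (h : Hyp σ ε B Sg G u w) {M : Submodule F V} (hM : PM B Sg M)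
    (hu : u ∉ M) : ∃ t ∈ M, Sg t ∧ B u t = 1 := by
  have h1 : ∃ m ∈ M, B m u ≠ 0 := by
    by_contra hcon
    push Not at hcon
    exact hu (hM.2 u h.su hcon)
  obtain ⟨m, hm, hne⟩ := h1
  have h2 : B u m ≠ 0 := by
    intro h0
    apply hne
    rw [h.pol.herm u m, h0, map_zero, mul_zero]
  refine ⟨(B u m)⁻¹ • m, M.smul_mem _ hm, hM.1.1 _ (M.smul_mem _ hm), ?_⟩
  rw [map_smul, smul_eq_mul, inv_mul_cancel₀ h2]

/-- uniqueness in the fibre -/
theorem Hyp.unique_over (h : Hyp σ ε B Sg G u w) {M : Submodule F V} (hM : PM B Sg M)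
    {t : V} (ht : t ∈ M) (hut : B u t = 1) : M = ch B t (up u w (tr B u w M)) := by
  refine pm_eq hM (exch h.pol (h.up_pm (h.tr_pm hM)) (hM.1.1 t ht)) ?_
  rw [← h.ch_eq_up hM]
  intro v hv
  refine mem_ch.2 ⟨v - B u v • t, ?_, ?_, B u v, by abel⟩
  · refine mem_ch.2 ⟨v - B u v • t, M.sub_mem hv (M.smul_mem _ ht), ?_, 0, by simp⟩
    rw [map_sub, map_smul, hut, smul_eq_mul, mul_one, sub_self]
  · exact hM.1.2 t ht _ (M.sub_mem hv (M.smul_mem _ ht))

end Pool.Agent.R570.PS
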