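import Mathlib
import Pool.Agent.R570.PS.Res
import Pool.Agent.R570.PS.Inst
import Pool.Agent.R570.PS.Cnt

set_option autoImplicit false

/-!
The induction for the maximal totally singular subspaces.
-/

namespace Pool.Agent.R570.PS

open Module
open scoped Pointwise

variable {F V : Type} [Field F] [AddCommGroup V] [Module F V]
variable {σ : F →+* F} {ε : F} {B : V →ₛₗ[σ] V →ₗ[F] F} {Sg : V → Prop}
  {G : Subgroup (V ≃ₗ[F] V)}

/-- the maximal totally singular subspaces -/
def XX (B : V →ₛₗ[σ] V →ₗ[F] F) (Sg : V → Prop) : Type := {M : Submodule F V // PM B Sg M}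

instance [Finite V] : Finite (XX B Sg) := by
  have hfin : Finite (Submodule F V) := Finite.of_injective (fun W : Submodule F V => (W : Set V))
    SetLike.coe_injective
  unfold XX
  infer_instance

noncomputable instance instFtXX [Finite V] : Fintype (XX B Sg) := Fintype.ofFinite _

noncomputable instance instDeXX : DecidableEq (XX B Sg) := Classical.decEq _

theorem pm_map (hP : Pol σ ε B Sg G) {M : Submodule F V} (hM : PM B Sg M) {g : V ≃ₗ[F] V}
    (hg : g ∈ G) : PM B Sg (M.map (g : V →ₗ[F] V)) := by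
  refine ⟨⟨?_, ?_⟩, fun v hv hp => ?_⟩
  · rintro _ ⟨m, hm, rfl⟩
    exact hP.gS g hg m (hM.1.1 m hm)
  · rintro _ ⟨m, hm, rfl⟩ _ ⟨m', hm', rfl⟩
    exact (hP.gB g hg m m').trans (hM.1.2 m hm m' hm')
  · refine ⟨g.symm v, ?_, g.apply_symm_apply v⟩
    refine hM.2 _ (hP.gS g⁻¹ (G.inv_mem hg) v hv) fun m hm => ?_
    have h1 := hp (g m) ⟨m, hm, rfl⟩
    have h2 := hP.gB g hg m (g.symm v)
    rw [g.apply_symm_apply] at h2
    rw [← h2]
    exact h1

/-- the action on the maximal totally singular subspaces -/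
@[reducible] def actX (hP : Pol σ ε B Sg G) : MulAction G (XX B Sg) where
  smul g M := ⟨M.1.map (g.1 : V →ₗ[F] V), pm_map hP M.2 g.2⟩
  one_smul M := Subtype.ext (Submodule.map_id M.1)
  mul_smul g h M := Subtype.ext (Submodule.map_comp (h.1 : V →ₗ[F] V) (g.1 : V →ₗ[F] V) M.1)

/-- invariance of set functions -/
def InvG (G : Subgroup (V ≃ₗ[F] V)) (g : Finset (XX B Sg) → Bool) : Prop :=
  ∀ a ∈ G, ∀ S S' : Finset (XX B Sg),
    (∀ M, M ∈ S' ↔ ∃ N ∈ S, M.1 = N.1.map (a : V →ₗ[F] V)) → g S' = g S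

open Classical in
/-- the maximal subspaces opposite to `M0` -/
noncomputable def opp [Finite V] (M0 : XX B Sg) : Finset (XX B Sg) :=
  Finset.univ.filter (fun M => M.1 ⊓ M0.1 = ⊥)

theorem mem_opp [Finite V] (M0 M : XX B Sg) : M ∈ opp M0 ↔ M.1 ⊓ M0.1 = ⊥ := by
  classical
  rw [opp, Finset.mem_filter]
  exact ⟨fun h => h.2, fun h => ⟨Finset.mem_univ _, h⟩⟩

open Classical in
/-- the maximal subspaces through `u` -/
noncomputable def inn [Finite V] (B : V →ₛₗ[σ] V →ₗ[F] F) (Sg : V → Prop) (u : V) :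
    Finset (XX B Sg) := Finset.univ.filter (fun M => u ∈ M.1)

theorem mem_inn [Finite V] (u : V) (M : XX B Sg) : M ∈ inn B Sg u ↔ u ∈ M.1 := by
  classical
  rw [inn, Finset.mem_filter]
  exact ⟨fun h => h.2, fun h => ⟨Finset.mem_univ _, h⟩⟩

open Classical in
/-- the maximal subspaces not through `u` -/
noncomputable def out [Finite V] (B : V →ₛₗ[σ] V →ₗ[F] F) (Sg : V → Prop) (u : V) :
    Finset (XX B Sg) := Finset.univ.filter (fun M => u ∉ M.1)

theorem mem_out [Finite V] (u : V) (M : XX B Sg) : M ∈ out B Sg u ↔ u ∉ M.1 := by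
  classical
  rw [out, Finset.mem_filter]
  exact ⟨fun h => h.2, fun h => ⟨Finset.mem_univ _, h⟩⟩

variable {u w : V}

theorem Hyp.tr_map (h : Hyp σ ε B Sg G u w) {M : Submodule F V} (hM : PM B Sg M)
    {a : WW B u w ≃ₗ[F] WW B u w} (ha : a ∈ h.GW) :
    tr B u w (M.map (h.exE a : V →ₗ[F] V)) =
      (tr B u w M).map (a : WW B u w →ₗ[F] WW B u w) := by
  refine (pm_eq (pm_map h.polW (h.tr_pm hM) ha) (h.tr_pm (pm_map h.pol hM ha)) ?_).symm
  rintro _ ⟨y, hy, rfl⟩
  obtain ⟨m, hm, h0, c, hc⟩ := mem_ch.1 (mem_tr.1 hy)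
  refine mem_ch.2 ⟨h.exE a m, ⟨m, hm, rfl⟩, ?_, c, ?_⟩
  · have h1 := h.pol.gB _ ha u m
    rw [h.exE_u, h0] at h1
    exact h1
  · have h1 := h.exE_mem a y
    rw [hc, map_add, map_smul, h.exE_u] at h1
    exact h1.symm

theorem map_inj_eq {V' : Type} [AddCommGroup V'] [Module F V'] (a : V' ≃ₗ[F] V')
    {M N : Submodule F V'} (h : M.map (a : V' →ₗ[F] V') = N.map (a : V' →ₗ[F] V')) : M = N :=
  Submodule.map_injective_of_injective (f := (a : V' →ₗ[F] V')) a.injective h

section Step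

variable [Finite V] (p : ℕ) [Fact p.Prime] [CharP F p]

theorem step (h : Hyp σ ε B Sg G u w) (ω : XX B Sg → ℕ) (θ : ℕ) (g : Finset (XX B Sg) → Bool)
    (hmono : ∀ S S', S ⊆ S' → g S = true → g S' = true) (hinv : InvG G g) (hvan : Van p ω θ g)
    (hθ : ∀ M0 : XX B Sg, θ ≤ ∑ M ∈ opp M0, ω M)
    (IH : ∀ (ω' : XX (BW B u w) (fun x => Sg x.1) → ℕ)
      (g' : Finset (XX (BW B u w) (fun x => Sg x.1)) → Bool),
      (∀ S S', S ⊆ S' → g' S = true → g' S' = true) → InvG h.GW g' → Van p ω' θ g' →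
      (∀ N0 : XX (BW B u w) (fun x => Sg x.1), θ ≤ ∑ N ∈ opp N0, ω' N) →
      g' ∅ = g' Finset.univ) :
    g (out B Sg u) = g ∅ ∧ g (inn B Sg u) = g Finset.univ := by
  classical
  letI : MulAction G (XX B Sg) := actX h.pol
  have hGfin : Finite G := by
    have : Finite (V ≃ₗ[F] V) := Finite.of_injective (fun g : V ≃ₗ[F] V => (g : V → V))
      DFunLike.coe_injective
    infer_instance
  set x : Pt (F := F) Sg := ⟨F ∙ u, u, h.u0, h.su, rfl⟩ with hx
  set T : Finset (XX B Sg) := out B Sg u with hTdef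
  set Xu : Finset (XX B Sg) := inn B Sg u with hXu
  let π : XX B Sg → XX (BW B u w) (fun x => Sg x.1) := fun M => ⟨tr B u w M.1, h.tr_pm M.2⟩
  have hmT : ∀ M, M ∈ T ↔ u ∉ M.1 := fun M => mem_out u M
  have hmX : ∀ M, M ∈ Xu ↔ u ∈ M.1 := fun M => mem_inn u M
  have hux : u ∈ x.1 := Submodule.mem_span_singleton_self u
  -- facts on the unipotent group
  have f1 : ∀ a ∈ UU h.pol x, a.1 u = u := fun a ha => ((mem_UU _ _ _).1 ha).1 u hux
  have f2 : ∀ a ∈ UU h.pol x, ∀ v, B u (a.1 v) = B u v := fun a ha v => by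
    have h1 := ((mem_UU _ _ _).1 ha).2.2 v u hux
    rw [map_sub, sub_eq_zero] at h1
    exact h1
  have f3 : ∀ a ∈ UU h.pol x, ∀ v, B u v = 0 → ∃ c : F, a.1 v = v + c • u := fun a ha v hv => by
    have h1 := ((mem_UU _ _ _).1 ha).2.1 v (fun s hs => by
      obtain ⟨c, rfl⟩ := Submodule.mem_span_singleton.1 hs
      rw [LinearMap.map_smulₛₗ, LinearMap.smul_apply, hv, smul_zero])
    obtain ⟨c, hc⟩ := Submodule.mem_span_singleton.1 h1
    exact ⟨c, by rw [hc]; abel⟩
  have f4 : ∀ a ∈ UU h.pol x, ∀ M : XX B Sg,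
      tr B u w (M.1.map (a.1 : V →ₗ[F] V)) = tr B u w M.1 := by
    intro a ha M
    have hpm := pm_map h.pol M.2 a.2
    have h1 : ch B u (M.1.map (a.1 : V →ₗ[F] V)) = ch B u M.1 := by
      refine pm_eq (exch h.pol hpm h.su) (exch h.pol M.2 h.su) ?_
      intro v hv
      obtain ⟨m, ⟨m', hm', rfl⟩, h0, c, rfl⟩ := mem_ch.1 hv
      have h0' : B u m' = 0 := by rw [← f2 a ha m']; exact h0
      obtain ⟨c', hc'⟩ := f3 a ha m' h0'
      refine mem_ch.2 ⟨m', hm', h0', c' + c, ?_⟩
      show a.1 m' + c • u = _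
      rw [hc', add_smul]
      abel
    unfold tr
    rw [h1]
  have huinv : ∀ (a : V ≃ₗ[F] V), a u = u → ∀ M : Submodule F V,
      (u ∈ M.map (a : V →ₗ[F] V) ↔ u ∈ M) := by
    intro a ha M
    constructor
    · rintro ⟨m, hm, hmu⟩
      have h1 : a m = a u := by rw [ha]; exact hmu
      rw [← a.injective h1]
      exact hm
    · intro hu
      exact ⟨u, hu, ha⟩
  have hT : Inv (UU h.pol x) T := by
    intro a M hM
    rw [hmT] at hM ⊢
    intro h1
    exact hM ((huinv a.1.1 (f1 a.1 a.2) M.1).1 h1)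
  have hXinv : Inv (UU h.pol x) Xu := by
    intro a M hM
    rw [hmX] at hM ⊢
    exact (huinv a.1.1 (f1 a.1 a.2) M.1).2 hM
  have hdis : Disjoint Xu T := by
    rw [Finset.disjoint_left]
    intro M h1 h2
    rw [hmX] at h1
    rw [hmT] at h2
    exact h2 h1
  have hπ : ∀ (a : UU h.pol x), ∀ M ∈ T, π (a • M) = π M := fun a M _ =>
    Subtype.ext (f4 a.1 a.2 M)
  have htr : ∀ M ∈ T, ∀ M' ∈ T, π M = π M' → ∃ a : UU h.pol x, a • M = M' := by
    intro M hM M' hM' hMM
    rw [hmT] at hM hM'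
    obtain ⟨t, ht, hst, hut⟩ := h.exists_t M.2 hM
    obtain ⟨t', ht', hst', hut'⟩ := h.exists_t M'.2 hM'
    letI : MulAction G (Pt (F := F) Sg) := actPt h.pol
    have ht0 : t ≠ 0 := by
      rintro rfl
      rw [map_zero] at hut
      exact zero_ne_one hut
    have ht0' : t' ≠ 0 := by
      rintro rfl
      rw [map_zero] at hut'
      exact zero_ne_one hut'
    obtain ⟨a, ha, hat⟩ := UU_trans h.pol (fun g x => rfl) x ⟨F ∙ t, t, ht0, hst, rfl⟩
      ⟨F ∙ t', t', ht0', hst', rfl⟩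
      (by rw [perp_span (u := u) (w := t) rfl rfl, hut]; exact one_ne_zero)
      (by rw [perp_span (u := u) (w := t') rfl rfl, hut']; exact one_ne_zero)
    have h1 : (F ∙ (a.1 t) : Submodule F V) = F ∙ t' := by
      have h2 := congrArg (fun z : Pt (F := F) Sg => z.1) hat
      have h3 : ((F ∙ t : Submodule F V).map (a.1 : V →ₗ[F] V)) = F ∙ t' := h2
      rw [Submodule.map_span, Set.image_singleton] at h3
      exact h3
    have h2 : a.1 t = t' := norm_unique (by rw [f2 a ha]; exact hut) hut' h1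
    refine ⟨⟨a, ha⟩, ?_⟩
    apply Subtype.ext
    show M.1.map (a.1 : V →ₗ[F] V) = M'.1
    have h3 := h.unique_over (pm_map h.pol M.2 a.2) (t := t') ⟨t, ht, h2⟩ hut'
    have h4 := h.unique_over M'.2 ht' hut'
    rw [h3, f4 a ha M, h4]
    have h5 : tr B u w M.1 = tr B u w M'.1 := congrArg Subtype.val hMM
    rw [h5, ← h4]
  have hsurj : ∀ N, ∃ M ∈ T, π M = N := by
    intro N
    obtain ⟨h1, h2, _, h4⟩ := h.exists_over N.2 h.sw h.uw
    exact ⟨⟨_, h1⟩, (hmT _).2 h2, Subtype.ext h4⟩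
  have hg : ∀ (a : UU h.pol x) (S : Finset (XX B Sg)), g (a • S) = g S := by
    intro a S
    refine hinv a.1.1 a.1.2 S (a • S) fun M => ?_
    rw [Finset.mem_smul_finset]
    constructor
    · rintro ⟨N, hN, rfl⟩
      exact ⟨N, hN, rfl⟩
    · rintro ⟨N, hN, hMN⟩
      exact ⟨N, hN, (Subtype.ext hMN).symm⟩
  -- the conclusion for an admissible background
  have key : ∀ A0 : Finset (XX B Sg), Inv (UU h.pol x) A0 → Disjoint A0 T →
      (∀ (a : V ≃ₗ[F] V), a u = u → ∀ M N : XX B Sg, M.1 = N.1.map (a : V →ₗ[F] V) →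
        (M ∈ A0 ↔ N ∈ A0)) → g A0 = g (A0 ∪ T) := by
    intro A0 hA0 hA0T hA0u
    have hv := van_transfer p (UU_pgroup h.pol p x) T π hT hπ htr hsurj A0 hA0 hA0T g hg ω θ hvan
    have hI := IH _ (fun S => g (A0 ∪ pre T π S)) (fun S S' hSS h1 =>
      hmono _ _ (Finset.union_subset_union_right (pre_mono T π hSS)) h1) ?_ hv ?_
    · have e1 : pre T π ∅ = ∅ := by
        rw [Finset.eq_empty_iff_forall_notMem]
        intro M hM
        rw [mem_pre] at hM
        exact absurd hM.2 (by simp)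
      have e2 : pre T π Finset.univ = T := by
        ext M
        rw [mem_pre]
        exact ⟨fun h => h.1, fun h => ⟨h, Finset.mem_univ _⟩⟩
      simp only [e1, e2, Finset.union_empty] at hI
      exact hI
    · intro a ha S S' hSS
      refine hinv (h.exE a) ha _ _ fun M => ?_
      have hpN : PM B Sg (M.1.map ((h.exE a)⁻¹ : V ≃ₗ[F] V).toLinearMap) :=
        pm_map h.pol M.2 (G.inv_mem ha)
      have hback : M.1 = (M.1.map ((h.exE a)⁻¹ : V ≃ₗ[F] V).toLinearMap).map
          (h.exE a : V →ₗ[F] V) := by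
        ext v
        constructor
        · intro hv
          exact ⟨(h.exE a).symm v, ⟨v, hv, rfl⟩, (h.exE a).apply_symm_apply v⟩
        · rintro ⟨_, ⟨v', hv', rfl⟩, rfl⟩
          have : (h.exE a) ((h.exE a).symm v') = v' := (h.exE a).apply_symm_apply v'
          show (h.exE a) ((h.exE a).symm v') ∈ M.1
          rw [this]
          exact hv'
      have hcase : ∀ N : XX B Sg, M.1 = N.1.map (h.exE a : V →ₗ[F] V) →
          (M ∈ A0 ∪ pre T π S' ↔ N ∈ A0 ∪ pre T π S) := by
        intro N hN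
        have e1 : M ∈ A0 ↔ N ∈ A0 := hA0u (h.exE a) (h.exE_u a) M N hN
        have e2 : M ∈ T ↔ N ∈ T := by
          rw [hmT, hmT, hN, huinv _ (h.exE_u a)]
        have e3 : π M ∈ S' ↔ π N ∈ S := by
          have e4 : (π M).1 = (π N).1.map (a : WW B u w →ₗ[F] WW B u w) := by
            show tr B u w M.1 = (tr B u w N.1).map _
            rw [hN, h.tr_map N.2 ha]
          rw [hSS]
          constructor
          · rintro ⟨N1, hN1, h1⟩
            rw [e4] at h1
            have : π N = N1 := Subtype.ext (map_inj_eq a h1)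
            rw [this]
            exact hN1
          · intro h1
            exact ⟨π N, h1, e4⟩
        rw [Finset.mem_union, Finset.mem_union, mem_pre, mem_pre, e1, e2, e3]
      constructor
      · intro hM
        refine ⟨⟨_, hpN⟩, ?_, hback⟩
        exact (hcase ⟨_, hpN⟩ hback).1 hM
      · rintro ⟨N, hN, hMN⟩
        exact (hcase N hMN).2 hN
    · intro N0
      rw [sum_pre]
      refine (hθ ⟨up u w N0.1, h.up_pm N0.2⟩).trans ?_
      refine Finset.sum_le_sum_of_subset ?_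
      intro M hM
      rw [mem_opp] at hM
      have hM0 : M.1 ⊓ up u w N0.1 = ⊥ := hM
      have huN : u ∈ up u w N0.1 := mem_up.2 ⟨0, N0.1.zero_mem, 1, by simp⟩
      rw [mem_pre, hmT, mem_opp]
      refine ⟨fun hu => h.u0 ?_, ?_⟩
      · have : u ∈ M.1 ⊓ up u w N0.1 := ⟨hu, huN⟩
        rw [hM0] at this
        exact this
      · rw [eq_bot_iff]
        rintro y ⟨hy1, hy2⟩
        obtain ⟨m, hm, h0, c, hc⟩ := mem_ch.1 (mem_tr.1 hy1)
        have hyup : y.1 ∈ up u w N0.1 := mem_up.2 ⟨y, hy2, 0, by simp⟩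
        have hmup : m ∈ up u w N0.1 := by
          have : m = y.1 - c • u := by rw [hc]; abel
          rw [this]
          exact Submodule.sub_mem _ hyup (Submodule.smul_mem _ _ huN)
        have hm0 : m ∈ M.1 ⊓ up u w N0.1 := ⟨hm, hmup⟩
        rw [hM0, Submodule.mem_bot] at hm0
        rw [hm0, zero_add] at hc
        have h2 : B w y.1 = 0 := y.2.2
        rw [hc, map_smul, h.wu, smul_eq_mul] at h2
        rcases mul_eq_zero.1 h2 with h3 | h3
        · rw [h3, zero_smul] at hc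
          rw [Submodule.mem_bot]
          exact Subtype.ext hc
        · exact absurd h3 h.e0
  constructor
  · have h1 := key ∅ (fun a M hM => absurd hM (by simp)) (by simp)
      (fun a _ M N _ => by simp)
    rw [Finset.empty_union] at h1
    exact h1.symm
  · have h1 := key Xu hXinv hdis (fun a ha M N hMN => by
      rw [hmX, hmX, hMN, huinv a ha])
    have h2 : Xu ∪ T = Finset.univ := by
      rw [Finset.eq_univ_iff_forall]
      intro M
      rw [Finset.mem_union, hmX, hmT]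
      exact em _
    rw [h2] at h1
    exact h1

end Step

end Pool.Agent.R570.PS
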