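import Mathlib
import Pool.Agent.R570.PS.Dual

set_option autoImplicit false

/-!
The induction for maximal totally singular subspaces, conclusion.
-/

namespace Pool.Agent.R570.PS

open Module

variable {F V : Type} [Field F] [AddCommGroup V] [Module F V]
variable {σ : F →+* F} {ε : F} {B : V →ₛₗ[σ] V →ₗ[F] F} {Sg : V → Prop}
  {G : Subgroup (V ≃ₗ[F] V)}

theorem all_eq {M0 : XX B Sg} (h0 : M0.1 = ⊥) (M : XX B Sg) : M = M0 := by
  apply Subtype.ext
  rw [h0, eq_bot_iff]
  intro v hv
  have h1 : v ∈ M0.1 := M0.2.2 v (M.2.1.1 v hv) fun m hm => by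
    rw [h0, Submodule.mem_bot] at hm
    rw [hm, map_zero, LinearMap.zero_apply]
  rwa [h0] at h1

theorem base [Finite V] (p : ℕ) [Fact p.Prime] {M0 : XX B Sg} (h0 : M0.1 = ⊥) (ω : XX B Sg → ℕ)
    (θ : ℕ) (g : Finset (XX B Sg) → Bool) (hvan : Van p ω θ g)
    (hθ : θ ≤ ∑ M ∈ opp M0, ω M) : g ∅ = g Finset.univ := by
  have hall := all_eq h0
  have hu : (Finset.univ : Finset (XX B Sg)) = {M0} := by
    ext M
    simp [hall M]
  have ho : opp M0 = {M0} := by
    ext M
    rw [mem_opp, Finset.mem_singleton]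
    refine ⟨fun _ => hall M, fun _ => by rw [h0, inf_bot_eq]⟩
  rw [ho] at hθ
  have h1 := hvan ∅ {M0} (Finset.disjoint_empty_left _) hθ
  rw [show ({M0} : Finset (XX B Sg)) = insert M0 ∅ from rfl,
    Finset.sum_powerset_insert (Finset.notMem_empty M0)] at h1
  simp only [Finset.powerset_empty, Finset.sum_singleton, Finset.card_empty, pow_zero, one_mul,
    Finset.union_empty, Finset.card_insert_of_notMem (Finset.notMem_empty M0), zero_add, pow_one,
    Finset.empty_union] at h1
  rw [hu]
  have h2 : (insert M0 ∅ : Finset (XX B Sg)) = {M0} := rfl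
  rw [h2] at h1
  have : Nontrivial (ZMod p) := inferInstance
  cases ha : g ∅ <;> cases hb : g {M0} <;> rw [ha, hb] at h1 <;> simp at h1 ⊢

theorem dual_ind (p : ℕ) [Fact p.Prime] [CharP F p] (n : ℕ) :
    ∀ (V : Type) [AddCommGroup V] [Module F V] [Finite V] (B : V →ₛₗ[σ] V →ₗ[F] F)
      (Sg : V → Prop) (G : Subgroup (V ≃ₗ[F] V)), Pol σ ε B Sg G → finrank F V ≤ n →
      ∀ (ω : XX B Sg → ℕ) (θ : ℕ) (g : Finset (XX B Sg) → Bool),
      (∀ S S', S ⊆ S' → g S = true → g S' = true) → InvG G g → Van p ω θ g →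
      (∀ M0 : XX B Sg, θ ≤ ∑ M ∈ opp M0, ω M) → g ∅ = g Finset.univ := by
  induction n with
  | zero =>
    intro V _ _ _ B Sg G hP hn ω θ g hmono hinv hvan hθ
    obtain ⟨M0, hM0⟩ := exists_pm hP
    have h0 : M0 = ⊥ := by
      have : FiniteDimensional F V := Module.Finite.of_finite
      have h1 : finrank F M0 ≤ finrank F V := Submodule.finrank_le M0
      exact Submodule.finrank_eq_zero.1 (by omega)
    exact base p (M0 := ⟨M0, hM0⟩) h0 ω θ g hvan (hθ _)
  | succ n ih =>
    intro V _ _ _ B Sg G hP hn ω θ g hmono hinv hvan hθ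
    have : FiniteDimensional F V := Module.Finite.of_finite
    obtain ⟨M0, hM0⟩ := exists_pm hP
    by_cases h0 : M0 = ⊥
    · exact base p (M0 := ⟨M0, hM0⟩) h0 ω θ g hvan (hθ _)
    obtain ⟨u, hu, hu0⟩ := Submodule.exists_mem_ne_zero_of_ne_bot h0
    have hsu : Sg u := hM0.1.1 u hu
    obtain ⟨w, hsw, huw⟩ := exists_opp hP hu0 hsu
    have hw0 : w ≠ 0 := by
      rintro rfl
      rw [map_zero] at huw
      exact zero_ne_one huw
    obtain ⟨u', hsu', hwu'⟩ := exists_opp hP hw0 hsw
    have H : Hyp σ ε B Sg G u w := ⟨hP, hsu, hsw, huw⟩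
    have H' : Hyp σ ε B Sg G w u' := ⟨hP, hsw, hsu', hwu'⟩
    have hlt : ∀ (a b : V), B a b = 1 → finrank F (WW B a b) ≤ n := by
      intro a b hab
      have h1 : WW B a b ≠ ⊤ := by
        intro h1
        have h2 : b ∈ WW B a b := by rw [h1]; trivial
        have h3 : B a b = 0 := h2.1
        rw [hab] at h3
        exact one_ne_zero h3
      have h2 : finrank F (WW B a b) < finrank F V := Submodule.finrank_lt h1
      omega
    have s1 := step p H ω θ g hmono hinv hvan hθ (fun ω' g' hm' hi' hv' ht' =>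
      ih (WW B u w) (BW B u w) (fun x => Sg x.1) H.GW H.polW (hlt u w huw) ω' θ g' hm' hi' hv' ht')
    have s2 := step p H' ω θ g hmono hinv hvan hθ (fun ω' g' hm' hi' hv' ht' =>
      ih (WW B w u') (BW B w u') (fun x => Sg x.1) H'.GW H'.polW (hlt w u' hwu') ω' θ g' hm' hi'
        hv' ht')
    have hsub : inn B Sg u ⊆ out B Sg w := by
      intro M hM
      rw [mem_inn] at hM
      rw [mem_out]
      intro hw
      have := M.2.1.2 u hM w hw
      rw [huw] at this
      exact one_ne_zero this
    have e1 := s1.2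
    have e2 := s2.1
    cases ha : g Finset.univ with
    | false =>
      cases hb : g ∅ with
      | false => rfl
      | true =>
        have := hmono ∅ Finset.univ (Finset.subset_univ _) hb
        rw [ha] at this
        exact absurd this (by simp)
    | true =>
      rw [ha] at e1
      have := hmono _ _ hsub e1
      rw [e2] at this
      exact this

theorem dual_main [Finite F] [Finite V] (hP : Pol σ ε B Sg G) (f : (XX B Sg → Bool) → Bool)
    (hmono : Monotone f) (hne : ∃ x y, f x ≠ f y)
    (hinv : ∀ a ∈ G, ∀ x y : XX B Sg → Bool,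
      (∀ M N : XX B Sg, N.1 = M.1.map (a : V →ₗ[F] V) → x M = y N) → f x = f y)
    {d : ℕ} (hd : DepthLe d f) : ∃ M0 : XX B Sg, (opp M0).card ≤ d := by
  classical
  by_contra hcon
  push Not at hcon
  obtain ⟨p, hp⟩ := CharP.exists F
  have hpp : p.Prime := by
    rcases CharP.char_is_prime_or_zero F p with h | h
    · exact h
    · subst h
      have := CharP.charP_to_charZero F
      exact absurd (inferInstance : Finite F) (not_finite_iff_infinite.2 (CharZero.infinite F))
  have : Fact p.Prime := ⟨hpp⟩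
  have h1 := dual_ind (σ := σ) (ε := ε) p (finrank F V) V B Sg G hP le_rfl (fun _ => 1) (d + 1)
    (fun S => f (ind S)) (fun S S' h h' => by
      have h2 := hmono (ind_mono h)
      rw [h'] at h2
      exact top_le_iff.1 h2) ?_ (van_of_depth p hd (Nat.lt_succ_self d)) (fun M0 => by
      simp only [Finset.sum_const, smul_eq_mul, mul_one]
      exact hcon M0)
  · obtain ⟨x, y, hxy⟩ := hne
    have e0 : ∀ z : XX B Sg → Bool, ind ∅ ≤ z := fun z v => by simp [ind]
    have e1 : ∀ z : XX B Sg → Bool, z ≤ ind Finset.univ := fun z v => by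
      show z v ≤ ind Finset.univ v
      simp only [ind, Finset.mem_univ, decide_true]
      exact le_top
    have h2 : ∀ z, f z = f (ind ∅) := fun z =>
      le_antisymm (by rw [show f (ind ∅) = f (ind Finset.univ) from h1]; exact hmono (e1 z))
        (hmono (e0 z))
    exact hxy ((h2 x).trans (h2 y).symm)
  · intro a ha S S' hSS
    refine (hinv a ha (ind S) (ind S') fun M N hMN => ?_).symm
    simp only [ind]
    refine decide_eq_decide.2 ?_
    rw [hSS]
    constructor
    · intro hM
      exact ⟨M, hM, hMN⟩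
    · rintro ⟨M', hM', h2⟩
      have h3 : M = M' := Subtype.ext (map_inj_eq a (hMN.symm.trans h2))
      rw [h3]
      exact hM'

end Pool.Agent.R570.PS
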