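import Mathlib
import Pool.Agent.R570.PS.Abs

set_option autoImplicit false

/-!
Buildings of type I_2(n) (generalized n-gons) and monotone functions on chambers.
-/

namespace Pool.Agent.R570.PS

open Finset
open scoped Pointwise

/-- the two generators of the dihedral group -/
def gen (n : ℕ) (t : Bool) : DihedralGroup n := if t then DihedralGroup.sr 1 else DihedralGroup.sr 0

/-- the alternating product of `l` generators which starts with the generator `t` -/
def alt (n : ℕ) : Bool → ℕ → DihedralGroup n
  | _, 0 => 1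
  | t, l + 1 => gen n t * alt n (!t) l

theorem gen_mul (n : ℕ) (t : Bool) : gen n t * gen n t = 1 := by
  cases t <;> simp [gen]

theorem gen_inv (n : ℕ) (t : Bool) : (gen n t)⁻¹ = gen n t :=
  inv_eq_of_mul_eq_one_left (gen_mul n t)

theorem gen_alt (n : ℕ) (t : Bool) (l : ℕ) : gen n t * alt n t (l + 1) = alt n (!t) l := by
  show gen n t * (gen n t * alt n (!t) l) = _
  rw [← mul_assoc, gen_mul, one_mul]

/-- explicit form -/
theorem alt_even (n : ℕ) (k : ℕ) : alt n false (2 * k) = DihedralGroup.r (k : ZMod n) ∧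
    alt n true (2 * k) = DihedralGroup.r (-(k : ZMod n)) := by
  induction k with
  | zero =>
    refine ⟨?_, ?_⟩
    · show (1 : DihedralGroup n) = _
      rw [Nat.cast_zero]
      rfl
    · show (1 : DihedralGroup n) = _
      rw [Nat.cast_zero, neg_zero]
      rfl
  | succ k ih =>
    have e : 2 * (k + 1) = 2 * k + 1 + 1 := by ring
    rw [e]
    simp only [alt, Bool.not_false, Bool.not_true]
    rw [ih.1, ih.2]
    simp only [gen, if_true, DihedralGroup.sr_mul_r, DihedralGroup.sr_mul_sr, Bool.false_eq_true,
      if_false]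
    constructor
    · congr 1
      push_cast
      ring
    · congr 1
      push_cast
      ring

theorem alt_odd (n : ℕ) (k : ℕ) : alt n false (2 * k + 1) = DihedralGroup.sr (-(k : ZMod n)) ∧
    alt n true (2 * k + 1) = DihedralGroup.sr ((k : ZMod n) + 1) := by
  obtain ⟨h1, h2⟩ := alt_even n k
  simp only [alt, Bool.not_false, Bool.not_true]
  rw [h1, h2]
  simp only [gen, if_true, DihedralGroup.sr_mul_r, Bool.false_eq_true, if_false]
  constructor
  · congr 1
    ring
  · congr 1
    ring

theorem alt_n (n : ℕ) (t t' : Bool) : alt n t n = alt n t' n := by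
  have key : alt n false n = alt n true n := by
    rcases Nat.even_or_odd' n with ⟨k, hk | hk⟩
    · have h := alt_even n k
      have e : (2 * k : ℕ) = n := hk.symm
      rw [e] at h
      rw [h.1, h.2]
      congr 1
      have h0 : ((2 * k : ℕ) : ZMod n) = 0 := by rw [e]; exact ZMod.natCast_self n
      push_cast at h0
      linear_combination h0
    · have h := alt_odd n k
      have e : (2 * k + 1 : ℕ) = n := hk.symm
      rw [e] at h
      rw [h.1, h.2]
      congr 1
      have h0 : ((2 * k + 1 : ℕ) : ZMod n) = 0 := by rw [e]; exact ZMod.natCast_self n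
      push_cast at h0
      linear_combination -h0
  cases t <;> cases t' <;> first | rfl | exact key | exact key.symm

theorem exists_alt (n : ℕ) (hn : 0 < n) (w : DihedralGroup n) :
    ∃ (t : Bool) (l : ℕ), l ≤ n ∧ w = alt n t l := by
  have : NeZero n := ⟨hn.ne'⟩
  cases w with
  | r i =>
    obtain ⟨k, hk, rfl⟩ : ∃ k : ℕ, k < n ∧ (k : ZMod n) = i :=
      ⟨i.val, ZMod.val_lt i, ZMod.natCast_zmod_val i⟩
    by_cases h : 2 * k ≤ n
    · exact ⟨false, 2 * k, h, (alt_even n k).1.symm⟩
    · refine ⟨true, 2 * (n - k), by omega, ?_⟩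
      rw [(alt_even n (n - k)).2]
      congr 1
      rw [Nat.cast_sub hk.le]
      simp
  | sr i =>
    obtain ⟨k, hk, rfl⟩ : ∃ k : ℕ, k < n ∧ (k : ZMod n) + 1 = i :=
      ⟨(i - 1).val, ZMod.val_lt _, by rw [ZMod.natCast_zmod_val]; ring⟩
    by_cases h : 2 * k + 1 ≤ n
    · exact ⟨true, 2 * k + 1, h, (alt_odd n k).2.symm⟩
    · refine ⟨false, 2 * (n - 1 - k) + 1, by omega, ?_⟩
      rw [(alt_odd n (n - 1 - k)).1]
      congr 1
      have e : n - 1 - k = n - (1 + k) := by omega
      rw [e, Nat.cast_sub (by omega)]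
      push_cast
      simp
      ring

/-- A building of type `I_2(n)` (its chambers are the flags of a generalized `n`-gon), given by its
set `C` of chambers and the Weyl distance `δ` with values in the dihedral group `W` of order `2 n`
with its standard generators `gen n false`, `gen n true`; these are the usual axioms. -/
structure Building (n : ℕ) (C : Type) where
  /-- the Weyl distance -/
  δ : C → C → DihedralGroup n
  /-- `δ (x, y) = 1` if and only if `x = y` -/
  eq_one : ∀ x y, δ x y = 1 ↔ x = y
  /-- `δ (y, x)` is the inverse of `δ (x, y)` -/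
  symm : ∀ x y, δ y x = (δ x y)⁻¹
  /-- if `δ (x', x) = s` is a generator, then `δ (x', y)` is `w` or `s w`, `w = δ (x, y)` -/
  two : ∀ (t : Bool) (x' x y : C), δ x' x = gen n t → δ x' y = δ x y ∨ δ x' y = gen n t * δ x y
  /-- it is `s w` if `s w` is longer than `w`, that is, if `w` is the alternating product of less
  than `n` generators starting with the other generator -/
  up : ∀ (t : Bool) (x' x y : C) (l : ℕ), l < n → δ x' x = gen n t → δ x y = alt n (!t) l →
    δ x' y = alt n t (l + 1)
  /-- for all `x`, `y` and `s` there is `x'` with `δ (x', x) = s` and `δ (x', y) = s w` -/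
  ex : ∀ (t : Bool) (x y : C), ∃ x', δ x' x = gen n t ∧ δ x' y = gen n t * δ x y

section

variable {n : ℕ} {C : Type}

/-- the chambers opposite to `c` -/
def Building.Opp (Δ : Building n C) (c : C) : Set C := {x | Δ.δ c x = alt n true n}

/-- the set of chambers whose position with respect to `c` is in `E` -/
noncomputable def Building.cell [Fintype C] (Δ : Building n C) (c : C)
    (E : Set (DihedralGroup n)) : Finset C := by
  classical exact Finset.univ.filter (fun x => Δ.δ c x ∈ E)

theorem Building.mem_cell [Fintype C] (Δ : Building n C) (c : C) (E : Set (DihedralGroup n))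
    (x : C) : x ∈ Δ.cell c E ↔ Δ.δ c x ∈ E := by
  classical
  simp [Building.cell]

variable [Fintype C] [DecidableEq C] {G : Type} [Group G] [Finite G] [MulAction G C]

/-- removal of the opposite chambers -/
theorem Building.rem (Δ : Building n C) (hG : ∀ (g : G) (x y : C), Δ.δ (g • x) (g • y) = Δ.δ x y)
    (p : ℕ) [Fact p.Prime] (U : C → Subgroup G) (hU : ∀ c, IsPGroup p (U c))
    (hfix : ∀ c, ∀ u ∈ U c, u • c = c)
    (htr : ∀ c x y, x ∈ Δ.Opp c → y ∈ Δ.Opp c → ∃ u ∈ U c, u • x = y)
    (f : (C → Bool) → Bool) (hmono : Monotone f)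
    (hinv : ∀ (g : G) (x : C → Bool), f (fun v => x (g • v)) = f x)
    {d : ℕ} (hd : DepthLe d f) (hbig : ∀ c : C, d < Nat.card (Δ.Opp c)) (c : C)
    (E E' : Set (DihedralGroup n)) (c' : C) (hE : alt n true n ∉ E)
    (hsub : ∀ x, Δ.δ c' x ∈ E' → Δ.δ c x ∈ E ∨ x ∈ Δ.Opp c)
    (h : f (ind (Δ.cell c' E')) = true) : f (ind (Δ.cell c E)) = true := by
  classical
  set O : Finset C := Δ.cell c {alt n true n} with hO
  have hmO : ∀ x, x ∈ O ↔ x ∈ Δ.Opp c := fun x => by
    rw [hO, Δ.mem_cell]; exact Iff.rfl
  have hinvE : ∀ E'' : Set (DihedralGroup n), Inv (U c) (Δ.cell c E'') := by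
    intro E'' u x hx
    rw [Δ.mem_cell] at hx ⊢
    have h1 : Δ.δ c (u • x) = Δ.δ c x := by
      have h2 := hG u.1 c x
      rw [hfix c u.1 u.2] at h2
      exact h2
    rw [h1]
    exact hx
  have hcard : O.card = Nat.card (Δ.Opp c) := by
    rw [← Nat.card_eq_finsetCard]
    exact Nat.card_congr (Equiv.subtypeEquivRight hmO)
  have h1 := rv p (hU c) hd (P := U c) (fun g S => ind_smul hinv g.1 S) (Δ.cell c E) O (by
      rw [Finset.disjoint_left]
      intro x hx hx'
      rw [Δ.mem_cell] at hx
      rw [hmO] at hx'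
      have h2 : Δ.δ c x = alt n true n := hx'
      rw [h2] at hx
      exact hE hx) (by rw [hcard]; exact hbig c) (hinvE E) (hinvE _) (by
      intro S hS hne hSi
      obtain ⟨x0, hx0⟩ := hne
      refine Finset.Subset.antisymm hS fun y hy => ?_
      obtain ⟨u, hu, hux⟩ := htr c x0 y ((hmO _).1 (hS hx0)) ((hmO _).1 hy)
      have := hSi ⟨u, hu⟩ x0 hx0
      rw [← hux]
      exact this)
  rw [← h1]
  have h2 : ind (Δ.cell c' E') ≤ ind (Δ.cell c E ∪ O) := by
    refine ind_mono fun x hx => ?_
    rw [Δ.mem_cell] at hx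
    rw [Finset.mem_union, Δ.mem_cell, hmO]
    exact hsub x hx
  have h3 := hmono h2
  rw [h] at h3
  exact top_le_iff.1 h3

/-- the sets of the first phase -/
def SS (n : ℕ) (t : Bool) (m : ℕ) : Set (DihedralGroup n) :=
  {w | w ≠ alt n true n ∧ ((∃ l, 1 ≤ l ∧ l ≤ n ∧ w = alt n t l) ∨ ∃ l, l < m ∧ w = alt n (!t) l)}

/-- the sets of the second phase -/
def RR (n : ℕ) (t : Bool) (k : ℕ) : Set (DihedralGroup n) :=
  {w | w ≠ alt n true n ∧ ∃ l, k ≤ l ∧ l ≤ n ∧ w = alt n t l}

theorem Building.gon (Δ : Building n C) (hn : 0 < n)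
    (hG : ∀ (g : G) (x y : C), Δ.δ (g • x) (g • y) = Δ.δ x y)
    (p : ℕ) [Fact p.Prime] (U : C → Subgroup G) (hU : ∀ c, IsPGroup p (U c))
    (hfix : ∀ c, ∀ u ∈ U c, u • c = c)
    (htr : ∀ c x y, x ∈ Δ.Opp c → y ∈ Δ.Opp c → ∃ u ∈ U c, u • x = y)
    (f : (C → Bool) → Bool) (hmono : Monotone f) (hne : ∃ x y, f x ≠ f y)
    (hinv : ∀ (g : G) (x : C → Bool), f (fun v => x (g • v)) = f x)
    {d : ℕ} (hd : DepthLe d f) : ∃ c, Nat.card (Δ.Opp c) ≤ d := by
  classical
  by_contra hcon
  push Not at hcon
  obtain ⟨x0, y0, hxy⟩ := hne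
  have hC : Nonempty C := by
    by_contra hC
    rw [not_nonempty_iff] at hC
    exact hxy (congrArg f (funext fun a => (hC.false a).elim))
  obtain ⟨c0⟩ := hC
  have hbot : f (fun _ => false) = false := by
    by_contra h
    have h0 : f (fun _ => false) = true := by simpa using h
    have h2 : ∀ z, f z = true := by
      intro z
      have h3 : f (fun _ => false) ≤ f z := hmono (fun e => by simp)
      rw [h0] at h3
      exact top_le_iff.1 h3
    exact hxy ((h2 x0).trans (h2 y0).symm)
  have htop : f (fun _ => true) = true := by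
    by_contra h
    have h0 : f (fun _ => true) = false := by simpa using h
    have h2 : ∀ z, f z = false := by
      intro z
      have h3 : f z ≤ f (fun _ => true) := hmono (fun e => by
        show z e ≤ true
        exact le_top)
      rw [h0] at h3
      exact le_bot_iff.1 h3
    exact hxy ((h2 x0).trans (h2 y0).symm)
  have REM := fun c E E' c' => Δ.rem hG p U hU hfix htr f hmono hinv hd hcon c E E' c'
  have hadj : ∀ (t : Bool) (c : C), ∃ c', Δ.δ c' c = gen n t := fun t c => by
    obtain ⟨c', h1, _⟩ := Δ.ex t c c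
    exact ⟨c', h1⟩
  -- move from `c` to `c'`
  have mv : ∀ (t : Bool) (c c' x : C) (l : ℕ), 1 ≤ l → Δ.δ c' c = gen n t → Δ.δ c x = alt n t l →
      Δ.δ c' x = alt n t l ∨ Δ.δ c' x = alt n (!t) (l - 1) := by
    intro t c c' x l hl hc hx
    obtain ⟨k, rfl⟩ : ∃ k, l = k + 1 := ⟨l - 1, by omega⟩
    rcases Δ.two t c' c x hc with h | h
    · left; rw [h, hx]
    · right
      rw [h, hx, gen_alt]
      rfl
  -- phase 1
  have ph1 : ∀ m : ℕ, m ≤ n → ∃ (t : Bool) (c : C), f (ind (Δ.cell c (SS n t (n - m)))) = true := by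
    intro m
    induction m with
    | zero =>
      intro _
      refine ⟨true, c0, REM c0 (SS n true (n - 0)) Set.univ c0 (fun h => h.1 rfl) ?_ ?_⟩
      · intro x _
        by_cases hx : Δ.δ c0 x = alt n true n
        · exact Or.inr hx
        · left
          refine ⟨hx, ?_⟩
          obtain ⟨t, l, hl, hw⟩ := exists_alt n hn (Δ.δ c0 x)
          rw [hw] at hx ⊢
          cases t with
          | true =>
            rcases Nat.eq_zero_or_pos l with h0 | h0
            · right
              refine ⟨0, by omega, ?_⟩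
              rw [h0]
              rfl
            · left
              exact ⟨l, h0, hl, rfl⟩
          | false =>
            right
            refine ⟨l, ?_, rfl⟩
            rcases lt_or_eq_of_le hl with h1 | h1
            · omega
            · exfalso
              apply hx
              rw [h1]
              exact alt_n n false true
      · have : ind (Δ.cell c0 Set.univ) = fun _ => true := by
          funext x
          simp [ind, Δ.mem_cell]
        rw [this]
        exact htop
    | succ m ih =>
      intro hm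
      obtain ⟨t, c, hf⟩ := ih (by omega)
      obtain ⟨c', hc'⟩ := hadj (!t) c
      refine ⟨!t, c', REM c' (SS n (!t) (n - (m + 1))) (SS n t (n - m)) c (fun h => h.1 rfl) ?_ hf⟩
      rintro x ⟨hx0, hx⟩
      by_cases hx' : Δ.δ c' x = alt n true n
      · exact Or.inr hx'
      left
      refine ⟨hx', ?_⟩
      rw [Bool.not_not]
      rcases hx with ⟨l, hl1, hln, hl⟩ | ⟨l, hlm, hl⟩
      · left
        have hlt : l < n := by
          rcases lt_or_eq_of_le hln with h1 | h1
          · exact h1
          · exfalso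
            apply hx0
            rw [hl, h1]
            exact alt_n n t true
        refine ⟨l + 1, by omega, by omega, ?_⟩
        exact Δ.up (!t) c' c x l hlt hc' (by rw [Bool.not_not]; exact hl)
      · rcases Nat.eq_zero_or_pos l with h0 | h0
        · left
          subst h0
          refine ⟨1, le_rfl, by omega, ?_⟩
          exact Δ.up (!t) c' c x 0 hn hc' hl
        · rcases mv (!t) c c' x l h0 hc' hl with h1 | h1
          · left
            exact ⟨l, h0, by omega, h1⟩
          · right
            rw [Bool.not_not] at h1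
            exact ⟨l - 1, by omega, h1⟩
  -- phase 2
  have ph2 : ∀ k : ℕ, ∃ (t : Bool) (c : C), f (ind (Δ.cell c (RR n t (k + 1)))) = true := by
    intro k
    induction k with
    | zero =>
      obtain ⟨t, c, hf⟩ := ph1 n le_rfl
      refine ⟨t, c, ?_⟩
      rw [← hf]
      congr 2
      ext x
      rw [Δ.mem_cell, Δ.mem_cell]
      constructor
      · rintro ⟨h1, l, h2, h3, h4⟩
        exact ⟨h1, Or.inl ⟨l, h2, h3, h4⟩⟩
      · rintro ⟨h1, ⟨l, h2, h3, h4⟩ | ⟨l, h2, h3⟩⟩
        · exact ⟨h1, l, h2, h3, h4⟩
        · omega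
    | succ k ih =>
      obtain ⟨t, c, hf⟩ := ih
      obtain ⟨c', hc'⟩ := hadj (!t) c
      refine ⟨!t, c', REM c' (RR n (!t) (k + 1 + 1)) (RR n t (k + 1)) c (fun h => h.1 rfl) ?_ hf⟩
      rintro x ⟨hx0, l, hl1, hln, hl⟩
      by_cases hx' : Δ.δ c' x = alt n true n
      · exact Or.inr hx'
      left
      have hlt : l < n := by
        rcases lt_or_eq_of_le hln with h1 | h1
        · exact h1
        · exfalso
          apply hx0
          rw [hl, h1]
          exact alt_n n t true
      refine ⟨hx', l + 1, by omega, by omega, ?_⟩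
      exact Δ.up (!t) c' c x l hlt hc' (by rw [Bool.not_not]; exact hl)
  obtain ⟨t, c, hf⟩ := ph2 n
  have : ind (Δ.cell c (RR n t (n + 1))) = fun _ => false := by
    funext x
    simp only [ind, decide_eq_false_iff_not]
    rw [Δ.mem_cell]
    rintro ⟨_, l, h1, h2, _⟩
    omega
  rw [this, hbot] at hf
  exact absurd hf (by decide)

end

end Pool.Agent.R570.PS
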