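import Mathlib
import Pool.Agent.R570.PS.Gon

set_option autoImplicit false

/-!
Counting chambers of a thick generalized polygon.
-/

namespace Pool.Agent.R570.PS

/-- the last letter of `alt n t (l + 1)` -/
def lst (t : Bool) (l : ℕ) : Bool := if l % 2 = 0 then t else !t

theorem lst_succ (t : Bool) (l : ℕ) : lst t (l + 1) = lst (!t) l := by
  unfold lst
  rcases Nat.mod_two_eq_zero_or_one l with h | h
  · have h' : (l + 1) % 2 = 1 := by omega
    simp [h, h']
  · have h' : (l + 1) % 2 = 0 := by omega
    simp [h, h']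

theorem lst_not (t : Bool) (l : ℕ) : lst (!t) l = !(lst t l) := by
  unfold lst
  split_ifs <;> simp

theorem alt_right (n : ℕ) (l : ℕ) : ∀ t, alt n t (l + 1) = alt n t l * gen n (lst t l) := by
  induction l with
  | zero =>
    intro t
    simp [alt, lst]
  | succ l ih =>
    intro t
    show gen n t * alt n (!t) (l + 1) = gen n t * alt n (!t) l * gen n (lst t (l + 1))
    rw [ih (!t), lst_succ, mul_assoc]

theorem alt_inv (n : ℕ) (l : ℕ) : ∀ t, (alt n t l)⁻¹ = alt n (!(lst t l)) l := by
  induction l with
  | zero =>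
    intro t
    simp [alt]
  | succ l ih =>
    intro t
    rw [alt_right, mul_inv_rev, gen_inv, ih t, lst_succ, lst_not, Bool.not_not]
    rfl

/-- thick: every panel has at least three chambers -/
def Building.Thick {n : ℕ} {C : Type} (Δ : Building n C) : Prop :=
  ∀ (t : Bool) (x : C), ∃ y z, y ≠ z ∧ Δ.δ y x = gen n t ∧ Δ.δ z x = gen n t

/-- chambers at position `w` -/
def Building.At {n : ℕ} {C : Type} (Δ : Building n C) (c : C) (w : DihedralGroup n) : Type :=
  {x : C // Δ.δ c x = w}

instance {n : ℕ} {C : Type} [Finite C] (Δ : Building n C) (c : C) (w : DihedralGroup n) :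
    Finite (Δ.At c w) := by unfold Building.At; infer_instance

variable {n : ℕ} {C : Type}

/-- the right version of `up` -/
theorem Building.upR (Δ : Building n C) {c x y : C} {t : Bool} {l : ℕ} (hl : l < n)
    (hx : Δ.δ c x = alt n t l) (hy : Δ.δ y x = gen n (lst t l)) : Δ.δ c y = alt n t (l + 1) := by
  have h1 : Δ.δ x c = alt n (!(lst t l)) l := by
    rw [Δ.symm c x, hx, alt_inv]
  have h2 := Δ.up (lst t l) y x c l hl hy h1
  rw [Δ.symm y c, h2, alt_inv]
  congr 1
  have : lst (lst t l) (l + 1) = !t := by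
    unfold lst
    rcases Nat.mod_two_eq_zero_or_one l with h | h
    · have h' : (l + 1) % 2 = 1 := by omega
      simp [h, h']
    · have h' : (l + 1) % 2 = 0 := by omega
      simp [h, h']
  rw [this, Bool.not_not]

theorem Building.gen_ne (Δ : Building n C) (hn : 2 ≤ n) (t : Bool) : gen n t ≠ 1 := by
  cases t <;> · intro h; cases h

theorem alt_ne (n : ℕ) (l : ℕ) (t : Bool) : alt n t l ≠ alt n t (l + 1) := by
  rw [alt_right]
  intro h
  have h1 : gen n (lst t l) = 1 := by
    have h2 : alt n t l * 1 = alt n t l * gen n (lst t l) := by rw [mul_one]; exact h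
    exact (mul_left_cancel h2).symm
  generalize lst t l = s at h1
  cases s <;> cases h1

theorem Building.double [Finite C] (Δ : Building n C) (hth : Δ.Thick) (c : C) (t : Bool) (l : ℕ)
    (hl : l < n) : 2 * Nat.card (Δ.At c (alt n t l)) ≤ Nat.card (Δ.At c (alt n t (l + 1))) := by
  have hyz : ∀ x : Δ.At c (alt n t l), ∃ y z : Δ.At c (alt n t (l + 1)), y ≠ z ∧
      Δ.δ y.1 x.1 = gen n (lst t l) ∧ Δ.δ z.1 x.1 = gen n (lst t l) := by
    intro x
    obtain ⟨y, z, hne, hy, hz⟩ := hth (lst t l) x.1
    exact ⟨⟨y, Δ.upR hl x.2 hy⟩, ⟨z, Δ.upR hl x.2 hz⟩, fun h => hne (congrArg Subtype.val h),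
      hy, hz⟩
  choose y z hne hy hz using hyz
  have e : Nat.card (Bool × Δ.At c (alt n t l)) = 2 * Nat.card (Δ.At c (alt n t l)) := by
    rw [Nat.card_prod]; simp
  rw [← e]
  let φ : Bool × Δ.At c (alt n t l) → Δ.At c (alt n t (l + 1)) :=
    fun q => if q.1 = true then y q.2 else z q.2
  have hφ : ∀ q, Δ.δ (φ q).1 q.2.1 = gen n (lst t l) := by
    rintro ⟨b, x⟩
    cases b
    · exact hz x
    · exact hy x
  refine Nat.card_le_card_of_injective φ ?_
  rintro ⟨b, x⟩ ⟨b', x'⟩ hq
  have h1 := hφ (b, x)
  have h2 := hφ (b', x')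
  rw [← hq] at h2
  have hxx : x = x' := by
    by_contra hxx
    have hne' : x.1 ≠ x'.1 := fun h => hxx (Subtype.ext h)
    -- `x`, `x'` are in one panel
    have h3 : Δ.δ x.1 (φ (b, x)).1 = gen n (lst t l) := by
      rw [Δ.symm (φ (b, x)).1 x.1, h1, gen_inv]
    rcases Δ.two (lst t l) x.1 (φ (b, x)).1 x'.1 h3 with h4 | h4
    · rw [h2] at h4
      have h5 := Δ.upR hl x'.2 h4
      have h6 : alt n t l = alt n t (l + 1) := by rw [← x.2]; exact h5
      exact alt_ne n l t h6
    · rw [h2, gen_mul] at h4
      exact hne' ((Δ.eq_one _ _).1 h4)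
  subst hxx
  cases b <;> cases b'
  · rfl
  · exact absurd hq.symm (hne x)
  · exact absurd hq (hne x)
  · rfl

theorem Building.sum_le [Finite C] (Δ : Building n C) (hth : Δ.Thick) (c : C) (t : Bool) (k : ℕ)
    (hk : k ≤ n) : ∑ l ∈ Finset.range k, Nat.card (Δ.At c (alt n t l)) ≤
      Nat.card (Δ.At c (alt n t k)) := by
  induction k with
  | zero => simp
  | succ k ih =>
    rw [Finset.sum_range_succ]
    have h1 := ih (by omega)
    have h2 := Δ.double hth c t k (by omega)
    omega

theorem Building.card_le [Finite C] (Δ : Building n C) (hn : 0 < n) (hth : Δ.Thick) (c : C) :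
    Nat.card C ≤ 3 * Nat.card (Δ.At c (alt n true n)) := by
  classical
  have : Fintype C := Fintype.ofFinite C
  have hA : ∀ w, Nat.card (Δ.At c w) = (Finset.univ.filter (fun x => Δ.δ c x = w)).card := by
    intro w
    rw [← Nat.card_eq_finsetCard]
    exact Nat.card_congr (Equiv.subtypeEquivRight fun x => by simp)
  have hcov : (Finset.univ : Finset C) ⊆
      (Finset.range n).biUnion (fun l => Finset.univ.filter (fun x => Δ.δ c x = alt n true l)) ∪
      (Finset.range n).biUnion (fun l => Finset.univ.filter (fun x => Δ.δ c x = alt n false l)) ∪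
      Finset.univ.filter (fun x => Δ.δ c x = alt n true n) := by
    intro x _
    obtain ⟨t, l, hl, hw⟩ := exists_alt n hn (Δ.δ c x)
    rw [Finset.mem_union, Finset.mem_union, Finset.mem_biUnion, Finset.mem_biUnion,
      Finset.mem_filter]
    rcases lt_or_eq_of_le hl with h1 | h1
    · left
      cases t with
      | true => exact Or.inl ⟨l, Finset.mem_range.2 h1, by simp [hw]⟩
      | false => exact Or.inr ⟨l, Finset.mem_range.2 h1, by simp [hw]⟩
    · right
      refine ⟨Finset.mem_univ _, ?_⟩
      rw [hw, h1]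
      exact alt_n n t true
  have h1 := Finset.card_le_card hcov
  have h2 := (Finset.card_union_le ((Finset.range n).biUnion
    (fun l => Finset.univ.filter (fun x => Δ.δ c x = alt n true l)) ∪
      (Finset.range n).biUnion (fun l => Finset.univ.filter (fun x => Δ.δ c x = alt n false l)))
      (Finset.univ.filter (fun x => Δ.δ c x = alt n true n)))
  have h3 := Finset.card_union_le ((Finset.range n).biUnion
    (fun l => Finset.univ.filter (fun x => Δ.δ c x = alt n true l)))
      ((Finset.range n).biUnion (fun l => Finset.univ.filter (fun x => Δ.δ c x = alt n false l)))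
  have h4 : ((Finset.range n).biUnion
      (fun l => Finset.univ.filter (fun x => Δ.δ c x = alt n true l))).card ≤
      ∑ l ∈ Finset.range n, Nat.card (Δ.At c (alt n true l)) := by
    refine Finset.card_biUnion_le.trans (Finset.sum_le_sum fun l _ => ?_)
    rw [hA]
  have h5 : ((Finset.range n).biUnion
      (fun l => Finset.univ.filter (fun x => Δ.δ c x = alt n false l))).card ≤
      ∑ l ∈ Finset.range n, Nat.card (Δ.At c (alt n false l)) := by
    refine Finset.card_biUnion_le.trans (Finset.sum_le_sum fun l _ => ?_)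
    rw [hA]
  have h6 := Δ.sum_le hth c true n le_rfl
  have h7 := Δ.sum_le hth c false n le_rfl
  rw [alt_n n false true] at h7
  have h8 := hA (alt n true n)
  rw [Nat.card_eq_fintype_card, ← Finset.card_univ]
  omega

end Pool.Agent.R570.PS
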