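import Mathlib
import Pool.Agent.R570.PS.GonC

set_option autoImplicit false

/-!
# Weak evasiveness for monotone functions on the flags of Moufang polygons (MP_d4e2f9_lc)

Let `C` be the set of the flags (chambers) of a finite thick generalized polygon, that is, of a
building of rank two, and `G` a group of automorphisms such that for every chamber `c` some
`p`-subgroup of the stabilizer of `c` is transitive on the chambers opposite to `c` (`p` a fixed
prime). This holds for all finite Moufang polygons and their little projective groups, that is, for
the rank two groups of Lie type `A_2(q)`, `B_2(q)`, `²A_3(q)`, `²A_4(q)`, `G_2(q)`, `³D_4(q)`,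
`²F_4(q)` acting on the cosets of a Borel subgroup. Then every non-constant monotone `G`-invariant
Boolean function of variables indexed by `C` has decision tree complexity at least the number of
chambers opposite to a chamber, and at least `|C| / 3`.

Proof. If the depth of a decision tree is less than the number of the chambers opposite to `c`, then
it does not distinguish `Y` and `Y ∪ Opp(c)` if `Y` is a union of sets of chambers in given positions
with respect to `c` which are not opposite (Rivest, Vuillemin). Let `a(t, l)` be the position given
by the alternating word of length `l` starting with `t`. Starting from all chambers one removes the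
chambers opposite to `c`, moves to a neighbour of `c`, and so on: the set of the chambers at the
positions `a(t, l)`, `1 ≤ l < n`, and `a(t', l)`, `0 ≤ l < m`, with respect to `c` is contained in the
union of `Opp(c')` and the similar set for `c'` with `t`, `t'` interchanged and `m - 1` instead of `m`,
for `c'` adjacent to `c` by `t'`. For `m = 0` one continues with the positions `a(t, l)`, `k ≤ l < n`,
and arrives at the empty set.
-/

namespace Pool.Agent.R570.PS.MoufangPolygons

open R570.PS

/-- `f` is computed by a decision tree of depth at most `d`, in the words of the frozen statement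
of the problem: every predicate closed under the formation of decision trees holds for it. -/
def DepthLe {X : Type} [DecidableEq X] (d : ℕ) (f : (X → Bool) → Bool) : Prop :=
  ∀ P : ℕ → ((X → Bool) → Bool) → Prop,
    (∀ (m : ℕ) (g : (X → Bool) → Bool), (∀ x y, g x = g y) → P m g) →
    (∀ (m : ℕ) (g : (X → Bool) → Bool) (i : X),
       P m (fun x => g (Function.update x i false)) →
       P m (fun x => g (Function.update x i true)) → P (m + 1) g) →
    P d f

/-- **Weak evasiveness for functions on the flags of generalized polygons.** `Δ` is a finite
building of type `I_2(n)`, `n ≥ 2`, with set of chambers `C`, and `G` acts on `C` preserving the Weyl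
distance; for every chamber `c` the `p`-subgroup `U c` of `G` fixes `c` and is transitive on the
chambers opposite to `c` (at Weyl distance the longest element, the alternating product of `n`
generators). A non-constant monotone `G`-invariant function `f` of Boolean variables indexed by `C`
which is computed by a decision tree of depth at most `d` has `d ≥ |Opp(c)|` for some `c` and, if `Δ`
is thick (for every chamber there are two others in each of its panels), `3 d ≥ |C|`. -/
theorem result (n : ℕ) (hn : 2 ≤ n) {C : Type} [Finite C] [DecidableEq C] (Δ : Building n C)
    {G : Type} [Group G] [Finite G] [MulAction G C]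
    (hG : ∀ (g : G) (x y : C), Δ.δ (g • x) (g • y) = Δ.δ x y) (p : ℕ) (hp : p.Prime)
    (U : C → Subgroup G) (hU : ∀ c, IsPGroup p (U c)) (hfix : ∀ c, ∀ u ∈ U c, u • c = c)
    (htr : ∀ c x y, Δ.δ c x = alt n true n → Δ.δ c y = alt n true n → ∃ u ∈ U c, u • x = y)
    (f : (C → Bool) → Bool) (hmono : Monotone f) (hne : ∃ x y, f x ≠ f y)
    (hinv : ∀ (g : G) (x : C → Bool), f (fun v => x (g • v)) = f x) (d : ℕ) (hd : DepthLe d f) :
    (∃ c, Nat.card {x : C // Δ.δ c x = alt n true n} ≤ d) ∧
    ((∀ (t : Bool) (x : C), ∃ y z, y ≠ z ∧ Δ.δ y x = gen n t ∧ Δ.δ z x = gen n t) →
      Nat.card C ≤ 3 * d) := by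
  have : Fintype C := Fintype.ofFinite C
  have : Fact p.Prime := ⟨hp⟩
  obtain ⟨c, hc⟩ := Δ.gon (by omega) hG p U hU hfix htr f hmono hne hinv hd
  refine ⟨⟨c, hc⟩, fun hth => ?_⟩
  exact (Δ.card_le (by omega) hth c).trans (Nat.mul_le_mul_left 3 hc)

end Pool.Agent.R570.PS.MoufangPolygons
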