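import Mathlib
import Pool.Agent.R570.PS.DInd

set_option autoImplicit false

/-!
Most maximal totally singular subspaces are opposite to a given one.
-/

namespace Pool.Agent.R570.PS

open Module

variable {F V : Type} [Field F] [AddCommGroup V] [Module F V]
variable {σ : F →+* F} {ε : F} {B : V →ₛₗ[σ] V →ₗ[F] F} {Sg : V → Prop}
  {G : Subgroup (V ≃ₗ[F] V)}

theorem card_ch [Finite V] (hP : Pol σ ε B Sg G) {M : Submodule F V} (hM : PM B Sg M) {x : V}
    (hx : Sg x) : Nat.card (ch B x M) = Nat.card M := by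
  by_cases hxM : x ∈ M
  · have h1 : ch B x M = M := by
      refine (pm_eq hM (exch hP hM hx) ?_).symm
      intro m hm
      exact mem_ch.2 ⟨m, hm, hM.1.2 x hxM m hm, 0, by simp⟩
    rw [h1]
  have h1 : ∃ m ∈ M, B x m = 1 := by
    have h2 : ∃ m ∈ M, B m x ≠ 0 := by
      by_contra hcon
      push Not at hcon
      exact hxM (hM.2 x hx hcon)
    obtain ⟨m, hm, hne⟩ := h2
    have h3 : B x m ≠ 0 := by
      intro h0
      apply hne
      rw [hP.herm x m, h0, map_zero, mul_zero]
    exact ⟨(B x m)⁻¹ • m, M.smul_mem _ hm, by rw [map_smul, smul_eq_mul, inv_mul_cancel₀ h3]⟩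
  obtain ⟨m0, hm0, hxm⟩ := h1
  have hmx : B m0 x = ε := by rw [hP.herm x m0, hxm, map_one, mul_one]
  have hxx : B x x = 0 := hP.iso x hx
  apply le_antisymm
  · refine Nat.card_le_card_of_injective (fun v : ch B x M =>
      (⟨v.1 - (σ ε * B m0 v.1) • x + (σ ε * B m0 v.1) • m0, ?_⟩ : M)) ?_
    · obtain ⟨m, hm, h0, a, hv⟩ := mem_ch.1 v.2
      have h2 : σ ε * B m0 v.1 = a := by
        rw [hv, map_add, hM.1.2 m0 hm0 m hm, map_smul, hmx, smul_eq_mul, zero_add]
        linear_combination a * hP.ee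
      rw [h2]
      have h3 : v.1 - a • x + a • m0 = m + a • m0 := by rw [hv]; abel
      rw [h3]
      exact M.add_mem hm (M.smul_mem _ hm0)
    · intro v v' hvv
      have h2 := congrArg Subtype.val hvv
      simp only at h2
      have h3 : ∀ v : ch B x M, B x (v.1 - (σ ε * B m0 v.1) • x + (σ ε * B m0 v.1) • m0) =
          σ ε * B m0 v.1 := by
        intro v
        obtain ⟨m, hm, h0, a, hv⟩ := mem_ch.1 v.2
        have h4 : B x v.1 = 0 := by rw [hv, map_add, h0, map_smul, hxx, smul_zero, add_zero]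
        rw [map_add, map_sub, map_smul, map_smul, hxx, h4, hxm]
        simp
      have h4 : σ ε * B m0 v.1 = σ ε * B m0 v'.1 := by
        rw [← h3 v, ← h3 v', h2]
      rw [h4] at h2
      exact Subtype.ext (sub_left_injective (add_left_injective _ h2))
  · refine Nat.card_le_card_of_injective (fun m : M =>
      (⟨m.1 - B x m.1 • m0 + B x m.1 • x, ?_⟩ : ch B x M)) ?_
    · refine mem_ch.2 ⟨m.1 - B x m.1 • m0, M.sub_mem m.2 (M.smul_mem _ hm0), ?_, _, rfl⟩
      rw [map_sub, map_smul, hxm, smul_eq_mul, mul_one, sub_self]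
    · intro m m' hmm
      have h2 := congrArg Subtype.val hmm
      simp only at h2
      have h3 : B m0 (m.1 - B x m.1 • m0 + B x m.1 • x) =
          B m0 (m'.1 - B x m'.1 • m0 + B x m'.1 • x) := by rw [h2]
      rw [map_add, map_add, map_sub, map_sub, map_smul, map_smul, map_smul, map_smul,
        hM.1.2 m0 hm0 m.1 m.2, hM.1.2 m0 hm0 m'.1 m'.2, hM.1.2 m0 hm0 m0 hm0, hmx] at h3
      simp only [smul_eq_mul, mul_zero, sub_zero, zero_add] at h3
      have he : ε ≠ 0 := by
        intro h0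
        have := hP.ee
        rw [h0, zero_mul] at this
        exact zero_ne_one this
      have h4 : B x m.1 = B x m'.1 := mul_right_cancel₀ he h3
      rw [h4] at h2
      exact Subtype.ext (sub_left_injective (add_left_injective _ h2))

theorem card_eq [Finite V] (hP : Pol σ ε B Sg G) {M' : Submodule F V} (hM' : PM B Sg M')
    (k : ℕ) : ∀ M : Submodule F V, PM B Sg M →
      Nat.card M' ≤ Nat.card (M ⊓ M' : Submodule F V) + k → Nat.card M = Nat.card M' := by
  induction k with
  | zero =>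
    intro M hM hk
    have h1 : M ⊓ M' = M' := by
      apply SetLike.coe_injective
      refine Set.eq_of_subset_of_ncard_le inf_le_right ?_ (Set.toFinite _)
      exact hk
    rw [pm_eq hM' hM (by rw [← h1]; exact inf_le_left)]
  | succ k ih =>
    intro M hM hk
    by_cases hle : M' ≤ M
    · rw [pm_eq hM' hM hle]
    rw [SetLike.not_le_iff_exists] at hle
    obtain ⟨x, hx, hxM⟩ := hle
    have hsx : Sg x := hM'.1.1 x hx
    rw [← card_ch hP hM hsx]
    refine ih _ (exch hP hM hsx) ?_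
    have h1 : ((M ⊓ M' : Submodule F V) : Set V) ⊂ ((ch B x M ⊓ M' : Submodule F V) : Set V) := by
      refine ⟨?_, fun hcon => hxM ?_⟩
      · rintro m ⟨hm, hm'⟩
        exact ⟨mem_ch.2 ⟨m, hm, hM'.1.2 x hx m hm', 0, by simp⟩, hm'⟩
      · have : x ∈ ((M ⊓ M' : Submodule F V) : Set V) := hcon ⟨u_mem_ch, hx⟩
        exact this.1
    have h2 : Nat.card (M ⊓ M' : Submodule F V) < Nat.card (ch B x M ⊓ M' : Submodule F V) :=
      Set.ncard_lt_ncard h1 (Set.toFinite _)
    omega

theorem card_eq' [Finite V] (hP : Pol σ ε B Sg G) {M M' : Submodule F V} (hM : PM B Sg M)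
    (hM' : PM B Sg M') : Nat.card M = Nat.card M' :=
  card_eq hP hM' (Nat.card M') M hM (Nat.le_add_left _ _)

/-- normalized vectors opposite to `u` -/
def N1 (B : V →ₛₗ[σ] V →ₗ[F] F) (Sg : V → Prop) (u : V) : Type := {t : V // Sg t ∧ B u t = 1}

instance [Finite V] (u : V) : Finite (N1 B Sg u) := by unfold N1; infer_instance

variable {u w : V}

theorem Hyp.eq_zero (h : Hyp σ ε B Sg G u w) {c : F} (hc : c • u ∈ WW B u w) : c = 0 := by
  have h2 : B w (c • u) = 0 := hc.2
  rw [map_smul, h.wu, smul_eq_mul] at h2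
  rcases mul_eq_zero.1 h2 with h3 | h3
  · exact h3
  · exact absurd h3 h.e0

/-- `|W| ≤ |N1|` -/
theorem Hyp.card_W_le [Finite V] (h : Hyp σ ε B Sg G u w) :
    Nat.card (WW B u w) ≤ Nat.card (N1 B Sg u) := by
  have h1 : ∀ x : WW B u w, ∃ c : F, Sg (x.1 + w + c • u) := fun x =>
    h.pol.ex u (x.1 + w) h.su (by
      have h2 : B u x.1 = 0 := x.2.1
      rw [map_add, h2, h.uw, zero_add])
  choose c hc using h1
  refine Nat.card_le_card_of_injective (fun x : WW B u w =>
    (⟨x.1 + w + c x • u, hc x, ?_⟩ : N1 B Sg u)) ?_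
  · have h2 : B u x.1 = 0 := x.2.1
    rw [map_add, map_add, h2, h.uw, map_smul, h.uu, smul_zero, zero_add, add_zero]
  · intro x y hxy
    have h2 := congrArg Subtype.val hxy
    have h3 := congrArg h.pW h2
    simp only [map_add, map_smul, h.pW_mem, h.pW_w, h.pW_u, smul_zero, add_zero] at h3
    exact h3

/-- the fibre over `N` -/
def Fib (B : V →ₛₗ[σ] V →ₗ[F] F) (Sg : V → Prop) (u w : V) (N : Submodule F (WW B u w)) : Type :=
  {M : XX B Sg // u ∉ M.1 ∧ tr B u w M.1 = N}

instance [Finite V] (N : Submodule F (WW B u w)) : Finite (Fib B Sg u w N) := by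
  unfold Fib; infer_instance

theorem Hyp.card_fib [Finite V] (h : Hyp σ ε B Sg G u w) {N : Submodule F (WW B u w)}
    (hN : PM (BW B u w) (fun x => Sg x.1) N) :
    Nat.card (Fib B Sg u w N) * Nat.card N = Nat.card (N1 B Sg u) := by
  -- base vectors
  have hb : ∀ M : Fib B Sg u w N, ∃ t ∈ M.1.1, Sg t ∧ B u t = 1 := fun M =>
    h.exists_t M.1.2 M.2.1
  choose tb tb1 tb2 tb3 using hb
  have hl : ∀ (M : Fib B Sg u w N) (n : N), ∃ m ∈ M.1.1, B u m = 0 ∧ ∃ c : F, n.1.1 = m + c • u := by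
    intro M n
    have h1 : n.1 ∈ tr B u w M.1.1 := by rw [M.2.2]; exact n.2
    exact mem_ch.1 (mem_tr.1 h1)
  choose l l1 l2 c l3 using hl
  rw [← Nat.card_prod]
  apply le_antisymm
  · refine Nat.card_le_card_of_injective (fun z : Fib B Sg u w N × N =>
      (⟨tb z.1 + l z.1 z.2, z.1.1.2.1.1 _ (Submodule.add_mem _ (tb1 _) (l1 _ _)), by
        rw [map_add, tb3, l2, add_zero]⟩ : N1 B Sg u)) ?_
    rintro ⟨M, n⟩ ⟨M', n'⟩ hzz
    have h2 : tb M + l M n = tb M' + l M' n' := congrArg Subtype.val hzz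
    have hMM : M = M' := by
      apply Subtype.ext
      apply Subtype.ext
      have e1 := h.unique_over M.1.2 (t := tb M + l M n) (Submodule.add_mem _ (tb1 _) (l1 _ _))
        (by rw [map_add, tb3, l2, add_zero])
      have e2 := h.unique_over M'.1.2 (t := tb M' + l M' n')
        (Submodule.add_mem _ (tb1 _) (l1 _ _)) (by rw [map_add, tb3, l2, add_zero])
      rw [e1, e2, M.2.2, M'.2.2, h2]
    subst hMM
    have h3 : l M n = l M n' := add_left_cancel h2
    have h4 : n.1.1 - n'.1.1 = (c M n - c M n') • u := by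
      rw [l3 M n, l3 M n', h3, sub_smul]
      abel
    have h5 : c M n - c M n' = 0 := h.eq_zero (by
      rw [← h4]
      exact Submodule.sub_mem _ n.1.2 n'.1.2)
    rw [h5, zero_smul, sub_eq_zero] at h4
    have h6 : n = n' := Subtype.ext (Subtype.ext h4)
    rw [h6]
  · have hM : ∀ t : N1 B Sg u, ∃ M : Fib B Sg u w N, t.1 ∈ M.1.1 := fun t => by
      obtain ⟨h1, h2, h3, h4⟩ := h.exists_over hN t.2.1 t.2.2
      exact ⟨⟨⟨_, h1⟩, h2, h4⟩, h3⟩
    choose Mt hMt using hM
    have hmem : ∀ t : N1 B Sg u, h.pW (t.1 - tb (Mt t)) ∈ N := by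
      intro t
      rw [← (Mt t).2.2]
      have h0 : B u (t.1 - tb (Mt t)) = 0 := by rw [map_sub, t.2.2, tb3, sub_self]
      refine h.pW_mem_tr ?_ h0
      exact mem_ch.2 ⟨_, Submodule.sub_mem _ (hMt t) (tb1 _), h0, 0, by simp⟩
    refine Nat.card_le_card_of_injective (fun t : N1 B Sg u =>
      ((Mt t, ⟨h.pW (t.1 - tb (Mt t)), hmem t⟩) : Fib B Sg u w N × N)) ?_
    intro t t' htt
    simp only [Prod.mk.injEq] at htt
    have h1 : h.pW (t.1 - tb (Mt t)) = h.pW (t'.1 - tb (Mt t)) := by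
      have h2 := congrArg Subtype.val htt.2
      simp only at h2
      rw [h2, htt.1]
    have h2 : h.pW (t.1 - t'.1) = 0 := by
      have : t.1 - t'.1 = (t.1 - tb (Mt t)) - (t'.1 - tb (Mt t)) := by abel
      rw [this, map_sub, h1, sub_self]
    have h3 : B u (t.1 - t'.1) = 0 := by rw [map_sub, t.2.2, t'.2.2, sub_self]
    have h4 := h.pW_val (t.1 - t'.1)
    rw [h2, h3, zero_smul, sub_zero] at h4
    have h5 : t.1 - t'.1 = (σ ε * B w (t.1 - t'.1)) • u := by
      have : (0 : V) = t.1 - t'.1 - (σ ε * B w (t.1 - t'.1)) • u := h4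
      rw [eq_comm, sub_eq_zero] at this
      exact this
    have h6 : t.1 - t'.1 ∈ (Mt t).1.1 := Submodule.sub_mem _ (hMt t) (by
      rw [htt.1]; exact hMt t')
    by_cases h7 : σ ε * B w (t.1 - t'.1) = 0
    · rw [h7, zero_smul, sub_eq_zero] at h5
      exact Subtype.ext h5
    · exfalso
      apply (Mt t).2.1
      rw [h5] at h6
      have h8 := Submodule.smul_mem _ (σ ε * B w (t.1 - t'.1))⁻¹ h6
      rwa [smul_smul, inv_mul_cancel₀ h7, one_smul] at h8

end Pool.Agent.R570.PS
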