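import Mathlib
import Pool.Agent.R570.PS.Rat

set_option autoImplicit false

/-!
`n ≤ exp 2 * |opp|`.
-/

namespace Pool.Agent.R570.PS

open Module

variable {F V : Type} [Field F] [AddCommGroup V] [Module F V]
variable {σ : F →+* F} {ε : F} {B : V →ₛₗ[σ] V →ₗ[F] F} {Sg : V → Prop}
  {G : Subgroup (V ≃ₗ[F] V)} {u w : V}

theorem Hyp.ch_self (h : Hyp σ ε B Sg G u w) {M : Submodule F V} (hM : PM B Sg M) (hu : u ∈ M) :
    ch B u M = M := by
  refine (pm_eq hM (exch h.pol hM h.su) ?_).symm
  intro m hm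
  exact mem_ch.2 ⟨m, hm, hM.1.2 u hu m hm, 0, by simp⟩

/-- if `pW y = 0` and `B u y = 0` then `y` is a multiple of `u` -/
theorem Hyp.eq_smul (h : Hyp σ ε B Sg G u w) {y : V} (h0 : B u y = 0) (h1 : h.pW y = 0) :
    ∃ c : F, y = c • u := by
  have h4 := h.pW_val y
  rw [h1, h0, zero_smul, sub_zero] at h4
  have h5 : (0 : V) = y - (σ ε * B w y) • u := h4
  rw [eq_comm, sub_eq_zero] at h5
  exact ⟨_, h5⟩

theorem Hyp.opp_iff [Finite V] (h : Hyp σ ε B Sg G u w) {M M0 : Submodule F V} (hM : PM B Sg M)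
    (hM0 : PM B Sg M0) (hu : u ∈ M0) :
    M ⊓ M0 = ⊥ ↔ u ∉ M ∧ tr B u w M ⊓ tr B u w M0 = ⊥ := by
  have hself := h.ch_self hM0 hu
  constructor
  · intro h0
    refine ⟨fun h1 => h.u0 ?_, ?_⟩
    · have : u ∈ M ⊓ M0 := ⟨h1, hu⟩
      rw [h0] at this
      exact this
    · rw [eq_bot_iff]
      rintro y ⟨hy1, hy2⟩
      obtain ⟨m, hm, hm0, c, hc⟩ := mem_ch.1 (mem_tr.1 hy1)
      have hy3 : y.1 ∈ M0 := by
        have := mem_tr.1 hy2
        rwa [hself] at this
      have hmM0 : m ∈ M0 := by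
        have : m = y.1 - c • u := by rw [hc]; abel
        rw [this]
        exact Submodule.sub_mem _ hy3 (Submodule.smul_mem _ _ hu)
      have h2 : m ∈ M ⊓ M0 := ⟨hm, hmM0⟩
      rw [h0, Submodule.mem_bot] at h2
      rw [h2, zero_add] at hc
      have h3 : c = 0 := h.eq_zero (by rw [← hc]; exact y.2)
      rw [h3, zero_smul] at hc
      rw [Submodule.mem_bot]
      exact Subtype.ext hc
  · rintro ⟨huM, h0⟩
    rw [eq_bot_iff]
    rintro y ⟨hy1, hy2⟩
    have h1 : B u y = 0 := hM0.1.2 u hu y hy2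
    have h2 : h.pW y ∈ tr B u w M := h.pW_mem_tr (mem_ch.2 ⟨y, hy1, h1, 0, by simp⟩) h1
    have h3 : h.pW y ∈ tr B u w M0 := h.pW_mem_tr (mem_ch.2 ⟨y, hy2, h1, 0, by simp⟩) h1
    have h4 : h.pW y ∈ tr B u w M ⊓ tr B u w M0 := ⟨h2, h3⟩
    rw [h0, Submodule.mem_bot] at h4
    obtain ⟨c, hc⟩ := h.eq_smul h1 h4
    by_cases h5 : c = 0
    · rw [h5, zero_smul] at hc
      rw [Submodule.mem_bot]
      exact hc
    · exfalso
      apply huM
      rw [hc] at hy1
      have h8 := Submodule.smul_mem _ c⁻¹ hy1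
      rwa [smul_smul, inv_mul_cancel₀ h5, one_smul] at h8

theorem Hyp.two_le [Finite V] (h : Hyp σ ε B Sg G u w) {M0 : Submodule F V}
    (hM0 : PM B Sg M0) (hu : u ∈ M0) :
    2 * Nat.card (tr B u w M0) ≤ Nat.card M0 := by
  have hself := h.ch_self hM0 hu
  have e : Nat.card (Bool × tr B u w M0) = 2 * Nat.card (tr B u w M0) := by
    rw [Nat.card_prod]; simp
  rw [← e]
  have hmem : ∀ n : tr B u w M0, n.1.1 ∈ M0 := fun n => by
    have := mem_tr.1 n.2
    rwa [hself] at this
  refine Nat.card_le_card_of_injective (fun z : Bool × tr B u w M0 =>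
    (⟨z.2.1.1 + (if z.1 = true then u else 0), Submodule.add_mem _ (hmem _) (by
      split_ifs
      · exact hu
      · exact M0.zero_mem)⟩ : M0)) ?_
  rintro ⟨b, n⟩ ⟨b', n'⟩ hzz
  have h1 : n.1.1 + (if b = true then u else 0) = n'.1.1 + (if b' = true then u else 0) :=
    congrArg Subtype.val hzz
  have h2 := congrArg h.pW h1
  rw [map_add, map_add, h.pW_mem, h.pW_mem] at h2
  have h3 : ∀ c : Bool, h.pW (if c = true then u else 0) = 0 := by
    intro c
    split_ifs
    · exact h.pW_u
    · exact map_zero _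
  rw [h3, h3, add_zero, add_zero] at h2
  have h4 : n = n' := Subtype.ext h2
  subst h4
  have h5 := add_left_cancel h1
  have h6 : b = b' := by
    cases b <;> cases b'
    · rfl
    · simp at h5
      exact absurd h5.symm h.u0
    · simp at h5
      exact absurd h5 h.u0
    · rfl
  rw [h6]

theorem ratio (n : ℕ) : ∀ (V : Type) [AddCommGroup V] [Module F V] [Finite V]
    (B : V →ₛₗ[σ] V →ₗ[F] F) (Sg : V → Prop) (G : Subgroup (V ≃ₗ[F] V)), Pol σ ε B Sg G →
    finrank F V ≤ n → ∀ M0 : XX B Sg,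
    (Nat.card (XX B Sg) : ℝ) ≤ Real.exp (2 - 2 / (Nat.card M0.1 : ℝ)) * ((opp M0).card : ℝ) := by
  classical
  have base : ∀ (V : Type) [AddCommGroup V] [Module F V] [Finite V]
      (B : V →ₛₗ[σ] V →ₗ[F] F) (Sg : V → Prop) (M0 : XX B Sg), M0.1 = ⊥ →
      (Nat.card (XX B Sg) : ℝ) ≤ Real.exp (2 - 2 / (Nat.card M0.1 : ℝ)) * ((opp M0).card : ℝ) := by
    intro V _ _ _ B Sg M0 h0
    have hall := all_eq h0
    have h1 : Nat.card (XX B Sg) = 1 := by
      rw [Nat.card_eq_one_iff_unique]
      exact ⟨⟨fun a b => by rw [hall a, hall b]⟩, ⟨M0⟩⟩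
    have ho : opp M0 = {M0} := by
      ext M
      rw [mem_opp, Finset.mem_singleton]
      refine ⟨fun _ => hall M, fun _ => by rw [h0, inf_bot_eq]⟩
    have h2 : Nat.card M0.1 = 1 := by rw [h0]; simp
    rw [h1, h2, ho]
    simp
  induction n with
  | zero =>
    intro V _ _ _ B Sg G hP hn M0
    have h0 : M0.1 = ⊥ := by
      have : FiniteDimensional F V := Module.Finite.of_finite
      have h1 : finrank F M0.1 ≤ finrank F V := Submodule.finrank_le M0.1
      exact Submodule.finrank_eq_zero.1 (by omega)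
    exact base V B Sg M0 h0
  | succ n ih =>
    intro V _ _ _ B Sg G hP hn M0
    have : FiniteDimensional F V := Module.Finite.of_finite
    by_cases h0 : M0.1 = ⊥
    · exact base V B Sg M0 h0
    obtain ⟨u, hu, hu0⟩ := Submodule.exists_mem_ne_zero_of_ne_bot h0
    have hsu : Sg u := M0.2.1.1 u hu
    obtain ⟨w, hsw, huw⟩ := exists_opp hP hu0 hsu
    have h : Hyp σ ε B Sg G u w := ⟨hP, hsu, hsw, huw⟩
    have hlt : finrank F (WW B u w) ≤ n := by
      have h1 : WW B u w ≠ ⊤ := by
        intro h1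
        have h2 : w ∈ WW B u w := by rw [h1]; trivial
        have h3 : B u w = 0 := h2.1
        rw [huw] at h3
        exact one_ne_zero h3
      have h2 : finrank F (WW B u w) < finrank F V := Submodule.finrank_lt h1
      omega
    let π : XX B Sg → XX (BW B u w) (fun x => Sg x.1) := fun M => ⟨tr B u w M.1, h.tr_pm M.2⟩
    have hI := ih (WW B u w) (BW B u w) (fun x => Sg x.1) h.GW h.polW hlt (π M0)
    set cW := Nat.card (XX (BW B u w) (fun x => Sg x.1)) with hcW
    set oW := (opp (π M0)).card with hoW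
    set m := Nat.card (π M0).1 with hm
    have hmpos : 0 < m := Nat.card_pos
    -- sizes of fibres
    set s := Nat.card (Fib B Sg u w (π M0).1) with hs
    have hsm : s * m = Nat.card (N1 B Sg u) := h.card_fib (π M0).2
    have hfib : ∀ N : XX (BW B u w) (fun x => Sg x.1), Nat.card (Fib B Sg u w N.1) = s := by
      intro N
      have h1 := h.card_fib N.2
      have h2 : Nat.card N.1 = m := card_eq' h.polW N.2 (π M0).2
      rw [h2, ← hsm] at h1
      exact Nat.eq_of_mul_eq_mul_right hmpos h1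
    have hms : m ≤ s := by
      obtain ⟨N, N', hN, hN', hNN⟩ := exists_disjoint h.polW
      have h1 : Nat.card N * Nat.card N' ≤ Nat.card (WW B u w) := by
        rw [← Nat.card_prod]
        refine Nat.card_le_card_of_injective (fun z : N × N' => z.1.1 + z.2.1) ?_
        rintro ⟨a, b⟩ ⟨a', b'⟩ hab
        have h2 : a.1 + b.1 = a'.1 + b'.1 := hab
        have h3 : a.1 - a'.1 = b'.1 - b.1 := by
          have : a.1 = a'.1 + b'.1 - b.1 := by rw [← h2]; abel
          rw [this]; abel
        have h4 : a.1 - a'.1 ∈ N ⊓ N' :=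
          ⟨N.sub_mem a.2 a'.2, by rw [h3]; exact N'.sub_mem b'.2 b.2⟩
        have h4' := h4
        rw [hNN, Submodule.mem_bot] at h4
        have h5 : b'.1 - b.1 = 0 := by rw [← h3]; exact h4
        rw [sub_eq_zero] at h4 h5
        rw [Subtype.ext h4, Subtype.ext h5.symm]
      have e1 : Nat.card N = m := card_eq' h.polW hN (π M0).2
      have e2 : Nat.card N' = m := card_eq' h.polW hN' (π M0).2
      rw [e1, e2] at h1
      have h2 := h1.trans h.card_W_le
      rw [← hsm] at h2
      exact Nat.le_of_mul_le_mul_right h2 hmpos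
    -- counting
    have hfil : ∀ N : XX (BW B u w) (fun x => Sg x.1),
        ((out B Sg u).filter (fun M => π M = N)).card = s := by
      intro N
      rw [← hfib N, ← Nat.card_eq_finsetCard]
      refine Nat.card_congr (Equiv.subtypeEquivRight fun M => ?_)
      rw [Finset.mem_filter, mem_out]
      constructor
      · rintro ⟨h1, h2⟩
        exact ⟨h1, congrArg Subtype.val h2⟩
      · rintro ⟨h1, h2⟩
        exact ⟨h1, Subtype.ext h2⟩
    have hpre : ∀ S : Finset (XX (BW B u w) (fun x => Sg x.1)),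
        (pre (out B Sg u) π S).card = S.card * s := by
      intro S
      have h1 := sum_pre (out B Sg u) π S (fun _ => 1)
      simp only [Finset.sum_const, smul_eq_mul, mul_one] at h1
      rw [← h1, Finset.sum_congr rfl (fun N _ => hfil N), Finset.sum_const, smul_eq_mul]
    have hopp : (opp M0).card = oW * s := by
      rw [← hpre]
      congr 1
      ext M
      rw [mem_opp, mem_pre, mem_out, mem_opp]
      exact h.opp_iff M.2 M0.2 hu
    have hout : (out B Sg u).card = cW * s := by
      have h1 := hpre Finset.univ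
      have h2 : pre (out B Sg u) π Finset.univ = out B Sg u := by
        ext M
        rw [mem_pre]
        exact ⟨fun h => h.1, fun h => ⟨h, Finset.mem_univ _⟩⟩
      rw [h2] at h1
      rw [h1, hcW, Nat.card_eq_fintype_card, Finset.card_univ]
    have hinn : (inn B Sg u).card = cW := by
      rw [hcW, ← Nat.card_eq_finsetCard]
      refine Nat.card_congr
        { toFun := fun M => π M.1
          invFun := fun N => ⟨⟨up u w N.1, h.up_pm N.2⟩, ?_⟩
          left_inv := fun M => ?_
          right_inv := fun N => ?_ }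
      · rw [mem_inn]
        exact mem_up.2 ⟨0, N.1.zero_mem, 1, by simp⟩
      · apply Subtype.ext
        apply Subtype.ext
        show up u w (tr B u w M.1.1) = M.1.1
        rw [← h.ch_eq_up M.1.2, h.ch_self M.1.2 ((mem_inn _ _).1 M.2)]
      · apply Subtype.ext
        show tr B u w (up u w N.1) = N.1
        exact h.tr_up N.2 (h.up_pm N.2)
          (h.ch_self (h.up_pm N.2) (mem_up.2 ⟨0, N.1.zero_mem, 1, by simp⟩))
    have htot : Nat.card (XX B Sg) = cW + cW * s := by
      rw [Nat.card_eq_fintype_card, ← Finset.card_univ, ← hout, ← hinn]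
      rw [← Finset.card_union_of_disjoint]
      · congr 1
        ext M
        rw [Finset.mem_union, mem_inn, mem_out]
        exact ⟨fun _ => em _, fun _ => Finset.mem_univ _⟩
      · rw [Finset.disjoint_left]
        intro M h1 h2
        rw [mem_inn] at h1
        rw [mem_out] at h2
        exact h2 h1
    have h2m : 2 * m ≤ Nat.card M0.1 := h.two_le M0.2 hu
    -- the inequality
    have hmR : (0 : ℝ) < m := by exact_mod_cast hmpos
    have hsR : (m : ℝ) ≤ s := by exact_mod_cast hms
    have hspos : (0 : ℝ) < s := lt_of_lt_of_le hmR hsR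
    have h2R : 2 * (m : ℝ) ≤ (Nat.card M0.1 : ℝ) := by exact_mod_cast h2m
    have hcWR : (0 : ℝ) ≤ cW := Nat.cast_nonneg _
    have hoWR : (0 : ℝ) ≤ oW := Nat.cast_nonneg _
    rw [htot, hopp]
    push_cast
    have k1 : (1 + s : ℝ) ≤ s * Real.exp (1 / m) := by
      have e1 : 1 / (m : ℝ) + 1 ≤ Real.exp (1 / m) := Real.add_one_le_exp _
      have e2 : (1 : ℝ) ≤ s / m := by rw [le_div_iff₀ hmR]; linarith
      have e3 : (s : ℝ) * (1 / m + 1) ≤ s * Real.exp (1 / m) :=
        mul_le_mul_of_nonneg_left e1 hspos.le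
      have e4 : (s : ℝ) * (1 / m + 1) = s / m + s := by ring
      linarith
    have k2 : Real.exp (2 - 2 / (m : ℝ)) * Real.exp (1 / m) ≤
        Real.exp (2 - 2 / (Nat.card M0.1 : ℝ)) := by
      rw [← Real.exp_add]
      apply Real.exp_le_exp.2
      have e1 : 2 / (Nat.card M0.1 : ℝ) ≤ 1 / m := by
        rw [div_le_div_iff₀ (by linarith) hmR]
        linarith
      have e2 : 2 / (m : ℝ) = 2 * (1 / m) := by ring
      linarith
    calc (cW : ℝ) + cW * s = cW * (1 + s) := by ring
      _ ≤ (Real.exp (2 - 2 / (m : ℝ)) * oW) * (s * Real.exp (1 / m)) :=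
        mul_le_mul hI k1 (by positivity) (by positivity)
      _ = (Real.exp (2 - 2 / (m : ℝ)) * Real.exp (1 / m)) * (oW * s) := by ring
      _ ≤ Real.exp (2 - 2 / (Nat.card M0.1 : ℝ)) * (oW * s) :=
        mul_le_mul_of_nonneg_right k2 (by positivity)

theorem ratio8 [Finite V] (hP : Pol σ ε B Sg G) (M0 : XX B Sg) :
    Nat.card (XX B Sg) ≤ 8 * (opp M0).card := by
  have h1 := ratio (finrank F V) V B Sg G hP le_rfl M0
  have h2 : Real.exp (2 - 2 / (Nat.card M0.1 : ℝ)) ≤ 8 := by
    have e1 : Real.exp (2 - 2 / (Nat.card M0.1 : ℝ)) ≤ Real.exp 2 := by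
      apply Real.exp_le_exp.2
      have : 0 ≤ 2 / (Nat.card M0.1 : ℝ) := by positivity
      linarith
    have e2 : Real.exp 2 = Real.exp 1 * Real.exp 1 := by
      rw [← Real.exp_add]; norm_num
    have e3 := Real.exp_one_lt_d9
    have e4 : 0 < Real.exp 1 := Real.exp_pos 1
    rw [e2] at e1
    nlinarith
  have h3 : (Nat.card (XX B Sg) : ℝ) ≤ 8 * ((opp M0).card : ℝ) :=
    h1.trans (mul_le_mul_of_nonneg_right h2 (Nat.cast_nonneg _))
  exact_mod_cast h3

end Pool.Agent.R570.PS
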